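import Mathlib
import Pool.Agent.N967.H.Stm

set_option autoImplicit false

/-!
# The distance on an arbitrary line: the properties used
-/

namespace Pool.Agent.N967.H

open Complex MeasureTheory Filter Topology
open Pool.Agent.Y23 (Lg)

namespace AxF

lemma exp_Lg (t : ℝ) : Real.exp (Lg t) = 3 + |t| := by
  unfold Lg
  exact Real.exp_log (by positivity)

end AxF

theorem rp_of {D : Dat} (h : Ax D) (h1 : S_cnt D) (h2 : S_slope D) (h3 : S_lind D)
    (h4 : S_crit D) (h5 : S_pt D) : Rp D where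
  base := h.base
  zero := h.zero
  fin := h1.1
  cnt := h1.2
  slope := h2
  ser := h.ser
  fzg := by
    intro δ hδ
    obtain ⟨C, hC, hb⟩ := h3 δ 1 hδ one_pos
    refine ⟨3 * C, 1, by positivity, fun s hs => ?_⟩
    have h6 := (hb s hs).2
    rw [one_mul, AxF.exp_Lg] at h6
    have h7 := Complex.abs_im_le_norm s
    have h8 := norm_nonneg s
    refine h6.trans ?_
    rw [pow_one]
    have h9 : 3 + |s.im| ≤ 3 * (1 + ‖s‖) := by linarith
    calc C * (3 + |s.im|) ≤ C * (3 * (1 + ‖s‖)) := by gcongr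
      _ = 3 * C * (1 + ‖s‖) := by ring
  crit := by
    obtain ⟨C, hC, hb⟩ := h4 (1 / 8) (by norm_num)
    refine ⟨C * 3 ^ (1 / 8 : ℝ), by positivity, fun t => ?_⟩
    refine (hb t).trans ?_
    have h6 : Real.exp (1 / 8 * Lg t) = (3 + |t|) ^ (1 / 8 : ℝ) := by
      rw [← AxF.exp_Lg t, ← Real.exp_mul, mul_comm]
    have h0 := abs_nonneg t
    rw [h6, mul_assoc, ← Real.mul_rpow (by norm_num) (by positivity)]
    refine mul_le_mul_of_nonneg_left ?_ hC.le
    exact Real.rpow_le_rpow (by positivity) (by linarith) (by norm_num)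
  pt := h5

end Pool.Agent.N967.H
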