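import Pool.Agent.N967.H.Stm
import Pool.Agent.N967.Jj

set_option autoImplicit false

/-!
# The distance on an arbitrary line: the inverse Laplace transform of the error

Port of `Pool.Agent.N967.G.Jj`; the line `re s = 1 / 4` is replaced by `re s = 1 / 2 - q` with
`q = min (1 / 4) ((P - 1 / 2) / 2)`, which is to the right of the pole `1 - P` of the weight.
-/

namespace Pool.Agent.N967.H.Jj

open Complex MeasureTheory Filter Topology Set FourierTransform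
open Pool.Agent.N967.JjAux hiding FF G0 FF_diff G0_diff G0_line deriv_zero JJ_neg JJ_pos half_props
  JJ_planch mom_int iter_line inversion

/-! ### the transform, for functions on `re s ≥ 1 / 2 - q` -/

/-- the transform vanishes for `v ≤ 0` -/
lemma JJ_neg (hs : S_shift) {q : ℝ} (hq : 0 < q) {F : ℂ → ℂ} {B : ℝ} (hB0 : 0 ≤ B)
    (hd : ∀ z : ℂ, 1 / 2 - q ≤ z.re → DifferentiableAt ℂ F z)
    (hB : ∀ z : ℂ, 1 / 2 - q ≤ z.re → ‖F z‖ ≤ B * dc z.im)
    (hlim : ∀ y : ℝ, Tendsto (fun b : ℝ => F (b + y * I)) atTop (𝓝 0)) {v : ℝ} (hv : v ≤ 0) :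
    JJ F v = 0 := by
  have hle : ∀ z : ℂ, 1 / 2 ≤ z.re → ‖Complex.exp (v * (z - 1 / 2))‖ ≤ 1 := fun z hz =>
    exp_norm_le (mul_nonpos_of_nonpos_of_nonneg hv (by linarith))
  rw [JJ_eq, shift_top hs hB0 (H := fun s => F s * Complex.exp (v * (s - 1 / 2))) (B := B), mul_zero]
  · intro z hz
    have h1 : DifferentiableAt ℂ (fun s : ℂ => Complex.exp (v * (s - 1 / 2))) z := by fun_prop
    exact (hd z (by linarith)).mul h1
  · intro z hz
    rw [norm_mul]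
    calc ‖F z‖ * ‖Complex.exp (v * (z - 1 / 2))‖ ≤ ‖F z‖ * 1 := by
          gcongr
          exact hle z hz
      _ ≤ _ := by rw [mul_one]; exact hB z (by linarith)
  · intro y
    rw [tendsto_zero_iff_norm_tendsto_zero]
    have h1 := (tendsto_zero_iff_norm_tendsto_zero.1 (hlim y))
    refine squeeze_zero' (Eventually.of_forall fun b => norm_nonneg _) ?_ h1
    filter_upwards [eventually_ge_atTop (1 / 2)] with b hb
    rw [norm_mul]
    exact mul_le_of_le_one_right (norm_nonneg _) (hle _ (by simpa using hb))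

/-- the line `re s = 1 / 2 - q` -/
lemma JJ_pos (hs : S_shift) {q : ℝ} (hq : 0 < q) {F : ℂ → ℂ} {B : ℝ} (hB0 : 0 ≤ B)
    (hd : ∀ z : ℂ, 1 / 2 - q ≤ z.re → DifferentiableAt ℂ F z)
    (hB : ∀ z : ℂ, 1 / 2 - q ≤ z.re → ‖F z‖ ≤ B * dc z.im) {B' : ℝ}
    (hB' : ∀ z : ℂ, z.re = 1 / 2 - q → ‖F z‖ ≤ B' * dc z.im) {v : ℝ} (hv : 0 ≤ v) :
    ‖JJ F v‖ ≤ (B' * ∫ y, dc y) * Real.exp (-(q * v)) := by
  have hle : ∀ z : ℂ, z.re ≤ 1 / 2 → ‖Complex.exp (v * (z - 1 / 2))‖ ≤ 1 := fun z hz =>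
    exp_norm_le (mul_nonpos_of_nonneg_of_nonpos hv (by linarith))
  have hdd : ∀ z : ℂ, 1 / 2 - q ≤ z.re →
      DifferentiableAt ℂ (fun s : ℂ => F s * Complex.exp (v * (s - 1 / 2))) z := by
    intro z hz
    have h1 : DifferentiableAt ℂ (fun s : ℂ => Complex.exp (v * (s - 1 / 2))) z := by fun_prop
    exact (hd z (by linarith)).mul h1
  rw [JJ_eq, shiftH hs (by linarith : (1 / 2 - q : ℝ) < 1 / 2) hB0
    (H := fun s => F s * Complex.exp (v * (s - 1 / 2))) (B := B) (fun z hz _ => hdd z hz) ?_]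
  · have h1 : ∀ y : ℝ, ‖(fun s => F s * Complex.exp (v * (s - 1 / 2)))
        (((1 / 2 - q : ℝ) : ℂ) + y * I)‖ ≤ B' * dc y * Real.exp (-(q * v)) := by
      intro y
      simp only
      rw [norm_mul, Complex.norm_exp]
      have e : ((v : ℂ) * ((((1 / 2 - q : ℝ) : ℂ) + y * I) - 1 / 2)).re = -(q * v) := by
        simp
        ring
      rw [e]
      have h2 := hB' (((1 / 2 - q : ℝ) : ℂ) + y * I) (by simp)
      have e2 : (((1 / 2 - q : ℝ) : ℂ) + y * I).im = y := by simp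
      rw [e2] at h2
      gcongr
    have hpi := Real.pi_gt_three
    have h2 : ‖(1 / (2 * Real.pi) : ℂ)‖ ≤ 1 := by
      rw [norm_div, norm_one, norm_mul, Complex.norm_real, Real.norm_of_nonneg Real.pi_pos.le]
      simp only [Complex.norm_ofNat]
      rw [div_le_one (by positivity)]
      linarith
    rw [norm_mul]
    calc ‖(1 / (2 * Real.pi) : ℂ)‖ * ‖∫ y : ℝ, (fun s => F s * Complex.exp (v * (s - 1 / 2)))
          (((1 / 2 - q : ℝ) : ℂ) + y * I)‖ ≤ 1 * ∫ y : ℝ, B' * dc y * Real.exp (-(q * v)) := by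
          refine mul_le_mul h2 ?_ (norm_nonneg _) zero_le_one
          exact norm_integral_le_of_norm_le ((dc_int.const_mul B').mul_const _)
            (Eventually.of_forall h1)
      _ = _ := by
          rw [one_mul, integral_mul_const, integral_const_mul]
  · intro z hz1 hz2
    rw [norm_mul]
    calc ‖F z‖ * ‖Complex.exp (v * (z - 1 / 2))‖ ≤ ‖F z‖ * 1 := by
          gcongr
          exact hle z hz2
      _ ≤ _ := by rw [mul_one]; exact hB z (by linarith)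

/-- the properties of the function on the critical line -/
lemma half_props {q : ℝ} (hq : 0 < q) {F : ℂ → ℂ} {B : ℝ}
    (hd : ∀ z : ℂ, 1 / 2 - q ≤ z.re → DifferentiableAt ℂ F z)
    (hB : ∀ z : ℂ, 1 / 2 - q ≤ z.re → ‖F z‖ ≤ B * dc z.im) :
    Continuous (fun t : ℝ => F (1 / 2 + t * I)) ∧ Integrable (fun t : ℝ => F (1 / 2 + t * I)) ∧
      MemLp (fun t : ℝ => F (1 / 2 + t * I)) 2 := by
  have h1 : Continuous (fun t : ℝ => F (1 / 2 + t * I)) := by
    have := line_cont (H := F) (a := 1 / 2) (fun z hz => hd z (by rw [hz]; linarith))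
    simpa only [line_half] using this
  have h2 : Integrable (fun t : ℝ => F (1 / 2 + t * I)) := by
    have := line_int (H := F) (a := 1 / 2) (B := B) (fun z hz => hd z (by rw [hz]; linarith))
      (fun z hz => hB z (by rw [hz]; linarith))
    simpa only [line_half] using this
  refine ⟨h1, h2, ?_⟩
  rw [memLp_two_iff_integrable_sq_norm h1.aestronglyMeasurable]
  refine (dc_sq_int.const_mul (B ^ 2)).mono' (h1.norm.pow 2).aestronglyMeasurable
    (Eventually.of_forall fun t => ?_)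
  rw [Real.norm_of_nonneg (by positivity), ← mul_pow]
  have := hB (1 / 2 + t * I) (by simp; linarith)
  have e2 : (1 / 2 + (t : ℂ) * I).im = t := by simp
  rw [e2] at this
  exact pow_le_pow_left₀ (norm_nonneg _) this 2

lemma JJ_planch {q : ℝ} (hq : 0 < q) {F : ℂ → ℂ} {B : ℝ}
    (hd : ∀ z : ℂ, 1 / 2 - q ≤ z.re → DifferentiableAt ℂ F z)
    (hB : ∀ z : ℂ, 1 / 2 - q ≤ z.re → ‖F z‖ ≤ B * dc z.im) :
    Continuous (JJ F) ∧ Integrable (fun v => ‖JJ F v‖ ^ 2) ∧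
      ∫ v : ℝ, ‖JJ F v‖ ^ 2 = 1 / (2 * Real.pi) * ∫ t : ℝ, ‖F (1 / 2 + t * I)‖ ^ 2 := by
  obtain ⟨h1, h2, h3⟩ := half_props hq hd hB
  set f : ℝ → ℂ := fun t : ℝ => F (1 / 2 + t * I) with hf
  have hpi := Real.pi_pos
  obtain ⟨h4, h5⟩ := Pool.Agent.Helper625.Planch.plancherel f h2 h3
  have hcont : Continuous (𝓕 f) := by
    have := VectorFourier.fourierIntegral_continuous (L := innerₗ ℝ) Real.continuous_fourierChar
      continuous_inner h2
    exact this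
  have e : ∀ v, ‖JJ F v‖ ^ 2 = (1 / (2 * Real.pi)) ^ 2 * ‖𝓕 f (-(2 * Real.pi)⁻¹ * v)‖ ^ 2 := by
    intro v
    rw [JJ_fourier, norm_mul, mul_pow]
    congr 2
    rw [norm_div, norm_one, norm_mul, Complex.norm_real, Real.norm_of_nonneg Real.pi_pos.le]
    simp
  refine ⟨?_, ?_, ?_⟩
  · have : JJ F = fun v => 1 / (2 * Real.pi) * 𝓕 f (-(2 * Real.pi)⁻¹ * v) :=
      funext fun v => JJ_fourier F v
    rw [this]
    exact continuous_const.mul (hcont.comp (by fun_prop))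
  · simp_rw [e]
    have h6 := ((memLp_two_iff_integrable_sq_norm h4.aestronglyMeasurable).mp h4).comp_mul_left'
      (R := -(2 * Real.pi)⁻¹) (by simp [hpi.ne'])
    exact h6.const_mul _
  · simp_rw [e]
    rw [integral_const_mul, Measure.integral_comp_mul_left (fun x => ‖𝓕 f x‖ ^ 2), h5, smul_eq_mul,
      inv_neg, inv_inv, abs_neg, abs_of_pos (by positivity)]
    have h7 : ∫ t : ℝ, ‖F (1 / 2 + t * I)‖ ^ 2 = ∫ t : ℝ, ‖f t‖ ^ 2 := rfl
    rw [h7]
    generalize (∫ t : ℝ, ‖f t‖ ^ 2) = X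
    field_simp

/-! ### inversion -/

/-- the moments converge -/
lemma mom_int {q : ℝ} (hq : 0 < q) {J : ℝ → ℂ} {C : ℝ} (hJ : Continuous J)
    (h0 : ∀ v, v ≤ 0 → J v = 0)
    (hb : ∀ v, 0 ≤ v → ‖J v‖ ≤ C * Real.exp (-(q * v))) (n : ℕ) :
    Integrable (fun v : ℝ => v ^ n • J v) := by
  have hC : 0 ≤ C := by
    have := (norm_nonneg _).trans (hb 0 le_rfl)
    simpa using this
  have h1 : Integrable ((Ioi (0:ℝ)).indicator
      (fun v => (C * n.factorial * (2 / q) ^ n) * Real.exp (-(q / 2) * v))) := by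
    rw [integrable_indicator_iff measurableSet_Ioi]
    exact (exp_neg_integrableOn_Ioi 0 (by positivity)).const_mul _
  refine h1.mono' ?_ (Eventually.of_forall fun v => ?_)
  · exact ((continuous_id.pow n).smul hJ).aestronglyMeasurable
  · by_cases hv : v ∈ Ioi (0:ℝ)
    · rw [indicator_of_mem hv]
      have hv0 : 0 < v := hv
      rw [norm_smul, norm_pow, Real.norm_of_nonneg hv0.le]
      have h2 := hb v hv0.le
      have h3 := Real.pow_div_factorial_le_exp (q / 2 * v) (by positivity) n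
      rw [div_le_iff₀ (by positivity)] at h3
      have h3' : v ^ n ≤ (2 / q) ^ n * (Real.exp (q / 2 * v) * n.factorial) := by
        have e3 : v ^ n = (2 / q) ^ n * (q / 2 * v) ^ n := by
          rw [← mul_pow]
          congr 1
          field_simp
        rw [e3]
        gcongr
      have h4 : Real.exp (-(q / 2) * v) = Real.exp (q / 2 * v) * Real.exp (-(q * v)) := by
        rw [← Real.exp_add]
        congr 1
        ring
      rw [h4]
      calc v ^ n * ‖J v‖ ≤ ((2 / q) ^ n * (Real.exp (q / 2 * v) * n.factorial)) *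
            (C * Real.exp (-(q * v))) := by
            gcongr
        _ = _ := by ring
    · rw [indicator_of_notMem hv, h0 v (not_lt.1 hv), smul_zero, norm_zero]

/-- the derivatives on the line -/
lemma iter_line {q : ℝ} (hq : 0 < q) {F : ℂ → ℂ}
    (hd : ∀ z : ℂ, 1 / 2 - q ≤ z.re → DifferentiableAt ℂ F z) (k : ℕ) :
    iteratedDeriv k (fun t : ℝ => F (1 / 2 + t * I)) =
      fun t : ℝ => I ^ k * iteratedDeriv k F (1 / 2 + t * I) := by
  have hop : IsOpen {z : ℂ | 1 / 2 - q < z.re} := isOpen_lt continuous_const Complex.continuous_re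
  have han : AnalyticOnNhd ℂ F {z : ℂ | 1 / 2 - q < z.re} := by
    refine DifferentiableOn.analyticOnNhd (fun z hz => ?_) hop
    have hz' : 1 / 2 - q < z.re := hz
    exact (hd z hz'.le).differentiableWithinAt
  induction k with
  | zero => ext t; simp
  | succ k ih =>
    rw [iteratedDeriv_succ, ih]
    ext t
    have hmem : (1 / 2 + (t : ℂ) * I) ∈ {z : ℂ | 1 / 2 - q < z.re} := by
      show 1 / 2 - q < (1 / 2 + (t : ℂ) * I).re
      simp
      linarith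
    have h1 : AnalyticAt ℂ (iteratedDeriv k F) (1 / 2 + t * I) := by
      have := (han _ hmem).iterated_deriv k
      rw [iteratedDeriv_eq_iterate]
      exact this
    have h2 : HasDerivAt (iteratedDeriv k F) (iteratedDeriv (k + 1) F (1 / 2 + t * I))
        (1 / 2 + (t : ℂ) * I) := by
      rw [iteratedDeriv_succ]
      exact h1.differentiableAt.hasDerivAt
    have h3 : HasDerivAt (fun w : ℂ => (1 / 2 : ℂ) + w * I) I (t : ℂ) := by
      have := ((hasDerivAt_id (t : ℂ)).mul_const I).const_add (1 / 2 : ℂ)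
      simpa using this
    have h4 := (h2.comp (t : ℂ) h3).comp_ofReal
    have h5 := h4.const_mul (I ^ k)
    rw [show (fun t : ℝ => I ^ k * iteratedDeriv k F (1 / 2 + t * I)) =
      fun y : ℝ => I ^ k * (iteratedDeriv k F ∘ fun w : ℂ => (1 / 2 : ℂ) + w * I) y from rfl,
      h5.deriv]
    ring

/-- Fourier inversion with derivatives -/
lemma inversion {q : ℝ} (hq : 0 < q) {F : ℂ → ℂ} {B C : ℝ}
    (hd : ∀ z : ℂ, 1 / 2 - q ≤ z.re → DifferentiableAt ℂ F z)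
    (hB : ∀ z : ℂ, 1 / 2 - q ≤ z.re → ‖F z‖ ≤ B * dc z.im) (h0 : ∀ v, v ≤ 0 → JJ F v = 0)
    (hb : ∀ v, 0 ≤ v → ‖JJ F v‖ ≤ C * Real.exp (-(q * v))) (k : ℕ) (t : ℝ) :
    ∫ v : ℝ, ((-v : ℝ) : ℂ) ^ k * JJ F v * Complex.exp (-(v * t : ℝ) * I) =
      iteratedDeriv k F (1 / 2 + t * I) := by
  obtain ⟨h1, h2, h3⟩ := half_props hq hd hB
  obtain ⟨hJc, -, -⟩ := JJ_planch hq hd hB
  set f : ℝ → ℂ := fun t : ℝ => F (1 / 2 + t * I) with hf
  have hpi := Real.pi_pos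
  have hpc : (Real.pi : ℂ) ≠ 0 := by exact_mod_cast Real.pi_ne_zero
  have hinv : ∀ u : ℝ, 𝓕⁻ f u = 2 * Real.pi * JJ F (2 * Real.pi * u) := by
    intro u
    rw [Real.fourierInv_eq_fourier_neg, JJ_fourier]
    have e : -(2 * Real.pi)⁻¹ * (2 * Real.pi * u) = -u := by field_simp
    have e5 : 𝓕 (fun t : ℝ => F (1 / 2 + t * I)) (-u) = 𝓕 f (-u) := rfl
    rw [e, e5]
    generalize 𝓕 f (-u) = X
    field_simp
  have hmom := mom_int hq hJc h0 hb
  have hjm : ∀ n : ℕ, Integrable (fun u : ℝ => u ^ n • 𝓕⁻ f u) := by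
    intro n
    have h4 := ((hmom n).comp_mul_left' (R := 2 * Real.pi) (by positivity)).const_mul
      ((2 * Real.pi : ℂ) * (((2 * Real.pi) ^ n)⁻¹ : ℝ))
    refine h4.congr (Eventually.of_forall fun u => ?_)
    simp only [hinv, Complex.real_smul]
    generalize JJ F (2 * Real.pi * u) = X
    push_cast
    rw [mul_pow]
    field_simp
    rw [mul_pow, mul_pow]
    ring
  have hFi : Integrable (𝓕 f) := by
    have h5 := hjm 0
    simp only [pow_zero, one_smul] at h5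
    have h6 := h5.comp_neg
    refine h6.congr (Eventually.of_forall fun u => ?_)
    simp only
    rw [Real.fourierInv_eq_fourier_neg, neg_neg]
  have h7 : 𝓕 (𝓕⁻ f) = f := h1.fourier_fourierInv_eq h2 hFi
  have h8 : iteratedDeriv k f t = I ^ k * iteratedDeriv k F (1 / 2 + t * I) := by
    rw [hf, iter_line hq hd k]
  have h9 := Real.iteratedDeriv_fourier (f := 𝓕⁻ f) (N := ⊤) (n := k) (fun n _ => hjm n) le_top
  rw [h7] at h9
  have h10 := congrFun h9 t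
  rw [h8, Real.fourier_real_eq_integral_exp_smul] at h10
  set g : ℝ → ℂ := fun v : ℝ => 2 * Real.pi * (I ^ k * (((-v : ℝ) : ℂ) ^ k * JJ F v *
        Complex.exp (-(v * t : ℝ) * I))) with hg
  have h11 : ∫ v : ℝ, Complex.exp (((-2 * Real.pi * v * t : ℝ) : ℂ) * I) •
      ((-2 * Real.pi * I * v) ^ k • 𝓕⁻ f v) = ∫ u : ℝ, g (2 * Real.pi * u) := by
    refine integral_congr_ae (Eventually.of_forall fun u => ?_)
    simp only [hinv, hg, smul_eq_mul]
    push_cast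
    have e1 : (-2 * (Real.pi : ℂ) * I * u) ^ k = I ^ k * (-(2 * Real.pi * u)) ^ k := by
      rw [← mul_pow]
      congr 1
      ring
    have e2 : -2 * (Real.pi : ℂ) * u * t * I = -(2 * Real.pi * u * t) * I := by ring
    rw [e1, e2]
    ring
  rw [h11, Measure.integral_comp_mul_left g (2 * Real.pi), hg, integral_const_mul,
    integral_const_mul, abs_of_pos (by positivity), Complex.real_smul] at h10
  set X := ∫ v : ℝ, ((-v : ℝ) : ℂ) ^ k * JJ F v * Complex.exp (-(v * t : ℝ) * I) with hX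
  have e3 : (((2 * Real.pi)⁻¹ : ℝ) : ℂ) * (2 * Real.pi * (I ^ k * X)) = I ^ k * X := by
    push_cast
    field_simp
  rw [e3] at h10
  exact (mul_left_cancel₀ (pow_ne_zero k I_ne_zero) h10).symm

/-! ### the error -/

/-- `(1 - L(s) A(s)) (s - P)^p / ((s - 1 + P)^p (s + w - 1/2))` -/
noncomputable def G0 (D : Dat) (N : ℕ) (a : ℕ → ℂ) (s : ℂ) : ℂ :=
  ((s - D.P) ^ D.p - D.Zs s * DP N a s) / ((s - (1 - D.P)) ^ D.p * (s + (D.w - 1 / 2)))

/-- the first factor of the denominator -/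
lemma den1 {D : Dat} {q : ℝ} (hq : 2 * q ≤ D.P - 1 / 2) {s : ℂ} (hs : 1 / 2 - q ≤ s.re) :
    q ≤ ‖s - (1 - D.P)‖ := by
  have h1 := (le_abs_self _).trans (Complex.abs_re_le_norm (s - (1 - D.P)))
  have h2 : (s - (1 - (D.P : ℂ))).re = s.re - (1 - D.P) := by simp
  rw [h2] at h1
  linarith

/-- the second factor of the denominator -/
lemma den2 {D : Dat} (hb : Base D) {q : ℝ} (hq4 : q ≤ 1 / 4) {s : ℂ} (hs : 1 / 2 - q ≤ s.re) :
    1 / 4 ≤ ‖s + (D.w - 1 / 2)‖ := by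
  have h1 := (le_abs_self _).trans (Complex.abs_re_le_norm (s + (D.w - 1 / 2)))
  have h2 : (s + ((D.w : ℂ) - 1 / 2)).re = s.re + (D.w - 1 / 2) := by simp
  rw [h2] at h1
  have := hb.hw
  linarith

lemma den_ne {D : Dat} (hb : Base D) {q : ℝ} (hq0 : 0 < q) (hq4 : q ≤ 1 / 4)
    (hq : 2 * q ≤ D.P - 1 / 2) {s : ℂ} (hs : 1 / 2 - q ≤ s.re) :
    (s - (1 - D.P)) ^ D.p * (s + (D.w - 1 / 2)) ≠ 0 := by
  have h1 := den1 hq hs
  have h2 := den2 hb hq4 hs
  refine mul_ne_zero (pow_ne_zero _ ?_) ?_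
  · rw [← norm_pos_iff]; linarith
  · rw [← norm_pos_iff]; linarith

lemma G0_diff {D : Dat} (hb : Base D) {q : ℝ} (hq0 : 0 < q) (hq4 : q ≤ 1 / 4)
    (hq : 2 * q ≤ D.P - 1 / 2) (N : ℕ) (a : ℕ → ℂ) {s : ℂ} (hs : 1 / 2 - q ≤ s.re) :
    DifferentiableAt ℂ (G0 D N a) s := by
  unfold G0
  have h1 : DifferentiableAt ℂ D.Zs s := hb.diff s (by linarith)
  have h2 : DifferentiableAt ℂ (DP N a) s := DP_differentiable N a s
  refine DifferentiableAt.div (by fun_prop) (by fun_prop) ?_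
  exact den_ne hb hq0 hq4 hq hs

lemma G0_line {D : Dat} (hb : Base D) (N : ℕ) (a : ℕ → ℂ) (t : ℝ) :
    ‖G0 D N a (1 / 2 + t * I)‖ ^ 2 = D.ig N a t := by
  have hP := hb.hP
  have hw := hb.hw
  unfold G0 Dat.ig Dat.L
  have h0 : (1 / 2 + (t : ℂ) * I) - D.P ≠ 0 := by
    intro h
    have := congrArg Complex.re h
    simp at this
    linarith
  have h0' := pow_ne_zero D.p h0
  have h2 : ((1 / 2 + (t : ℂ) * I) - D.P) ^ D.p - D.Zs (1 / 2 + t * I) * DP N a (1 / 2 + t * I) =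
      ((1 / 2 + (t : ℂ) * I) - D.P) ^ D.p *
        (1 - D.Zs (1 / 2 + t * I) / ((1 / 2 + (t : ℂ) * I) - D.P) ^ D.p *
          DP N a (1 / 2 + t * I)) := by
    generalize ((1 / 2 + (t : ℂ) * I) - D.P) ^ D.p = q at h0' ⊢
    generalize D.Zs (1 / 2 + t * I) = Z
    generalize DP N a (1 / 2 + t * I) = P
    field_simp
  have h3 : ‖(1 / 2 + (t : ℂ) * I) - (1 - D.P)‖ = ‖(1 / 2 + (t : ℂ) * I) - D.P‖ := by
    have e1 : (1 / 2 + (t : ℂ) * I) - (1 - D.P) = ((D.P - 1 / 2 : ℝ) : ℂ) + (t : ℝ) * I := by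
      push_cast; ring
    have e2 : (1 / 2 + (t : ℂ) * I) - D.P = ((-(D.P - 1 / 2) : ℝ) : ℂ) + (t : ℝ) * I := by
      push_cast; ring
    rw [e1, e2, Complex.norm_add_mul_I, Complex.norm_add_mul_I]
    congr 1
    ring
  have h4 : ‖(1 / 2 + (t : ℂ) * I) + (D.w - 1 / 2)‖ ^ 2 = D.w ^ 2 + t ^ 2 := by
    have e1 : (1 / 2 + (t : ℂ) * I) + (D.w - 1 / 2) = ((D.w : ℝ) : ℂ) + (t : ℝ) * I := by
      ring
    rw [e1, Complex.norm_add_mul_I, Real.sq_sqrt (by positivity)]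
  have hp : 0 < D.w ^ 2 + t ^ 2 := by positivity
  have h5 : ‖(1 / 2 + (t : ℂ) * I) - D.P‖ ≠ 0 := norm_ne_zero_iff.2 h0
  have h6 : ‖(1 / 2 + (t : ℂ) * I) - D.P‖ ^ D.p ≠ 0 := pow_ne_zero _ h5
  rw [h2, norm_div, norm_mul, norm_mul, norm_pow, norm_pow, h3, mul_div_mul_left _ _ h6, div_pow,
    h4]

/-- the growth of the function `G0` -/
lemma G0_growth {D : Dat} (hb : Base D) {q : ℝ} (hq0 : 0 < q) (hq4 : q ≤ 1 / 4)
    (hq : 2 * q ≤ D.P - 1 / 2) {Cz : ℝ} {kz : ℕ} (hCz : 0 < Cz)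
    (hz : ∀ s : ℂ, 1 / 4 ≤ s.re → ‖D.Zs s‖ ≤ Cz * (1 + ‖s‖) ^ kz) (N : ℕ) (a : ℕ → ℂ) {k : ℕ}
    {M : ℝ} (hM : 0 ≤ M) {s : ℂ} (hs : 1 / 2 - q ≤ s.re) (hD : ‖DP N a s‖ ≤ M * (1 + ‖s‖) ^ k) :
    ‖G0 D N a s‖ ≤ ((q ^ D.p)⁻¹ * 4) * (1 + Cz * M) * (1 + ‖s‖) ^ (kz + k + D.p) := by
  have h1 := den1 hq hs
  have h2 := den2 hb hq4 hs
  have hx : 1 ≤ 1 + ‖s‖ := by linarith [norm_nonneg s]
  have h4 : ‖s - D.P‖ ≤ 1 + ‖s‖ := by
    have h41 := norm_sub_le s (D.P : ℂ)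
    rw [Complex.norm_real, Real.norm_of_nonneg (by linarith [hb.hP])] at h41
    linarith [hb.hP1]
  have hqp : 0 < q ^ D.p := by positivity
  have h5 : q ^ D.p * (1 / 4) ≤ ‖s - (1 - D.P)‖ ^ D.p * ‖s + (D.w - 1 / 2)‖ := by gcongr
  have h6 : 0 < ‖s - (1 - D.P)‖ ^ D.p * ‖s + (D.w - 1 / 2)‖ := lt_of_lt_of_le (by positivity) h5
  unfold G0
  rw [norm_div, norm_mul, norm_pow, div_le_iff₀ h6]
  have h7 : ‖(s - D.P) ^ D.p - D.Zs s * DP N a s‖ ≤ (1 + Cz * M) * (1 + ‖s‖) ^ (kz + k + D.p) := by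
    calc ‖(s - D.P) ^ D.p - D.Zs s * DP N a s‖ ≤ ‖(s - D.P) ^ D.p‖ + ‖D.Zs s * DP N a s‖ :=
          norm_sub_le _ _
      _ = ‖s - D.P‖ ^ D.p + ‖D.Zs s‖ * ‖DP N a s‖ := by rw [norm_mul, norm_pow]
      _ ≤ (1 + ‖s‖) ^ D.p + (Cz * (1 + ‖s‖) ^ kz) * (M * (1 + ‖s‖) ^ k) := by
          have := hz s (by linarith)
          gcongr
      _ = 1 * (1 + ‖s‖) ^ D.p + Cz * M * (1 + ‖s‖) ^ (kz + k) := by ring
      _ ≤ 1 * (1 + ‖s‖) ^ (kz + k + D.p) + Cz * M * (1 + ‖s‖) ^ (kz + k + D.p) := by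
          have e1 : (1 + ‖s‖) ^ D.p ≤ (1 + ‖s‖) ^ (kz + k + D.p) :=
            pow_le_pow_right₀ hx (by omega)
          have e2 : (1 + ‖s‖) ^ (kz + k) ≤ (1 + ‖s‖) ^ (kz + k + D.p) :=
            pow_le_pow_right₀ hx (by omega)
          have e3 : 0 ≤ Cz * M := by positivity
          exact add_le_add (mul_le_mul_of_nonneg_left e1 zero_le_one)
            (mul_le_mul_of_nonneg_left e2 e3)
      _ = _ := by ring
  have h8 : 0 ≤ (1 + Cz * M) * (1 + ‖s‖) ^ (kz + k + D.p) := by positivity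
  calc ‖(s - D.P) ^ D.p - D.Zs s * DP N a s‖ ≤ (1 + Cz * M) * (1 + ‖s‖) ^ (kz + k + D.p) := h7
    _ = ((q ^ D.p)⁻¹ * 4) * ((1 + Cz * M) * (1 + ‖s‖) ^ (kz + k + D.p)) *
          (q ^ D.p * (1 / 4)) := by
        field_simp
    _ ≤ ((q ^ D.p)⁻¹ * 4) * ((1 + Cz * M) * (1 + ‖s‖) ^ (kz + k + D.p)) *
          (‖s - (1 - D.P)‖ ^ D.p * ‖s + (D.w - 1 / 2)‖) := by
        gcongr
    _ = _ := by ring

/-! ### the weight -/

lemma gw_norm2 {c0 : ℝ} (hc : 1 ≤ c0) (K : ℕ) {s : ℂ} (hs : 1 / 4 ≤ s.re) :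
    ‖gw c0 K s‖ ≤ (4 * c0) ^ K * ((1 + ‖s‖) ^ K)⁻¹ := by
  have h1 := (le_abs_self _).trans (Complex.abs_re_le_norm ((c0 : ℂ) + (s - 1 / 2)))
  have h2 := Complex.abs_im_le_norm ((c0 : ℂ) + (s - 1 / 2))
  have h3 : ((c0 : ℂ) + (s - 1 / 2)).re = c0 + (s.re - 1 / 2) := by simp
  have h4 : ((c0 : ℂ) + (s - 1 / 2)).im = s.im := by simp
  rw [h3] at h1
  rw [h4] at h2
  have h5 := Complex.norm_le_abs_re_add_abs_im s
  rw [abs_of_pos (show 0 < s.re by linarith)] at h5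
  have h6 : (1 + ‖s‖) / 4 ≤ ‖(c0 : ℂ) + (s - 1 / 2)‖ := by linarith
  have h0 : 0 < 1 + ‖s‖ := by positivity
  have hc0 : 0 ≤ c0 := by linarith
  rw [gw, norm_pow, ← div_eq_mul_inv, ← div_pow, norm_div, Complex.norm_real,
    Real.norm_of_nonneg hc0]
  refine pow_le_pow_left₀ (by positivity) ?_ K
  calc c0 / ‖(c0 : ℂ) + (s - 1 / 2)‖ ≤ c0 / ((1 + ‖s‖) / 4) := by gcongr
    _ = _ := by field_simp

/-- the integrand -/
noncomputable def FF (D : Dat) (N : ℕ) (a : ℕ → ℂ) (c0 : ℝ) (K : ℕ) (s : ℂ) : ℂ :=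
  G0 D N a s * gw c0 K s

lemma FF_diff {D : Dat} (hb : Base D) {q : ℝ} (hq0 : 0 < q) (hq4 : q ≤ 1 / 4)
    (hq : 2 * q ≤ D.P - 1 / 2) (N : ℕ) (a : ℕ → ℂ) {c0 : ℝ} (hc : 1 ≤ c0) (K : ℕ) {s : ℂ}
    (hs : 1 / 2 - q ≤ s.re) : DifferentiableAt ℂ (FF D N a c0 K) s :=
  (G0_diff hb hq0 hq4 hq N a hs).mul (gw_diff hc K (by linarith))

lemma sq_dc (s : ℂ) : ((1 + ‖s‖) ^ 2)⁻¹ ≤ dc s.im := by
  rw [dc_eq]
  have := Complex.abs_im_le_norm s
  gcongr

/-- the decay of the integrand -/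
lemma FF_decay (D : Dat) (N : ℕ) (a : ℕ → ℂ) {c0 : ℝ} (hc : 1 ≤ c0) {m : ℕ} {B : ℝ} (hB : 0 ≤ B)
    {s : ℂ} (hs : 1 / 4 ≤ s.re) (h : ‖G0 D N a s‖ ≤ B * (1 + ‖s‖) ^ m) :
    ‖FF D N a c0 (m + 2) s‖ ≤ (B * (4 * c0) ^ (m + 2)) * ((1 + ‖s‖) ^ 2)⁻¹ := by
  have h0 : 0 < 1 + ‖s‖ := by positivity
  have h1 := gw_norm2 hc (m + 2) hs
  rw [FF, norm_mul]
  calc ‖G0 D N a s‖ * ‖gw c0 (m + 2) s‖ ≤ (B * (1 + ‖s‖) ^ m) *
        ((4 * c0) ^ (m + 2) * ((1 + ‖s‖) ^ (m + 2))⁻¹) :=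
        mul_le_mul h h1 (norm_nonneg _) (by positivity)
    _ = _ := by
        rw [pow_add (1 + ‖s‖) m 2]
        field_simp

/-! ### the zeros -/

lemma deriv_zero {D : Dat} (hb : Base D) {q : ℝ} (hq0 : 0 < q) (hq4 : q ≤ 1 / 4)
    (hq : 2 * q ≤ D.P - 1 / 2) (N : ℕ) (a : ℕ → ℂ) {c0 : ℝ} (hc : 1 ≤ c0) (K : ℕ)
    {ρ : ℂ} (hρ : D.IsZ ρ) {k : ℕ} (hk : k < D.mu ρ) :
    iteratedDeriv k (FF D N a c0 K) ρ =
      iteratedDeriv k (fun s => D.bl s * gw c0 K s) ρ := by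
  have hre : 1 / 2 - q < ρ.re := by rw [hρ.2]; linarith
  have hop : IsOpen {z : ℂ | 1 / 2 - q < z.re} := isOpen_lt continuous_const Complex.continuous_re
  have han : ∀ {f : ℂ → ℂ}, (∀ s : ℂ, 1 / 2 - q ≤ s.re → DifferentiableAt ℂ f s) →
      AnalyticAt ℂ f ρ := by
    intro f hf
    refine (DifferentiableOn.analyticOnNhd (fun z hz => ?_) hop) ρ hre
    have hz' : 1 / 2 - q < z.re := hz
    exact (hf z hz'.le).differentiableWithinAt
  set E : ℂ → ℂ := fun s => D.bl s * gw c0 K s with hE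
  set W : ℂ → ℂ := fun s => DP N a s / ((s - (1 - D.P)) ^ D.p * (s + (D.w - 1 / 2))) * gw c0 K s
    with hW
  have hEd : ∀ s : ℂ, 1 / 2 - q ≤ s.re → DifferentiableAt ℂ E s := by
    intro s hs
    have h1 : DifferentiableAt ℂ (gw c0 K) s := gw_diff hc K (by linarith)
    have h2 : DifferentiableAt ℂ D.bl s := by
      unfold Dat.bl
      exact DifferentiableAt.div (by fun_prop) (by fun_prop) (den_ne hb hq0 hq4 hq hs)
    exact h2.mul h1
  have hWd : ∀ s : ℂ, 1 / 2 - q ≤ s.re → DifferentiableAt ℂ W s := by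
    intro s hs
    have h1 : DifferentiableAt ℂ (gw c0 K) s := gw_diff hc K (by linarith)
    have h3 : DifferentiableAt ℂ (DP N a) s := DP_differentiable N a s
    have h2 : DifferentiableAt ℂ
        (fun s : ℂ => DP N a s / ((s - (1 - D.P)) ^ D.p * (s + (D.w - 1 / 2)))) s :=
      DifferentiableAt.div (by fun_prop) (by fun_prop) (den_ne hb hq0 hq4 hq hs)
    exact h2.mul h1
  have hFd : AnalyticAt ℂ (FF D N a c0 K) ρ := han fun s hs => FF_diff hb hq0 hq4 hq N a hc K hs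
  have hEq : (fun s => E s - FF D N a c0 K s) = D.Zs * W := by
    ext s
    rw [Pi.mul_apply, hE, hW, FF, G0]
    simp only [Dat.bl]
    ring
  have hζ : AnalyticAt ℂ D.Zs ρ := han fun s hs => hb.diff s (by linarith)
  have hord : (D.mu ρ : ℕ∞) ≤ analyticOrderAt (fun s => E s - FF D N a c0 K s) ρ := by
    rw [hEq, analyticOrderAt_mul hζ (han hWd)]
    refine le_trans ?_ le_self_add
    exact ENat.natCast_toNat_le_self _
  have hsub : AnalyticAt ℂ (fun s => E s - FF D N a c0 K s) ρ := (han hEd).sub hFd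
  have h1 := (natCast_le_analyticOrderAt_iff_iteratedDeriv_eq_zero hsub).1 hord k hk
  have h2 : iteratedDeriv k (fun s => E s - FF D N a c0 K s) ρ =
      iteratedDeriv k E ρ - iteratedDeriv k (FF D N a c0 K) ρ := by
    have := iteratedDeriv_sub (n := k) (x := ρ) (han hEd).contDiffAt hFd.contDiffAt
    exact this
  rw [h2] at h1
  exact (sub_eq_zero.1 h1).symm

end Pool.Agent.N967.H.Jj

namespace Pool.Agent.N967.H

open Complex MeasureTheory Filter Topology Set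
open Pool.Agent.N967.JjAux hiding FF G0 FF_diff G0_diff G0_line deriv_zero JJ_neg JJ_pos half_props
  JJ_planch mom_int iter_line inversion

open Pool.Agent.N967.H.Jj in
/-- the inverse Laplace transform of the error -/
theorem jj {D : Dat} (h : Rp D) (hg : S_grow D) (hi : S_int D) (hs : Pool.Agent.N967.S_shift) :
    S_jj D := by
  have hb := h.base
  have hPP := hb.hP
  set q : ℝ := min (1 / 4) ((D.P - 1 / 2) / 2) with hqdef
  have hq0 : 0 < q := lt_min (by norm_num) (by linarith)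
  have hq4 : q ≤ 1 / 4 := min_le_left _ _
  have hq : 2 * q ≤ D.P - 1 / 2 := by
    have := min_le_right (1 / 4 : ℝ) ((D.P - 1 / 2) / 2)
    linarith
  refine ⟨q, hq0, hq4, fun δ hδ hδ' => ?_⟩
  obtain ⟨Cz, kz, hCz, hz⟩ := hb.growth
  obtain ⟨Cg, k, hCg, hgr⟩ := hg δ hδ (by linarith)
  set m := kz + k + D.p with hm
  refine ⟨m + 2, fun c0 hc => ?_⟩
  have hc0 : 0 < c0 := by linarith
  have hdc : 0 < ∫ y, dc y := by
    rw [integral_pos_iff_support_of_nonneg (fun y => (dc_pos y).le) dc_int]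
    have : Function.support dc = univ := by
      ext y
      simp [(dc_pos y).ne']
    rw [this]
    simp
  set A : ℝ := (q ^ D.p)⁻¹ * 4 with hA
  have hA0 : 0 < A := by positivity
  set C : ℝ := A * (1 + Cz * Cg) * (4 * c0) ^ (m + 2) with hC
  have hC0 : 0 < C := by positivity
  refine ⟨C * ∫ y, dc y, by positivity, fun N a hN he => ?_⟩
  -- the bound for all `s`
  set M := ∑ n ∈ Finset.Icc 1 N, ‖a n‖ with hM
  have hM0 : 0 ≤ M := Finset.sum_nonneg fun n _ => norm_nonneg _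
  have hall : ∀ s : ℂ, 1 / 2 - q ≤ s.re → ‖FF D N a c0 (m + 2) s‖ ≤
      (A * (1 + Cz * M) * (4 * c0) ^ (m + 2)) * ((1 + ‖s‖) ^ 2)⁻¹ := by
    intro s hs'
    refine FF_decay D N a hc (by positivity) (by linarith) ?_
    refine G0_growth hb hq0 hq4 hq hCz hz N a hM0 hs' ?_
    refine (DP_norm_le N a (by linarith)).trans ?_
    exact le_mul_of_one_le_right hM0 (one_le_pow₀ (by linarith [norm_nonneg s]))
  set B := A * (1 + Cz * M) * (4 * c0) ^ (m + 2) with hBdef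
  have hB0 : 0 ≤ B := by positivity
  have hB : ∀ z : ℂ, 1 / 2 - q ≤ z.re → ‖FF D N a c0 (m + 2) z‖ ≤ B * dc z.im := fun z hz' =>
    (hall z hz').trans (mul_le_mul_of_nonneg_left (sq_dc z) hB0)
  -- the bound on the line
  have hCb : ∀ z : ℂ, z.re = 1 / 2 - q → ‖FF D N a c0 (m + 2) z‖ ≤
      (C * (N : ℝ) ^ (q + δ)) * dc z.im := by
    intro z hz'
    have hN1 : (1:ℝ) ≤ N := by exact_mod_cast (by omega : 1 ≤ N)
    have h1 := hgr N a (by omega) he z (by rw [hz']; linarith)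
    have e1 : (1:ℝ) / 2 + δ - z.re = q + δ := by rw [hz']; ring
    rw [e1] at h1
    set Q := (N : ℝ) ^ (q + δ) with hQ
    have hQ1 : 1 ≤ Q := Real.one_le_rpow hN1 (by linarith)
    have h2 := G0_growth hb hq0 hq4 hq hCz hz N a (k := k) (M := Cg * Q) (by positivity) (s := z)
      (by rw [hz']) (by
        refine h1.trans (le_of_eq ?_)
        ring)
    have h3 : ‖G0 D N a z‖ ≤ (A * (1 + Cz * Cg) * Q) * (1 + ‖z‖) ^ m := by
      refine h2.trans ?_
      have h4 : 1 + Cz * (Cg * Q) ≤ (1 + Cz * Cg) * Q := by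
        nlinarith [mul_pos hCz hCg]
      calc A * (1 + Cz * (Cg * Q)) * (1 + ‖z‖) ^ m
          ≤ A * ((1 + Cz * Cg) * Q) * (1 + ‖z‖) ^ m := by gcongr
        _ = _ := by ring
    have h5 := FF_decay D N a hc (m := m) (by positivity) (s := z) (by rw [hz']; linarith) h3
    calc ‖FF D N a c0 (m + 2) z‖ ≤ _ := h5
      _ ≤ (A * (1 + Cz * Cg) * Q * (4 * c0) ^ (m + 2)) * dc z.im :=
          mul_le_mul_of_nonneg_left (sq_dc z) (by positivity)
      _ = _ := by rw [hC]; ring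
  have hd : ∀ z : ℂ, 1 / 2 - q ≤ z.re → DifferentiableAt ℂ (FF D N a c0 (m + 2)) z :=
    fun z hz' => FF_diff hb hq0 hq4 hq N a hc (m + 2) hz'
  have hlim : ∀ y : ℝ, Tendsto (fun b : ℝ => FF D N a c0 (m + 2) (b + y * I)) atTop (𝓝 0) := by
    intro y
    rw [tendsto_zero_iff_norm_tendsto_zero]
    have h1 : Tendsto (fun b : ℝ => B * (b⁻¹)) atTop (𝓝 0) := by
      simpa using tendsto_inv_atTop_zero.const_mul B
    refine squeeze_zero' (Eventually.of_forall fun b => norm_nonneg _) ?_ h1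
    filter_upwards [eventually_ge_atTop 1] with b hb'
    have hb0 : 0 < b := by linarith
    have h2 := hall (b + y * I) (by simp; linarith)
    refine h2.trans (mul_le_mul_of_nonneg_left ?_ hB0)
    have h3 : b ≤ ‖(b : ℂ) + y * I‖ := by
      have := (le_abs_self _).trans (Complex.abs_re_le_norm ((b : ℂ) + y * I))
      simpa using this
    refine inv_anti₀ hb0 ?_
    nlinarith
  have hneg : ∀ v, v ≤ 0 → JJ (FF D N a c0 (m + 2)) v = 0 := fun v hv =>
    JJ_neg hs hq0 hB0 hd hB hlim hv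
  have hpos : ∀ v, 0 ≤ v → ‖JJ (FF D N a c0 (m + 2)) v‖ ≤
      ((C * (N : ℝ) ^ (q + δ)) * ∫ y, dc y) * Real.exp (-(q * v)) := fun v hv =>
    JJ_pos hs hq0 hB0 hd hB hCb hv
  obtain ⟨h1, h2, h3⟩ := JJ_planch hq0 hd hB
  refine ⟨JJ (FF D N a c0 (m + 2)), h1.measurable, hneg, fun v hv => ?_, h2, ?_,
    fun ρ hρ k hk => ?_⟩
  · calc ‖JJ (FF D N a c0 (m + 2)) v‖ ≤ _ := hpos v hv
      _ = _ := by ring
  · rw [h3, Dat.err]
    refine mul_le_mul_of_nonneg_left ?_ (by positivity)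
    refine integral_mono_of_nonneg (Eventually.of_forall fun t => by positivity) (hi N a)
      (Eventually.of_forall fun t => ?_)
    simp only
    rw [FF, norm_mul, mul_pow, G0_line hb]
    have h4 : ‖gw c0 (m + 2) (1 / 2 + t * I)‖ ^ 2 ≤ 1 :=
      pow_le_one₀ (norm_nonneg _) (gw_half hc (m + 2) t)
    have h5 : 0 ≤ D.ig N a t := by unfold Dat.ig; positivity
    exact mul_le_of_le_one_right h5 h4
  · have h5 : ρ = 1 / 2 + (ρ.im : ℂ) * I := by
      apply Complex.ext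
      · simp [hρ.2]
      · simp
    rw [inversion hq0 hd hB hneg hpos k ρ.im, ← h5]
    exact deriv_zero hb hq0 hq4 hq N a hc (m + 2) hρ hk

end Pool.Agent.N967.H
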