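import Pool.Agent.N967.H.Stm
import Pool.Agent.N967.Low3

set_option autoImplicit false

/-!
# Burnol's lower bound with multiplicities, decay exponent `q`
-/

open Pool.Agent.N967.G (KR KerB S_real S_opt S_kern S_kerL S_sh S_lf)

namespace Pool.Agent.N967.H

open Complex MeasureTheory Filter Topology
open Pool.Agent.Y23 (Lg)

namespace Low3

open Pool.Agent.N967.L3

/-- integrability of the functions in the pairing -/
lemma J_intq {q : ℝ} (hq : 0 < q) {J : ℝ → ℂ} {B : ℝ} (hJm : Measurable J) (hJ0 : ∀ v, v ≤ 0 → J v = 0)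
    (hJ1 : ∀ v, 0 ≤ v → ‖J v‖ ≤ B * Real.exp (-(q * v))) (k : ℕ) (g : ℝ) :
    Integrable (fun v : ℝ => ((-v : ℝ) : ℂ) ^ k * J v * Complex.exp (-(v * g : ℝ) * I)) := by
  have hB : 0 ≤ B := by
    have := (norm_nonneg _).trans (hJ1 0 le_rfl)
    simpa using this
  have hmaj : Integrable (Set.indicator (Set.Ioi (0 : ℝ)) fun v : ℝ => B * (k.factorial / (q / 2) ^ k) *
      Real.exp (-(q / 2) * v)) := by
    rw [integrable_indicator_iff measurableSet_Ioi]
    exact (exp_neg_integrableOn_Ioi 0 (by linarith : (0 : ℝ) < q / 2)).const_mul _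
  refine hmaj.mono' ?_ (Eventually.of_forall fun v => ?_)
  · have h1 : Measurable (fun v : ℝ => ((-v : ℝ) : ℂ) ^ k) := by fun_prop
    exact ((h1.mul hJm).mul (cont_e g).measurable).aestronglyMeasurable
  · rw [norm_mul, norm_e, mul_one, norm_mul, norm_pow, Complex.norm_real, Real.norm_eq_abs, abs_neg]
    by_cases hv : v ≤ 0
    · rw [hJ0 v hv, norm_zero, mul_zero]
      refine Set.indicator_nonneg (fun x _ => ?_) v
      positivity
    · push Not at hv
      rw [Set.indicator_of_mem (show v ∈ Set.Ioi (0 : ℝ) from hv), abs_of_pos hv]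
      have h1 := Real.pow_div_factorial_le_exp (q / 2 * v) (by positivity) k
      rw [mul_pow, div_le_iff₀ (by positivity)] at h1
      have h2 := hJ1 v hv.le
      have h3 : v ^ k ≤ (k.factorial / (q / 2) ^ k) * Real.exp (q / 2 * v) := by
        rw [div_mul_eq_mul_div, le_div_iff₀ (by positivity)]
        nlinarith
      calc v ^ k * ‖J v‖ ≤ ((k.factorial / (q / 2) ^ k) * Real.exp (q / 2 * v)) * (B * Real.exp (-(q * v))) := by
            gcongr
        _ = B * (k.factorial / (q / 2) ^ k) * (Real.exp (q / 2 * v) * Real.exp (-(q * v))) := by ring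
        _ = _ := by
            rw [← Real.exp_add]
            congr 2
            ring

/-- the pairing -/
lemma pairq {ι : Type*} (S : Finset ι) (h : ι → Polynomial ℝ) (β : ι → ℂ) (g : ι → ℝ) (m : ι → ℕ)
    (hm : ∀ s ∈ S, (h s).natDegree < m s) (D : ι → ℕ → ℂ) {l : ℝ}
    {q : ℝ} (hq : 0 < q) {J : ℝ → ℂ} {B : ℝ} (hJm : Measurable J) (hJ0 : ∀ v, v ≤ 0 → J v = 0)
    (hJ1 : ∀ v, 0 ≤ v → ‖J v‖ ≤ B * Real.exp (-(q * v)))
    (hD : ∀ s ∈ S, ∀ k < m s, ∫ v : ℝ, ((-v : ℝ) : ℂ) ^ k * J v * Complex.exp (-(v * g s : ℝ) * I) = D s k) :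
    Integrable (fun v : ℝ => PP S h β g l v * J v) ∧
    ∫ v : ℝ, PP S h β g l v * J v =
      ∑ s ∈ S, ∑ k ∈ Finset.range (m s), β s * (((h s).coeff k : ℝ) * (-(1 / l : ℝ)) ^ k) * D s k := by
  have e1 : ∀ v : ℝ, PP S h β g l v * J v = ∑ s ∈ S, ∑ k ∈ Finset.range (m s),
      (β s * (((h s).coeff k : ℝ) * (-(1 / l : ℝ)) ^ k)) *
        (((-v : ℝ) : ℂ) ^ k * J v * Complex.exp (-(v * g s : ℝ) * I)) := by
    intro v
    unfold PP
    rw [Finset.sum_mul]
    refine Finset.sum_congr rfl fun s hs => ?_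
    rw [Polynomial.eval_eq_sum_range' (hm s hs), Complex.ofReal_sum, Finset.sum_mul, Finset.mul_sum,
      Finset.sum_mul]
    refine Finset.sum_congr rfl fun k _ => ?_
    have e2 : (((h s).coeff k * (v / l) ^ k : ℝ) : ℂ) =
        ((h s).coeff k : ℝ) * (-((1 / l : ℝ) : ℂ)) ^ k * ((-v : ℝ) : ℂ) ^ k := by
      rw [mul_assoc, ← mul_pow]
      push_cast
      congr 2
      ring
    rw [e2]
    ring
  have hint : ∀ s ∈ S, ∀ k ∈ Finset.range (m s), Integrable (fun v : ℝ =>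
      (β s * (((h s).coeff k : ℝ) * (-(1 / l : ℝ)) ^ k)) *
        (((-v : ℝ) : ℂ) ^ k * J v * Complex.exp (-(v * g s : ℝ) * I))) := by
    intro s _ k _
    exact (J_intq hq hJm hJ0 hJ1 k (g s)).const_mul _
  have hint2 : ∀ s ∈ S, Integrable (fun v : ℝ => ∑ k ∈ Finset.range (m s),
      (β s * (((h s).coeff k : ℝ) * (-(1 / l : ℝ)) ^ k)) *
        (((-v : ℝ) : ℂ) ^ k * J v * Complex.exp (-(v * g s : ℝ) * I))) := fun s hs =>
    integrable_finsetSum _ (hint s hs)
  simp_rw [e1]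
  refine ⟨integrable_finsetSum _ hint2, ?_⟩
  rw [integral_finsetSum _ hint2]
  refine Finset.sum_congr rfl fun s hs => ?_
  rw [integral_finsetSum _ (hint s hs)]
  refine Finset.sum_congr rfl fun k hk => ?_
  rw [integral_const_mul, hD s hs k (Finset.mem_range.1 hk)]


/-- the main inequality -/
lemma coreq {q : ℝ} (hq : 0 < q) {ι : Type*} [DecidableEq ι] (S : Finset ι) (h : ι → Polynomial ℝ) (g : ι → ℝ) (m : ι → ℕ) (c : ι → ℝ)
    (D : ι → ℕ → ℂ) (hg : ∀ s ∈ S, ∀ r ∈ S, s ≠ r → g s ≠ g r)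
    (hm0 : ∀ s ∈ S, 1 ≤ m s) (hm : ∀ s ∈ S, (h s).natDegree < m s) (hc0 : ∀ s ∈ S, (h s).eval 0 = c s)
    (hc1 : ∀ s ∈ S, ∫ u in (0 : ℝ)..1, (h s).eval u * (h s).eval u = c s) {η : ℝ} (hη : 0 < η) (hη1 : η ≤ q / 2) :
    ∃ E : ℝ, 0 ≤ E ∧ ∀ (l B e : ℝ) (J : ℝ → ℂ), 1 ≤ l → Measurable J → (∀ v, v ≤ 0 → J v = 0) →
      (∀ v, 0 ≤ v → ‖J v‖ ≤ B * Real.exp (-(q * v))) → Integrable (fun v => ‖J v‖ ^ 2) → ∫ v : ℝ, ‖J v‖ ^ 2 ≤ e →
      (∀ s ∈ S, ∀ k < m s, ∫ v : ℝ, ((-v : ℝ) : ℂ) ^ k * J v * Complex.exp (-(v * g s : ℝ) * I) = D s k) →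
      ∑ s ∈ S, ‖D s 0‖ ^ 2 * c s ≤ l * e + E / l + E * B * Real.exp (-(q - η) * l) := by
  set β : ι → ℂ := fun s => (starRingEnd ℂ) (D s 0) with hβ
  have hβn : ∀ s, ‖β s‖ = ‖D s 0‖ := fun s => by rw [hβ]; exact RCLike.norm_conj _
  obtain ⟨C3, hC30, hC3⟩ := ms S h β g hg
  obtain ⟨C, hC0, hC⟩ := PP_exp S h β g hη
  set R : ℝ := ∑ s ∈ S, ∑ k ∈ Finset.range (m s), ‖β s‖ * |(h s).coeff k| * ‖D s k‖ with hR
  have hR0 : 0 ≤ R := Finset.sum_nonneg fun s _ => Finset.sum_nonneg fun k _ => by positivity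
  set A : ℝ := ∑ s ∈ S, ‖D s 0‖ ^ 2 * c s with hA
  refine ⟨C3 + 2 * R + 2 * (2 / q) * C, by positivity, ?_⟩
  intro l B e J hl hJm hJ0 hJ1 hJ2 hJe hD
  have hl0 : 0 < l := by linarith
  have hB : 0 ≤ B := by
    have := (norm_nonneg _).trans (hJ1 0 le_rfl)
    simpa using this
  obtain ⟨hPJ, hQ⟩ := pairq S h β g m hm D (l := l) hq hJm hJ0 hJ1 hD
  have hA' : (∑ s ∈ S, ‖β s‖ ^ 2 * ∫ u in (0 : ℝ)..1, (h s).eval u * (h s).eval u) = A := by
    refine Finset.sum_congr rfl fun s hs => ?_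
    rw [hβn, hc1 s hs]
  -- the main term
  have h1 : ‖(∫ v : ℝ, PP S h β g l v * J v) - (A : ℂ)‖ ≤ R / l := by
    rw [hQ, hA, Complex.ofReal_sum, ← Finset.sum_sub_distrib, hR, Finset.sum_div]
    refine (norm_sum_le _ _).trans (Finset.sum_le_sum fun s hs => ?_)
    have h0 : (0 : ℕ) ∈ Finset.range (m s) := Finset.mem_range.2 (hm0 s hs)
    have e1 : ((‖D s 0‖ ^ 2 * c s : ℝ) : ℂ) =
        β s * (((h s).coeff 0 : ℝ) * (-(1 / l : ℝ)) ^ 0) * D s 0 := by
      rw [Polynomial.coeff_zero_eq_eval_zero, hc0 s hs, pow_zero, mul_one]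
      have e2 : ((‖D s 0‖ ^ 2 : ℝ) : ℂ) = (starRingEnd ℂ) (D s 0) * D s 0 := by
        rw [mul_comm, Complex.mul_conj, Complex.normSq_eq_norm_sq]
      rw [Complex.ofReal_mul, e2, hβ]
      ring
    rw [e1, ← Finset.sum_erase_eq_sub h0]
    refine (norm_sum_le _ _).trans ?_
    refine (Finset.sum_le_sum (g := fun k => ‖β s‖ * |(h s).coeff k| * ‖D s k‖ / l) fun k hk => ?_).trans ?_
    · have hk0 : k ≠ 0 := Finset.ne_of_mem_erase hk
      have e3 : ‖(-((1 / l : ℝ) : ℂ)) ^ k‖ ≤ 1 / l := by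
        rw [norm_pow, norm_neg, Complex.norm_real, Real.norm_eq_abs, abs_of_pos (by positivity)]
        exact pow_le_of_le_one (by positivity) ((div_le_one hl0).2 hl) hk0
      rw [norm_mul, norm_mul, norm_mul, Complex.norm_real, Real.norm_eq_abs]
      calc ‖β s‖ * (|(h s).coeff k| * ‖(-((1 / l : ℝ) : ℂ)) ^ k‖) * ‖D s k‖
          ≤ ‖β s‖ * (|(h s).coeff k| * (1 / l)) * ‖D s k‖ := by gcongr
        _ = _ := by ring
    · rw [Finset.sum_div]
      exact Finset.sum_le_sum_of_subset_of_nonneg (Finset.erase_subset _ _) fun k _ _ => by positivity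
  have h2 : A - R / l ≤ ∫ v : ℝ, ‖PP S h β g l v * J v‖ := by
    have e1 : ‖(A : ℂ)‖ ≤ ‖∫ v : ℝ, PP S h β g l v * J v‖ +
        ‖(∫ v : ℝ, PP S h β g l v * J v) - (A : ℂ)‖ := by
      have := norm_sub_le (∫ v : ℝ, PP S h β g l v * J v) ((∫ v : ℝ, PP S h β g l v * J v) - (A : ℂ))
      rwa [sub_sub_cancel] at this
    have e2 : A ≤ ‖(A : ℂ)‖ := by rw [Complex.norm_real]; exact le_abs_self A
    have e3 := norm_integral_le_integral_norm (μ := volume) (fun v : ℝ => PP S h β g l v * J v)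
    linarith
  -- the pointwise bound
  set F1 : ℝ → ℝ := Set.indicator (Set.Ioc 0 l) fun v => 1 / (2 * l) * ‖PP S h β g l v‖ ^ 2 with hF1
  set F2 : ℝ → ℝ := fun v => l / 2 * ‖J v‖ ^ 2 with hF2
  set F3 : ℝ → ℝ := Set.indicator (Set.Ioi l) fun v => C * B * Real.exp (-(q - η) * v) with hF3
  have hη2 : 0 < q - η := by linarith
  have i1 : Integrable F1 := by
    rw [hF1, integrable_indicator_iff measurableSet_Ioc]
    have := (PP_cont S h β g l)
    have hc : Continuous fun v => 1 / (2 * l) * ‖PP S h β g l v‖ ^ 2 := by fun_prop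
    exact hc.integrableOn_Ioc
  have i2 : Integrable F2 := hJ2.const_mul _
  have i3 : Integrable F3 := by
    rw [hF3, integrable_indicator_iff measurableSet_Ioi]
    exact (exp_neg_integrableOn_Ioi l hη2).const_mul _
  have hpt : ∀ v : ℝ, ‖PP S h β g l v * J v‖ ≤ F1 v + F2 v + F3 v := by
    intro v
    have n1 : 0 ≤ F1 v := Set.indicator_nonneg (fun x _ => by positivity) v
    have n2 : 0 ≤ F2 v := by simp only [hF2]; positivity
    have n3 : 0 ≤ F3 v := Set.indicator_nonneg (fun x _ => by positivity) v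
    by_cases hv : v ≤ 0
    · rw [hJ0 v hv, mul_zero, norm_zero]; positivity
    push Not at hv
    by_cases hvl : v ≤ l
    · have e1 : F1 v = 1 / (2 * l) * ‖PP S h β g l v‖ ^ 2 := Set.indicator_of_mem (show v ∈ Set.Ioc 0 l from ⟨hv, hvl⟩) _
      have e2 : ‖PP S h β g l v * J v‖ ≤ F1 v + F2 v := by
        rw [e1, norm_mul]
        simp only [hF2]
        have e3 : 0 ≤ (‖PP S h β g l v‖ - l * ‖J v‖) ^ 2 / (2 * l) := by positivity
        have e4 : (‖PP S h β g l v‖ - l * ‖J v‖) ^ 2 / (2 * l) =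
            1 / (2 * l) * ‖PP S h β g l v‖ ^ 2 + l / 2 * ‖J v‖ ^ 2 - ‖PP S h β g l v‖ * ‖J v‖ := by
          field_simp
          ring
        linarith
      linarith
    · push Not at hvl
      have e1 : F3 v = C * B * Real.exp (-(q - η) * v) := Set.indicator_of_mem (show v ∈ Set.Ioi l from hvl) _
      have e2 : ‖PP S h β g l v * J v‖ ≤ F3 v := by
        rw [e1, norm_mul]
        calc ‖PP S h β g l v‖ * ‖J v‖ ≤ (C * Real.exp (η * v)) * (B * Real.exp (-(q * v))) := by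
              have := hC l v hl hv.le
              have := hJ1 v hv.le
              gcongr
          _ = C * B * (Real.exp (η * v) * Real.exp (-(q * v))) := by ring
          _ = _ := by
              rw [← Real.exp_add]
              congr 2
              ring
      linarith
  have h3 : ∫ v : ℝ, ‖PP S h β g l v * J v‖ ≤ (∫ v, F1 v) + (∫ v, F2 v) + ∫ v, F3 v := by
    have i12 : Integrable (fun v => F1 v + F2 v) := i1.add i2
    rw [← integral_add i1 i2, ← integral_add i12 i3]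
    exact integral_mono hPJ.norm (i12.add i3) hpt
  have h4 : ∫ v, F1 v ≤ 1 / (2 * l) * (l * A + C3) := by
    rw [hF1, integral_indicator measurableSet_Ioc, integral_const_mul,
      ← intervalIntegral.integral_of_le hl0.le]
    refine mul_le_mul_of_nonneg_left ?_ (by positivity)
    have := hC3 l hl
    rwa [hA'] at this
  have h5 : ∫ v, F2 v ≤ l / 2 * e := by
    simp only [hF2]
    rw [integral_const_mul]
    exact mul_le_mul_of_nonneg_left hJe (by positivity)
  have h6 : ∫ v, F3 v ≤ 2 / q * C * B * Real.exp (-(q - η) * l) := by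
    rw [hF3, integral_indicator measurableSet_Ioi, integral_const_mul,
      integral_exp_mul_Ioi (by linarith : -(q - η) < 0) l]
    have e1 : -Real.exp (-(q - η) * l) / -(q - η) = Real.exp (-(q - η) * l) / (q - η) := by
      rw [neg_div_neg_eq]
    rw [e1]
    have e2 : Real.exp (-(q - η) * l) / (q - η) ≤ 2 / q * Real.exp (-(q - η) * l) := by
      have hk : 1 / (q - η) ≤ 2 / q := by
        rw [div_le_div_iff₀ hη2 hq]
        linarith
      calc Real.exp (-(q - η) * l) / (q - η) = 1 / (q - η) * Real.exp (-(q - η) * l) := by ring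
        _ ≤ 2 / q * Real.exp (-(q - η) * l) := mul_le_mul_of_nonneg_right hk (Real.exp_pos _).le
    calc C * B * (Real.exp (-(q - η) * l) / (q - η)) ≤ C * B * (2 / q * Real.exp (-(q - η) * l)) := by
          gcongr
      _ = _ := by ring
  have h7 : 1 / (2 * l) * (l * A + C3) = A / 2 + C3 / l / 2 := by
    field_simp
  have h8 : A ≤ l * e + (C3 / l + 2 * (R / l)) + 2 * (2 / q) * C * B * Real.exp (-(q - η) * l) := by
    rw [h7] at h4
    linarith
  have h9 : C3 / l + 2 * (R / l) ≤ (C3 + 2 * R + 2 * (2 / q) * C) / l := by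
    rw [add_div, add_div, mul_div_assoc]
    have : 0 ≤ 2 * (2 / q) * C / l := by positivity
    linarith
  have h10 : 2 * (2 / q) * C * B * Real.exp (-(q - η) * l) ≤
      (C3 + 2 * R + 2 * (2 / q) * C) * B * Real.exp (-(q - η) * l) := by
    gcongr
    linarith
  linarith

lemma norm_bl {D : Dat} (hP : 1 / 2 < D.P) {s : ℂ} (hs : s.re = 1 / 2) :
    ‖D.bl s‖ ^ 2 = 1 / D.wt s := by
  have h1 : ‖s - D.P‖ = ‖s - (1 - D.P)‖ := by
    have e1 : ‖s - D.P‖ ^ 2 = ‖s - (1 - D.P)‖ ^ 2 := by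
      rw [← Complex.normSq_eq_norm_sq, ← Complex.normSq_eq_norm_sq, Complex.normSq_apply,
        Complex.normSq_apply]
      simp only [Complex.sub_re, Complex.one_re, Complex.sub_im, Complex.one_im, hs,
        Complex.ofReal_re, Complex.ofReal_im]
      ring
    exact (sq_eq_sq₀ (norm_nonneg _) (norm_nonneg _)).1 e1
  have h0 : ‖s - (1 - D.P)‖ ≠ 0 := by
    rw [norm_ne_zero_iff]
    intro h
    have h2 := congrArg Complex.re h
    simp only [Complex.sub_re, Complex.one_re, Complex.ofReal_re, Complex.zero_re, hs] at h2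
    linarith
  have h3 : ‖s + (D.w - 1 / 2)‖ ^ 2 = D.wt s := by
    rw [← Complex.normSq_eq_norm_sq, Complex.normSq_apply, Dat.wt]
    have e2 : (s + ((D.w : ℂ) - 1 / 2)).re = D.w := by
      simp [hs]
    have e3 : (s + ((D.w : ℂ) - 1 / 2)).im = s.im := by
      simp
    rw [e2, e3]
    ring
  rw [Dat.bl, norm_div, norm_mul, norm_pow, norm_pow, h1, div_mul_eq_div_div,
    div_self (pow_ne_zero _ h0), div_pow, one_pow, h3]

end Low3

open Pool.Agent.N967.L3 in
/-- **Burnol's lower bound** for general L-functions. -/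
theorem low3 {D : Dat} (hr : Rp D) (h1 : S_jj D) (h2 : Pool.Agent.N967.S_hpol) : S_low3 D := by
  classical
  intro S0 hS0 ε hε
  have hwt : ∀ s, 0 < D.wt s := fun s => by
    have hw := hr.base.hw
    rw [Dat.wt]
    positivity
  set S := S0.filter (fun s => 1 ≤ D.mu s) with hSdef
  have hS : ∀ s ∈ S, D.IsZ s ∧ 1 ≤ D.mu s := fun s hs => by
    rw [hSdef, Finset.mem_filter] at hs
    exact ⟨hS0 s hs.1, hs.2⟩
  have hsum : ∑ s ∈ S0, (D.mu s : ℝ) ^ 2 / D.wt s = ∑ s ∈ S, (D.mu s : ℝ) ^ 2 / D.wt s := by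
    rw [hSdef, Finset.sum_filter_of_ne]
    intro s _ hs
    by_contra h
    have h0 : D.mu s = 0 := by omega
    rw [h0] at hs
    simp at hs
  rw [hsum]
  set B : ℝ := ∑ s ∈ S, (D.mu s : ℝ) ^ 2 / D.wt s with hB
  have hB0 : 0 ≤ B := Finset.sum_nonneg fun s _ => by have := hwt s; positivity
  set δ' : ℝ := min 1 (ε / (4 * (B + 1))) with hδ'
  have hd0 : 0 < δ' := lt_min one_pos (by positivity)
  have hd1 : δ' ≤ 1 := min_le_left _ _
  have hd2 : δ' * B ≤ ε / 4 := by
    have e1 : δ' ≤ ε / (4 * (B + 1)) := min_le_right _ _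
    rw [le_div_iff₀ (by positivity)] at e1
    nlinarith
  obtain ⟨q, hq, hq4, h1⟩ := h1
  have hqd : q * δ' ≤ q := by nlinarith
  have hqd0 : 0 < q * δ' := by positivity
  obtain ⟨K, hK⟩ := h1 (q * δ' / 2) (by positivity) (by linarith)
  -- the weight
  have hT : Tendsto (fun c0 : ℝ => ∑ s ∈ S, ‖D.bl s * gw c0 K s‖ ^ 2 *
      (D.mu s : ℝ) ^ 2) atTop (𝓝 B) := by
    have e1 : B = ∑ s ∈ S, ‖D.bl s * 1‖ ^ 2 * (D.mu s : ℝ) ^ 2 := by
      rw [hB]
      refine Finset.sum_congr rfl fun s hs => ?_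
      rw [mul_one, Low3.norm_bl hr.base.hP (hS s hs).1.2]
      ring
    rw [e1]
    refine tendsto_finsetSum _ fun s _ => ?_
    exact (((tendsto_const_nhds.mul (gw_tend K s)).norm).pow 2).mul_const _
  obtain ⟨c0, hc1, hc2⟩ := ((hT.eventually (lt_mem_nhds (show B - ε / 4 < B by linarith))).and
    (eventually_ge_atTop 1)).exists
  obtain ⟨C, hC0, hC⟩ := hK c0 hc2
  obtain ⟨E, hE0, hE⟩ := Low3.coreq hq S (fun s => hpol (D.mu s)) (fun s => s.im) D.mu
    (fun s => (D.mu s : ℝ) ^ 2)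
    (fun s k => iteratedDeriv k (fun z => D.bl z * gw c0 K z) s)
    (by
      intro s hs r hr hsr h
      exact hsr (Complex.ext ((hS s hs).1.2.trans (hS r hr).1.2.symm) h))
    (fun s hs => (hS s hs).2)
    (fun s hs => (h2 (D.mu s) (hS s hs).2).1)
    (fun s hs => (h2 (D.mu s) (hS s hs).2).2.1)
    (fun s hs => by
      rw [(h2 (D.mu s) (hS s hs).2).2.2 _ (h2 (D.mu s) (hS s hs).2).1]
      exact (h2 (D.mu s) (hS s hs).2).2.1)
    (η := q * δ' / 8) (by positivity) (by linarith)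
  simp only [iteratedDeriv_zero] at hE
  -- large N
  have tlog : Tendsto (fun N : ℕ => Real.log N) atTop atTop :=
    Real.tendsto_log_atTop.comp tendsto_natCast_atTop_atTop
  have t1 : Tendsto (fun N : ℕ => E / Real.log N) atTop (𝓝 0) := tendsto_const_nhds.div_atTop tlog
  have t2 : Tendsto (fun N : ℕ => E * C * Real.exp (-(q * δ' / 4 * Real.log N))) atTop (𝓝 0) := by
    have e1 : Tendsto (fun N : ℕ => Real.exp (-(q * δ' / 4 * Real.log N))) atTop (𝓝 0) :=
      Real.tendsto_exp_neg_atTop_nhds_zero.comp (tlog.const_mul_atTop (by positivity))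
    simpa using e1.const_mul (E * C)
  have t3 := t1.add t2
  rw [add_zero] at t3
  obtain ⟨N0, hN0⟩ := eventually_atTop.1 ((t3.eventually (gt_mem_nhds (show (0 : ℝ) < ε / 4 by linarith))).and
    (tlog.eventually (eventually_ge_atTop (max 1 B))))
  refine ⟨max 2 N0, le_max_left _ _, fun N hN a => ?_⟩
  have hN2 : 2 ≤ N := (le_max_left _ _).trans hN
  obtain ⟨u1, u2⟩ := hN0 N ((le_max_right _ _).trans hN)
  have hl1 : 1 ≤ Real.log N := (le_max_left _ _).trans u2
  have hl2 : B ≤ Real.log N := (le_max_right _ _).trans u2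
  have hlog0 : 0 < Real.log N := by linarith
  by_cases herr : D.err N a ≤ 1
  swap
  · push Not at herr
    nlinarith
  obtain ⟨J, j1, j2, j3, j4, j5, j6⟩ := hC N a hN2 herr
  have hl : 1 ≤ (1 + δ') * Real.log N := by nlinarith
  have key := hE ((1 + δ') * Real.log N) (C * (N : ℝ) ^ (q + q * δ' / 2)) (D.err N a) J hl j1 j2
    (fun v hv => (j3 v hv).trans (le_of_eq (by ring))) j4 j5 (fun s hs k hk => j6 s (hS s hs).1 k hk)
  have hN0' : (0 : ℝ) < N := by positivity
  have k1 : E / ((1 + δ') * Real.log N) ≤ E / Real.log N := by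
    apply div_le_div_of_nonneg_left hE0 hlog0
    nlinarith
  have k2 : E * (C * (N : ℝ) ^ (q + q * δ' / 2)) * Real.exp (-(q - q * δ' / 8) * ((1 + δ') * Real.log N)) ≤
      E * C * Real.exp (-(q * δ' / 4 * Real.log N)) := by
    rw [Real.rpow_def_of_pos hN0']
    calc E * (C * Real.exp (Real.log N * (q + q * δ' / 2))) * Real.exp (-(q - q * δ' / 8) * ((1 + δ') * Real.log N))
        = E * C * (Real.exp (Real.log N * (q + q * δ' / 2)) *
            Real.exp (-(q - q * δ' / 8) * ((1 + δ') * Real.log N))) := by ring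
      _ ≤ _ := by
        rw [← Real.exp_add]
        refine mul_le_mul_of_nonneg_left ?_ (by positivity)
        rw [Real.exp_le_exp]
        have e1 : Real.log N * (q + q * δ' / 2) + -(q - q * δ' / 8) * ((1 + δ') * Real.log N) =
          Real.log N * (-(q * δ' / 2) + q * δ' / 8 + q * δ' * δ' / 8) := by ring
        have e3 : q * δ' * δ' ≤ q * δ' := by nlinarith
        have e2 : -(q * δ' / 2) + q * δ' / 8 + q * δ' * δ' / 8 ≤ -(q * δ' / 4) := by linarith
        rw [e1]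
        nlinarith
  have k3 : B - ε / 2 ≤ (1 + δ') * Real.log N * D.err N a := by linarith
  have k4 : (1 + δ') * (B - ε) ≤ (1 + δ') * (D.err N a * Real.log N) := by nlinarith
  exact le_of_mul_le_mul_left k4 (by linarith)

end Pool.Agent.N967.H
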