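import Mathlib
import Pool.Agent.N967.H.Stm

set_option autoImplicit false

/-!
# The distance on an arbitrary line: distances with values in `[0, ∞]`
-/

namespace Pool.Agent.N967.H

open Complex MeasureTheory Filter Topology

/-- the square of the distance; no convergence is assumed -/
noncomputable def Dat.dE (D : Dat) (N : ℕ) : ENNReal :=
  ⨅ a : ℕ → ℂ, ENNReal.ofReal (1 / (2 * Real.pi)) * ∫⁻ t : ℝ, ENNReal.ofReal (D.ig N a t)

lemma ig_nonneg (D : Dat) (N : ℕ) (a : ℕ → ℂ) (t : ℝ) : 0 ≤ D.ig N a t := by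
  unfold Dat.ig
  positivity

lemma err_nonneg (D : Dat) (N : ℕ) (a : ℕ → ℂ) : 0 ≤ D.err N a := by
  unfold Dat.err
  exact mul_nonneg (by positivity) (integral_nonneg fun t => ig_nonneg D N a t)

lemma dd_nonneg (D : Dat) (N : ℕ) : 0 ≤ D.dd N := Real.iInf_nonneg fun a => err_nonneg D N a

lemma dd_le (D : Dat) (N : ℕ) (a : ℕ → ℂ) : D.dd N ≤ D.err N a :=
  ciInf_le ⟨0, by rintro _ ⟨a, rfl⟩; exact err_nonneg D N a⟩ a

theorem dE_eq {D : Dat} (hi : S_int D) (N : ℕ) : D.dE N = ENNReal.ofReal (D.dd N) := by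
  have h1 : ∀ a : ℕ → ℂ, ENNReal.ofReal (1 / (2 * Real.pi)) * ∫⁻ t : ℝ, ENNReal.ofReal (D.ig N a t) =
      ENNReal.ofReal (D.err N a) := by
    intro a
    unfold Dat.err
    rw [ENNReal.ofReal_mul (by positivity),
      ofReal_integral_eq_lintegral_ofReal (hi N a) (Eventually.of_forall fun t => ig_nonneg D N a t)]
  unfold Dat.dE Dat.dd
  simp only [h1]
  refine (Monotone.map_ciInf_of_continuousAt (f := ENNReal.ofReal) ?_ ?_ ?_).symm
  · exact ENNReal.continuous_ofReal.continuousAt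
  · exact fun x y h => ENNReal.ofReal_le_ofReal h
  · exact ⟨0, by rintro _ ⟨a, rfl⟩; exact err_nonneg D N a⟩

theorem asymE {D : Dat} (hi : S_int D) (h : S_asym D) :
    Tendsto (fun N : ℕ => D.dE N * ENNReal.ofReal (Real.log N)) atTop
      (𝓝 (ENNReal.ofReal (∑' ρ : D.ZZ, (D.mu ρ : ℝ) ^ 2 / D.wt ρ))) := by
  have h1 := ENNReal.tendsto_ofReal h
  refine h1.congr fun N => ?_
  rw [dE_eq hi, ENNReal.ofReal_mul (dd_nonneg D N)]

theorem offE {D : Dat} (h : S_off D) {ρ : ℂ} (h1 : 1 / 2 < ρ.re) (h2 : D.Zs ρ = 0) :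
    ∃ c : ℝ, 0 < c ∧ ∀ N : ℕ, ENNReal.ofReal c ≤ D.dE N := by
  obtain ⟨c, hc, H⟩ := h ρ h1 h2
  refine ⟨1 / (2 * Real.pi) * c, by positivity, fun N => le_iInf fun a => ?_⟩
  rw [ENNReal.ofReal_mul (by positivity)]
  gcongr
  exact H N a

lemma no_limit {D : Dat} {c : ℝ} (hc : 0 < c) (h : ∀ N : ℕ, ENNReal.ofReal c ≤ D.dE N) {ℓ : ENNReal} (hℓ : ℓ ≠ ⊤) :
    ¬ Tendsto (fun N : ℕ => D.dE N * ENNReal.ofReal (Real.log N)) atTop (𝓝 ℓ) := by
  intro ht
  have h1 : Tendsto (fun N : ℕ => ENNReal.ofReal (c * Real.log N)) atTop (𝓝 ⊤) := by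
    refine ENNReal.tendsto_ofReal_atTop.comp ?_
    exact (Real.tendsto_log_atTop.comp tendsto_natCast_atTop_atTop).const_mul_atTop hc
  have h2 : (⊤ : ENNReal) ≤ ℓ := by
    refine le_of_tendsto_of_tendsto' h1 ht fun N => ?_
    rw [ENNReal.ofReal_mul hc.le]
    gcongr
    exact h N
  exact hℓ (top_le_iff.1 h2)

lemma no_zero {D : Dat} {c : ℝ} (hc : 0 < c) (h : ∀ N : ℕ, ENNReal.ofReal c ≤ D.dE N) :
    ¬ Tendsto D.dE atTop (𝓝 0) := by
  intro ht
  have h2 : ENNReal.ofReal c ≤ 0 := ge_of_tendsto' ht h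
  simp only [nonpos_iff_eq_zero, ENNReal.ofReal_eq_zero] at h2
  linarith

/-- the distance tends to `0` -/
theorem zeroE {D : Dat} {ℓ : ENNReal} (hℓ : ℓ ≠ ⊤)
    (h : Tendsto (fun N : ℕ => D.dE N * ENNReal.ofReal (Real.log N)) atTop (𝓝 ℓ)) : Tendsto D.dE atTop (𝓝 0) := by
  have h1 : Tendsto (fun N : ℕ => (ENNReal.ofReal (Real.log N))⁻¹) atTop (𝓝 0) := by
    rw [← ENNReal.inv_top]
    refine (tendsto_inv_iff.2 ?_)
    exact ENNReal.tendsto_ofReal_atTop.comp (Real.tendsto_log_atTop.comp tendsto_natCast_atTop_atTop)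
  have h2 := ENNReal.Tendsto.mul h (Or.inr ENNReal.zero_ne_top) h1 (Or.inr hℓ)
  rw [mul_zero] at h2
  refine h2.congr' ?_
  filter_upwards [eventually_ge_atTop 3] with N hN
  have h3 : 0 < Real.log N := Real.log_pos (by exact_mod_cast (by omega : 1 < N))
  rw [mul_assoc, ENNReal.mul_inv_cancel (by simpa using h3) ENNReal.ofReal_ne_top, mul_one]

end Pool.Agent.N967.H
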