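import Mathlib
import Pool.Agent.N967.H.Stm

set_option autoImplicit false

/-!
# A uniform bound for the number of zeros in the short intervals
-/

open Pool.Agent.N967.G (KR KerB S_real S_opt S_kern S_kerL S_sh S_lf)

namespace Pool.Agent.N967.H

open Complex MeasureTheory Filter Topology
open Pool.Agent.Y23 (Lg)

namespace Mm

theorem Cnt_mono {D : Dat} {t r M M' : ℝ} (h : D.Cnt t r M) (hM : M ≤ M') : D.Cnt t r M' :=
  fun S hS => (h S hS).trans hM

end Mm

theorem mm {D : Dat} (h : Rp D) : S_mm D := by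
  obtain ⟨C1, T0, hC1, hT0, hS⟩ := h.slope
  obtain ⟨C2, hC2, hc⟩ := h.cnt
  have he : (2 : ℝ) ≤ Real.exp 1 := by
    have := Real.exp_one_gt_d9
    linarith
  have hT2 : 2 ≤ T0 := he.trans hT0
  have hlT : 0 < Real.log (2 + T0) := Real.log_pos (by linarith)
  refine ⟨C1, T0, 2 * C1 + C2 * Real.log (2 + T0), hC1, hT0, by positivity, hS, ?_⟩
  intro τ
  obtain ⟨X, hX⟩ : ∃ X : ℝ, X = Lg τ := ⟨_, rfl⟩
  have hX1 : 1 ≤ X := by rw [hX]; exact Pool.Agent.Y23.one_le_Lg τ
  have hl2 : 0 < Real.log (2 + X) := Real.log_pos (by linarith)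
  have hadd : (2 * C1 + C2 * Real.log (2 + T0)) * X / Real.log (2 + X) =
      2 * C1 * X / Real.log (2 + X) + C2 * Real.log (2 + T0) * X / Real.log (2 + X) := by ring
  unfold rad
  rw [← hX]
  split_ifs with hcase
  · have hX2 : Real.exp 1 ≤ X := hT0.trans hcase
    have hlog : 1 ≤ Real.log X := by
      rw [Real.le_log_iff_exp_le (by linarith)]
      exact hX2
    have h1 := hS τ (by rw [← hX]; exact hcase) (1 / Real.log (Lg τ)) le_rfl (by
      rw [← hX, div_le_one (by linarith)]
      exact hlog)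
    rw [← hX] at h1
    refine Mm.Cnt_mono h1 ?_
    have h2 : Real.log (2 + X) ≤ 2 * Real.log X := by
      have h3 : Real.log (2 + X) ≤ Real.log (X ^ 2) := Real.log_le_log (by linarith) (by nlinarith)
      rw [Real.log_pow] at h3
      exact_mod_cast h3
    have h3 : 1 / Real.log X ≤ 2 / Real.log (2 + X) := by
      rw [div_le_div_iff₀ (by linarith) hl2]
      linarith
    have h4 : C1 * (1 / Real.log X) * X ≤ 2 * C1 * X / Real.log (2 + X) := by
      calc C1 * (1 / Real.log X) * X ≤ C1 * (2 / Real.log (2 + X)) * X := by gcongr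
        _ = 2 * C1 * X / Real.log (2 + X) := by ring
    have h5 : 0 ≤ C2 * Real.log (2 + T0) * X / Real.log (2 + X) := by positivity
    rw [hadd]
    linarith
  · push Not at hcase
    intro S hS'
    have h1 := hc τ S fun s hs => ⟨(hS' s hs).1, (hS' s hs).2.2⟩
    rw [← hX] at h1
    have h2 : Real.log (2 + X) ≤ Real.log (2 + T0) := Real.log_le_log (by linarith) (by linarith)
    have h3 : C2 * X ≤ C2 * Real.log (2 + T0) * X / Real.log (2 + X) := by
      rw [le_div_iff₀ hl2]
      have : 0 ≤ C2 * X := by positivity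
      nlinarith
    have h5 : 0 ≤ 2 * C1 * X / Real.log (2 + X) := by positivity
    rw [hadd]
    linarith

end Pool.Agent.N967.H
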