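import Mathlib
import Pool.Agent.N967.H.Stm
import Pool.Agent.N967.Near

set_option autoImplicit false

/-!
# Baez-Duarte's distance for general L-functions: the pointwise bound

From the zeros near a height, the logarithmic derivative near the critical line and the values on the
critical line: the bound for `|Z (1/2 + i t)|` by the value at a shifted point.
-/

open Pool.Agent.N967.G (KR KerB S_real S_opt S_kern S_kerL S_sh S_lf)

namespace Pool.Agent.N967.H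

open Complex MeasureTheory Filter Topology
open Pool.Agent.Y23 (Lg)

namespace Pt

lemma one_lt_Lg (t : ℝ) : 1.09 ≤ Lg t := by
  unfold Lg
  have h1 : Real.log 3 ≤ Real.log (3 + |t|) := Real.log_le_log (by norm_num) (by linarith [abs_nonneg t])
  have h2 : (1.09 : ℝ) ≤ Real.log 3 := by
    rw [Real.le_log_iff_exp_le (by norm_num)]
    have := Real.exp_one_lt_d9
    have h3 : Real.exp (1.09 : ℝ) = Real.exp 1 * Real.exp 0.09 := by rw [← Real.exp_add]; norm_num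
    have h4 : Real.exp (0.09 : ℝ) ≤ 1.1 := by
      have h5 := Real.exp_bound' (x := 0.09) (by norm_num) (by norm_num) (n := 3) (by norm_num)
      norm_num [Finset.sum_range_succ, Nat.factorial] at h5
      linarith
    rw [h3]
    have h6 : 0 < Real.exp (0.09 : ℝ) := Real.exp_pos _
    nlinarith
  linarith

lemma log_Lg_pos (t : ℝ) : 0 < Real.log (Lg t) := Real.log_pos (by linarith [one_lt_Lg t])

lemma cmp_Pn {A B l β y r : ℝ} (hAB : A ≤ B + l) (hβ : 0 < β) (hβB : l ≤ B * (l / β)) (hl : 0 ≤ l)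
    (hy : r < y → l ≤ B * (l / y)) (hB : 0 ≤ B) (hr : 0 ≤ r) (hy0 : 0 ≤ y) (hy1 : y ≤ 1) :
    A ≤ B * Real.exp (Pn l β r y) := by
  unfold Pn
  rw [abs_of_nonneg hy0]
  split_ifs with h
  · rw [Real.exp_log (by positivity)]
    rw [mul_add, mul_one]
    linarith
  · have hry : r < y := not_le.1 h
    have hy0' : 0 < y := lt_of_le_of_lt hr hry
    have h2 := log_one_add_le_sqrt (u := l / y) (by positivity)
    have h3 : 1 + l / y ≤ Real.exp (Real.sqrt (l / y)) := by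
      rwa [← Real.log_le_iff_le_exp (by positivity)]
    refine le_trans ?_ (mul_le_mul_of_nonneg_left h3 hB)
    rw [mul_add, mul_one]
    linarith [hy hry]

/-- the distance (in the maximum norm) of the zero from the point of height `τ` -/
noncomputable def yy (τ : ℝ) (ρ : ℂ) : ℝ := max |τ - ρ.im| (1 / 2 - ρ.re)

lemma yy_nonneg (τ : ℝ) (ρ : ℂ) : 0 ≤ yy τ ρ := (abs_nonneg _).trans (le_max_left _ _)

lemma yy_le {τ r : ℝ} {ρ : ℂ} : |yy τ ρ| ≤ r ↔ |ρ.im - τ| ≤ r ∧ 1 / 2 - r ≤ ρ.re := by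
  rw [abs_of_nonneg (yy_nonneg τ ρ)]
  unfold yy
  rw [max_le_iff, abs_sub_comm]
  constructor
  · rintro ⟨h1, h2⟩
    exact ⟨h1, by linarith⟩
  · rintro ⟨h1, h2⟩
    exact ⟨h1, by linarith⟩

/-- the near cost, with a bound for the number of zeros in the short interval -/
lemma near_all {D : Dat} {θ C T0 : ℝ} (hθ0 : 0 < θ) (hθ1 : θ ≤ 1) (hC : 0 < C) (hT0 : Real.exp 1 ≤ T0)
    (hS : D.Slope θ C T0) {t l β M : ℝ} (hl : 0 ≤ l) (hβ : 0 < β) (hM : D.Cnt t (rad θ T0 t) M) :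
    0 < rad θ T0 t ∧ rad θ T0 t ≤ 1 ∧
      ∀ S : Finset ℂ, (∀ s ∈ S, D.Nz s ∧ |s.im - t| ≤ 1) →
        ∑ s ∈ S, (D.mu s : ℝ) * Pn l β (rad θ T0 t) (yy t s) ≤
        M * Real.log (1 + l / β) + 5 * C * Real.sqrt l * Lg t := by
  classical
  have hX := one_lt_Lg t
  have hlogX := log_Lg_pos t
  have hL := log_one_add_nonneg hl hβ
  have hT0pos : 0 < T0 := (Real.exp_pos 1).trans_le hT0
  rcases le_or_gt T0 (Lg t) with hT | hT
  · have hrad : rad θ T0 t = θ / Real.log (Lg t) := if_pos hT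
    have hr0 : 0 < θ / Real.log (Lg t) := by positivity
    have hr1 : θ / Real.log (Lg t) ≤ 1 := by
      rw [div_le_one hlogX]
      have : 1 ≤ Real.log (Lg t) := by
        rw [Real.le_log_iff_exp_le (by linarith)]
        exact hT0.trans hT
      linarith
    rw [hrad] at hM ⊢
    refine ⟨hr0, hr1, fun S hS1 => ?_⟩
    have h1 := near_sum (S := S) (m := fun s => (D.mu s : ℝ)) (y := fun s => yy t s) (fun s _ => Nat.cast_nonneg _)
      (fun s hs => by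
        have h2 := hS1 s hs
        exact yy_le.2 ⟨h2.2, by linarith [h2.1.2]⟩)
      (C' := C * Lg t) (r0 := θ / Real.log (Lg t)) (M0 := M) (l := l) (b := β)
      (by positivity) hr0 hl hβ ?_ ?_
    · refine h1.trans (le_of_eq ?_)
      ring
    · exact hM _ (fun s hs => by
        rw [Finset.mem_filter] at hs
        have h2 := yy_le.1 hs.2
        exact ⟨(hS1 s hs.1).1, h2.2, h2.1⟩)
    · intro r hr hr'
      have := hS t hT r hr hr' (S.filter (fun s => |yy t s| ≤ r)) (fun s hs => by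
        rw [Finset.mem_filter] at hs
        have h2 := yy_le.1 hs.2
        exact ⟨(hS1 s hs.1).1, h2.2, h2.1⟩)
      refine this.trans (le_of_eq (by ring))
  · have hrad : rad θ T0 t = 1 := if_neg (not_le.2 hT)
    rw [hrad] at hM ⊢
    refine ⟨one_pos, le_rfl, fun S hS1 => ?_⟩
    have h1 : ∑ s ∈ S, (D.mu s : ℝ) * Pn l β 1 (yy t s) = (∑ s ∈ S, (D.mu s : ℝ)) * Real.log (1 + l / β) := by
      rw [Finset.sum_mul]
      refine Finset.sum_congr rfl fun s hs => ?_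
      unfold Pn
      have h2 := hS1 s hs
      rw [if_pos (yy_le.2 ⟨h2.2, by linarith [h2.1.2]⟩)]
    rw [h1]
    have h3 := mul_le_mul_of_nonneg_right (hM S (fun s hs => ⟨(hS1 s hs).1, by linarith [(hS1 s hs).1.2],
      (hS1 s hs).2⟩)) hL
    have h5 : 0 ≤ 5 * C * Real.sqrt l * Lg t := by positivity
    linarith

lemma prod_cmp {Z : Finset ℂ} {m : ℂ → ℕ} {s s' : ℂ} {c : ℂ → ℝ}
    (h : ∀ ρ ∈ Z, ‖s - ρ‖ ≤ ‖s' - ρ‖ * Real.exp (c ρ)) :
    ∏ ρ ∈ Z, ‖s - ρ‖ ^ m ρ ≤ (∏ ρ ∈ Z, ‖s' - ρ‖ ^ m ρ) * Real.exp (∑ ρ ∈ Z, (m ρ : ℝ) * c ρ) := by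
  rw [Real.exp_sum, ← Finset.prod_mul_distrib]
  refine Finset.prod_le_prod (fun _ _ => by positivity) fun ρ hρ => ?_
  calc ‖s - ρ‖ ^ m ρ ≤ (‖s' - ρ‖ * Real.exp (c ρ)) ^ m ρ := pow_le_pow_left₀ (norm_nonneg _) (h ρ hρ) _
    _ = ‖s' - ρ‖ ^ m ρ * Real.exp (m ρ * c ρ) := by rw [mul_pow, ← Real.exp_nat_mul]

lemma ratio {D : Dat} {Z : Finset ℂ} {s s' : ℂ} {A : ℝ} {c : ℂ → ℝ} (hZ : ∀ ρ ∈ Z, D.Zs ρ = 0)
    (h : ‖D.Zs s‖ * ∏ ρ ∈ Z, ‖s' - ρ‖ ^ D.mu ρ ≤ Real.exp A * ‖D.Zs s'‖ * ∏ ρ ∈ Z, ‖s - ρ‖ ^ D.mu ρ)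
    (hs' : D.Zs s' ≠ 0) (hc : ∀ ρ ∈ Z, ‖s - ρ‖ ≤ ‖s' - ρ‖ * Real.exp (c ρ)) :
    ‖D.Zs s‖ ≤ Real.exp (A + ∑ ρ ∈ Z, (D.mu ρ : ℝ) * c ρ) * ‖D.Zs s'‖ := by
  have hP : 0 < ∏ ρ ∈ Z, ‖s' - ρ‖ ^ D.mu ρ := by
    refine Finset.prod_pos fun ρ hρ => pow_pos (norm_pos_iff.2 (sub_ne_zero.2 ?_)) _
    rintro rfl
    exact hs' (hZ _ hρ)
  have h1 := prod_cmp (m := D.mu) hc
  have h2 := h.trans (mul_le_mul_of_nonneg_left h1 (by positivity))
  refine le_of_mul_le_mul_right (h2.trans (le_of_eq ?_)) hP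
  rw [Real.exp_add]
  ring

lemma pos {D : Dat} (h : Ax D) {τ : ℝ} {ρ : ℂ} (h0 : D.Zs ρ = 0) (h1 : ‖ρ - (5 / 2 + τ * I)‖ ≤ 35 / 16) :
    ρ.re ≤ 1 / 2 ∧ |ρ.im - τ| ≤ 1 := by
  have h2 : ρ.re ≤ 1 / 2 := by
    by_contra h3
    exact h.zero ρ (not_le.1 h3) h0
  refine ⟨h2, ?_⟩
  have h3 : ‖ρ - (5 / 2 + τ * I)‖ ^ 2 = (ρ.re - 5 / 2) ^ 2 + (ρ.im - τ) ^ 2 := by
    rw [← Complex.normSq_eq_norm_sq, Complex.normSq_apply]
    have e1 : (ρ - (5 / 2 + τ * I)).re = ρ.re - 5 / 2 := by simp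
    have e2 : (ρ - (5 / 2 + τ * I)).im = ρ.im - τ := by simp
    rw [e1, e2]
    ring
  have h4 : ‖ρ - (5 / 2 + τ * I)‖ ^ 2 ≤ (35 / 16) ^ 2 := pow_le_pow_left₀ (norm_nonneg _) h1 2
  rw [h3] at h4
  rw [← sq_le_one_iff_abs_le_one]
  nlinarith

/-- the total cost -/
lemma cost {D : Dat} (h : Ax D) {C1 τ : ℝ} {Z : Finset ℂ}
    (hZ : ∀ ρ : ℂ, ρ ∈ Z ↔ D.Zs ρ = 0 ∧ ‖ρ - (5 / 2 + τ * I)‖ ≤ 35 / 16)
    (hZm : ∑ ρ ∈ Z, (D.mu ρ : ℝ) ≤ C1 * Lg τ) {θ C T0 : ℝ} (hθ0 : 0 < θ) (hθ1 : θ ≤ 1) (hC : 0 < C)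
    (hT0 : Real.exp 1 ≤ T0) (hS : D.Slope θ C T0) {l β M k : ℝ} (hl : 0 ≤ l) (hβ : 0 < β) (hk : 0 ≤ k)
    (hM : D.Cnt τ (rad θ T0 τ) M) :
    ∑ ρ ∈ Z, (D.mu ρ : ℝ) * (if 3 / 8 ≤ ρ.re then Pn l β (rad θ T0 τ) (yy τ ρ) else k) ≤
      M * Real.log (1 + l / β) + 5 * C * Real.sqrt l * Lg τ + k * (C1 * Lg τ) := by
  classical
  obtain ⟨-, -, hN⟩ := near_all hθ0 hθ1 hC hT0 hS hl hβ hM
  rw [← Finset.sum_filter_add_sum_filter_not Z (fun ρ => 3 / 8 ≤ ρ.re)]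
  refine add_le_add ?_ ?_
  · refine le_trans (le_of_eq ?_) (hN (Z.filter fun ρ => 3 / 8 ≤ ρ.re) ?_)
    · refine Finset.sum_congr rfl fun ρ hρ => ?_
      rw [if_pos (Finset.mem_filter.1 hρ).2]
    · intro ρ hρ
      have h1 := (hZ ρ).1 (Finset.mem_filter.1 hρ).1
      exact ⟨⟨h1.1, (Finset.mem_filter.1 hρ).2⟩, (pos h h1.1 h1.2).2⟩
  · calc ∑ ρ ∈ Z.filter (fun ρ => ¬ 3 / 8 ≤ ρ.re), (D.mu ρ : ℝ) *
          (if 3 / 8 ≤ ρ.re then Pn l β (rad θ T0 τ) (yy τ ρ) else k)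
        = ∑ ρ ∈ Z.filter (fun ρ => ¬ 3 / 8 ≤ ρ.re), (D.mu ρ : ℝ) * k := by
          refine Finset.sum_congr rfl fun ρ hρ => ?_
          rw [if_neg (Finset.mem_filter.1 hρ).2]
      _ ≤ ∑ ρ ∈ Z, (D.mu ρ : ℝ) * k :=
          Finset.sum_le_sum_of_subset_of_nonneg (Finset.filter_subset _ _) fun _ _ _ => by positivity
      _ = (∑ ρ ∈ Z, (D.mu ρ : ℝ)) * k := by rw [Finset.sum_mul]
      _ ≤ C1 * Lg τ * k := mul_le_mul_of_nonneg_right hZm hk
      _ = k * (C1 * Lg τ) := mul_comm _ _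

lemma norm_sq' (a b : ℝ) (ρ : ℂ) : ‖(a + b * I : ℂ) - ρ‖ ^ 2 = (a - ρ.re) ^ 2 + (b - ρ.im) ^ 2 := by
  rw [← Complex.normSq_eq_norm_sq, Complex.normSq_apply]
  have e1 : ((a + b * I : ℂ) - ρ).re = a - ρ.re := by simp
  have e2 : ((a + b * I : ℂ) - ρ).im = b - ρ.im := by simp
  rw [e1, e2]
  ring

lemma far_cmp {A B d k : ℝ} (hAB : A ≤ B + d) (hd : d ≤ B * k) (hB : 0 ≤ B) : A ≤ B * Real.exp k := by
  have h1 := Real.add_one_le_exp k
  nlinarith [mul_le_mul_of_nonneg_left h1 hB]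

lemma L_fz {D : Dat} {s s' : ℂ} {E : ℝ} (h1 : ‖s' - D.P‖ ≤ 2 * ‖s - D.P‖) (hs : 0 < ‖s - D.P‖)
    (hs' : D.Zs s' ≠ 0)
    (hE : ‖D.Zs s‖ ≤ E * ‖D.Zs s'‖) (hE0 : 0 ≤ E) : ‖D.L s‖ * ‖D.fz s'‖ ≤ 2 ^ D.p * E := by
  have h2 : 0 < ‖D.Zs s'‖ := norm_pos_iff.2 hs'
  unfold Dat.L Dat.fz
  rw [norm_div, norm_div, norm_pow, norm_pow]
  have h3 : ‖s' - D.P‖ ^ D.p ≤ 2 ^ D.p * ‖s - D.P‖ ^ D.p := by
    rw [← mul_pow]
    exact pow_le_pow_left₀ (norm_nonneg _) h1 _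
  calc ‖D.Zs s‖ / ‖s - D.P‖ ^ D.p * (‖s' - D.P‖ ^ D.p / ‖D.Zs s'‖) ≤
      (E * ‖D.Zs s'‖) / ‖s - D.P‖ ^ D.p * ((2 ^ D.p * ‖s - D.P‖ ^ D.p) / ‖D.Zs s'‖) := by
        refine mul_le_mul (div_le_div_of_nonneg_right hE (by positivity))
          (div_le_div_of_nonneg_right h3 h2.le) (by positivity) (by positivity)
    _ = 2 ^ D.p * E := by field_simp

lemma fz_fz {D : Dat} {s s' : ℂ} {E : ℝ} (h1 : ‖s' - D.P‖ ≤ 2 * ‖s - D.P‖) (hs0 : D.Zs s ≠ 0)
    (hs' : D.Zs s' ≠ 0)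
    (hE : ‖D.Zs s‖ ≤ E * ‖D.Zs s'‖) (hE0 : 0 ≤ E) : ‖D.fz s'‖ ≤ 2 ^ D.p * E * ‖D.fz s‖ := by
  have h2 : 0 < ‖D.Zs s'‖ := norm_pos_iff.2 hs'
  have h2' : 0 < ‖D.Zs s‖ := norm_pos_iff.2 hs0
  unfold Dat.fz
  rw [norm_div, norm_div, norm_pow, norm_pow]
  have h3 : ‖s' - D.P‖ ^ D.p ≤ 2 ^ D.p * ‖s - D.P‖ ^ D.p := by
    rw [← mul_pow]
    exact pow_le_pow_left₀ (norm_nonneg _) h1 _
  rw [mul_div_assoc', div_le_div_iff₀ h2 h2']
  calc ‖s' - D.P‖ ^ D.p * ‖D.Zs s‖ ≤ (2 ^ D.p * ‖s - D.P‖ ^ D.p) * (E * ‖D.Zs s'‖) :=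
        mul_le_mul h3 hE (norm_nonneg _) (by positivity)
    _ = _ := by ring

lemma two_close {s s' P : ℂ} {c : ℝ} (h1 : c ≤ ‖s - P‖) (h2 : ‖s' - s‖ ≤ c) :
    ‖s' - P‖ ≤ 2 * ‖s - P‖ := by
  have h3 : ‖s' - P‖ ≤ ‖s' - s‖ + ‖s - P‖ := by
    have := norm_add_le (s' - s) (s - P)
    rwa [sub_add_sub_cancel] at this
  linarith

lemma re_dist (a b : ℝ) (ρ : ℂ) : a - ρ.re ≤ ‖(a + b * I : ℂ) - ρ‖ := by
  have h4 := Complex.re_le_norm ((a + b * I : ℂ) - ρ)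
  have h5 : ((a + b * I : ℂ) - ρ).re = a - ρ.re := by simp
  rwa [h5] at h4

lemma im_dist (a b : ℝ) (ρ : ℂ) : |b - ρ.im| ≤ ‖(a + b * I : ℂ) - ρ‖ := by
  have h4 := Complex.abs_im_le_norm ((a + b * I : ℂ) - ρ)
  have h5 : ((a + b * I : ℂ) - ρ).im = b - ρ.im := by simp
  rwa [h5] at h4

lemma yy_dist {a b : ℝ} (ha : 1 / 2 ≤ a) (ρ : ℂ) : yy b ρ ≤ ‖(a + b * I : ℂ) - ρ‖ := by
  unfold yy
  refine max_le (im_dist a b ρ) ?_
  have := re_dist a b ρ
  linarith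

lemma dist_P {a b P : ℝ} (ha : a ≤ P) : P - a ≤ ‖(a + b * I : ℂ) - P‖ := by
  have h4 := Complex.abs_re_le_norm ((a + b * I : ℂ) - P)
  have h5 : ((a + b * I : ℂ) - P).re = a - P := by simp
  rw [h5, abs_of_nonpos (by linarith)] at h4
  linarith

end Pt

theorem pt {D : Dat} (h : Ax D) (hz : S_zn D) (hl : S_lind D) (hc : S_crit D) : S_pt D := by
  intro η θ C T0 hη hη1 hθ0 hθ1 hC hT0 hS
  obtain ⟨C1, hC1, hz⟩ := hz
  have hP := h.base.hP
  have hP1 := h.base.hP1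
  set e : ℝ := min (min (1 / 16) ((D.P - 1 / 2) / 4)) (min (η / (72 * C1)) ((η / (20 * C)) ^ 2 / 2)) with hedef
  have he : 0 < e := lt_min (lt_min (by norm_num) (by linarith)) (lt_min (by positivity) (by positivity))
  have he1 : e ≤ 1 / 16 := (min_le_left _ _).trans (min_le_left _ _)
  have he2 : e ≤ (D.P - 1 / 2) / 4 := (min_le_left _ _).trans (min_le_right _ _)
  have he3 : 18 * e * C1 ≤ η / 4 := by
    have h1 : e ≤ η / (72 * C1) := (min_le_right _ _).trans (min_le_left _ _)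
    rw [le_div_iff₀ (by positivity)] at h1
    linarith
  have he4 : 5 * C * Real.sqrt (2 * e) ≤ η / 4 := by
    have h1 : e ≤ (η / (20 * C)) ^ 2 / 2 := (min_le_right _ _).trans (min_le_right _ _)
    have h2 : Real.sqrt (2 * e) ≤ η / (20 * C) := by
      rw [Real.sqrt_le_left (by positivity)]
      linarith
    calc 5 * C * Real.sqrt (2 * e) ≤ 5 * C * (η / (20 * C)) := by gcongr
      _ = η / 4 := by field_simp; norm_num
  have he5 : 5 * C * Real.sqrt e ≤ η / 4 := by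
    refine le_trans ?_ he4
    exact mul_le_mul_of_nonneg_left (Real.sqrt_le_sqrt (by linarith)) (by positivity)
  obtain ⟨K2, hK2, hl2⟩ := hl e (η / 2) he (by positivity)
  obtain ⟨K1, hK1, hc1⟩ := hc η hη
  have hp2 : (0:ℝ) < 2 ^ D.p := by positivity
  have hk : 0 ≤ 16 * e := by positivity
  refine ⟨e, 2 ^ D.p * (1 + K1 * K2), he, by linarith, by positivity, ?_, ?_, ?_⟩
  · intro b v τ M hb hbe hv hM
    obtain ⟨hr0, hr1, -⟩ := Pt.near_all (l := |v|) hθ0 hθ1 hC hT0 hS (abs_nonneg v) hb hM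
    obtain ⟨Z, hZ, hZm, hZc, -⟩ := hz τ
    have hLτ := Pt.one_lt_Lg τ
    have es : (1 / 2 + ((τ + v : ℝ) : ℂ) * I : ℂ) = ((1 / 2 : ℝ) : ℂ) + ((τ + v : ℝ) : ℂ) * I := by push_cast; ring
    have es' : (1 / 2 + b + τ * I : ℂ) = ((1 / 2 + b : ℝ) : ℂ) + (τ : ℂ) * I := by push_cast; ring
    set s : ℂ := 1 / 2 + ((τ + v : ℝ) : ℂ) * I with hs
    set s' : ℂ := 1 / 2 + b + τ * I with hs'
    have h0 : D.Zs s' ≠ 0 := h.zero s' (by rw [es']; simp; linarith)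
    have hss : ‖s' - s‖ ≤ 2 * e := by
      have e1 : s' - s = (b : ℂ) - (v : ℂ) * I := by rw [hs, hs']; push_cast; ring
      rw [e1]
      refine (norm_sub_le _ _).trans ?_
      rw [norm_mul, Complex.norm_I, mul_one, Complex.norm_real, Complex.norm_real, Real.norm_eq_abs,
        Real.norm_eq_abs, abs_of_pos hb]
      linarith
    have hd1 : ‖s - (5 / 2 + τ * I)‖ ≤ 17 / 8 := by
      have e1 : s - (5 / 2 + τ * I) = ((-2 : ℝ) : ℂ) + (v : ℂ) * I := by rw [hs]; push_cast; ring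
      rw [e1]
      refine (norm_add_le _ _).trans ?_
      rw [norm_mul, Complex.norm_I, mul_one, Complex.norm_real, Complex.norm_real, Real.norm_eq_abs,
        Real.norm_eq_abs]
      have : |(-2 : ℝ)| = 2 := by norm_num
      rw [this]
      linarith
    have hd2 : ‖s' - (5 / 2 + τ * I)‖ ≤ 17 / 8 := by
      have e1 : s' - (5 / 2 + τ * I) = ((b - 2 : ℝ) : ℂ) := by rw [hs']; push_cast; ring
      rw [e1, Complex.norm_real, Real.norm_eq_abs, abs_le]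
      constructor <;> linarith
    have hcmp := hZc s s' hd1 hd2
    have hcc : ∀ ρ ∈ Z, ‖s - ρ‖ ≤ ‖s' - ρ‖ *
        Real.exp (if 3 / 8 ≤ ρ.re then Pn |v| b (rad θ T0 τ) (Pt.yy τ ρ) else 16 * e) := by
      intro ρ hρ
      obtain ⟨hρ0, hρ1⟩ := (hZ ρ).1 hρ
      obtain ⟨hρ2, hρ3⟩ := Pt.pos h hρ0 hρ1
      have hy : Pt.yy τ ρ ≤ ‖s' - ρ‖ := by
        rw [es']
        exact Pt.yy_dist (by linarith) ρ
      have hbB : b ≤ ‖s' - ρ‖ := by
        have h4 := Pt.re_dist (1 / 2 + b) τ ρ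
        rw [← es'] at h4
        linarith
      split_ifs with h1
      · refine Pt.cmp_Pn ?_ hb ?_ (abs_nonneg v) ?_ (norm_nonneg _) hr0.le (Pt.yy_nonneg τ ρ) ?_
        · -- `‖s - ρ‖ ≤ ‖s' - ρ‖ + |v|`
          have h2 : s - ρ = (((1 / 2 : ℝ) : ℂ) + (τ : ℂ) * I - ρ) + (v : ℂ) * I := by
            rw [es]; push_cast; ring
          rw [h2]
          refine (norm_add_le _ _).trans ?_
          rw [norm_mul, Complex.norm_I, mul_one, Complex.norm_real, Real.norm_eq_abs]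
          refine add_le_add ?_ le_rfl
          refine (pow_le_pow_iff_left₀ (norm_nonneg _) (norm_nonneg _) two_ne_zero).1 ?_
          rw [es', Pt.norm_sq', Pt.norm_sq']
          have h3 : 0 ≤ 1 / 2 - ρ.re := by linarith
          nlinarith
        · rw [mul_div_assoc', le_div_iff₀ hb, mul_comm]
          exact mul_le_mul_of_nonneg_right hbB (abs_nonneg v)
        · intro hry
          have hy0 : 0 < Pt.yy τ ρ := lt_of_le_of_lt hr0.le hry
          rw [mul_div_assoc', le_div_iff₀ hy0, mul_comm]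
          exact mul_le_mul_of_nonneg_right hy (abs_nonneg v)
        · have := (Pt.yy_le (τ := τ) (ρ := ρ) (r := 1)).2 ⟨hρ3, by linarith⟩
          rwa [abs_of_nonneg (Pt.yy_nonneg τ ρ)] at this
      · have h3 : 1 / 8 ≤ ‖s' - ρ‖ := by
          have h4 := Pt.re_dist (1 / 2 + b) τ ρ
          rw [← es'] at h4
          linarith [not_le.1 h1]
        refine Pt.far_cmp (d := 2 * e) ?_ ?_ (norm_nonneg _)
        · have := norm_add_le (s' - ρ) (s - s')
          have e1 : s' - ρ + (s - s') = s - ρ := by ring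
          rw [e1, norm_sub_rev s s'] at this
          linarith
        · nlinarith
    have hR := Pt.ratio (fun ρ hρ => ((hZ ρ).1 hρ).1) hcmp h0 hcc
    have hcost := Pt.cost h hZ hZm hθ0 hθ1 hC hT0 hS (l := |v|) (β := b) (k := 16 * e) (abs_nonneg v) hb hk hM
    have hs1 : D.P - 1 / 2 ≤ ‖s - D.P‖ := by
      rw [es]
      exact Pt.dist_P (by linarith)
    have hfin := Pt.L_fz (Pt.two_close hs1 (hss.trans (by linarith))) (by linarith) h0 hR (Real.exp_pos _).le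
    refine hfin.trans ?_
    have hE : Real.exp (C1 * Lg τ * ‖s - s'‖ + ∑ ρ ∈ Z, (D.mu ρ : ℝ) *
        (if 3 / 8 ≤ ρ.re then Pn |v| b (rad θ T0 τ) (Pt.yy τ ρ) else 16 * e)) ≤
        Real.exp (η * Lg τ + M * Real.log (1 + |v| / b)) := by
      rw [Real.exp_le_exp]
      have q1 : C1 * Lg τ * ‖s - s'‖ ≤ C1 * Lg τ * (2 * e) := by
        rw [norm_sub_rev]
        exact mul_le_mul_of_nonneg_left hss (by positivity)
      have q2 : 5 * C * Real.sqrt |v| * Lg τ ≤ η / 4 * Lg τ := by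
        refine mul_le_mul_of_nonneg_right (le_trans ?_ he5) (by linarith)
        exact mul_le_mul_of_nonneg_left (Real.sqrt_le_sqrt hv) (by positivity)
      have q3 : C1 * Lg τ * (2 * e) + 16 * e * (C1 * Lg τ) = 18 * e * C1 * Lg τ := by ring
      have q4 := mul_le_mul_of_nonneg_right he3 (by linarith : 0 ≤ Lg τ)
      have q5 : 0 ≤ η * Lg τ := by positivity
      linarith
    calc 2 ^ D.p * Real.exp (C1 * Lg τ * ‖s - s'‖ + ∑ ρ ∈ Z, (D.mu ρ : ℝ) *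
        (if 3 / 8 ≤ ρ.re then Pn |v| b (rad θ T0 τ) (Pt.yy τ ρ) else 16 * e)) ≤
        2 ^ D.p * Real.exp (η * Lg τ + M * Real.log (1 + |v| / b)) := mul_le_mul_of_nonneg_left hE hp2.le
      _ ≤ 2 ^ D.p * (1 + K1 * K2) * Real.exp (η * Lg τ + M * Real.log (1 + |v| / b)) := by
          refine mul_le_mul_of_nonneg_right ?_ (Real.exp_pos _).le
          refine le_mul_of_one_le_right hp2.le ?_
          have : 0 ≤ K1 * K2 := by positivity
          linarith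
  · intro t M z hze hfar hM
    have h2e : 0 < 2 * e := by positivity
    obtain ⟨hr0, hr1, -⟩ := Pt.near_all (l := 2 * e) hθ0 hθ1 hC hT0 hS h2e.le h2e hM
    obtain ⟨Z, hZ, hZm, hZc, -⟩ := hz t
    have hLt := Pt.one_lt_Lg t
    have hM0 : 0 ≤ M := by
      have := hM ∅ (by simp)
      simpa using this
    by_cases h0 : D.Zs (1 / 2 + t * I + z) = 0
    · have : D.fz (1 / 2 + t * I + z) = 0 := by
        unfold Dat.fz
        rw [h0, div_zero]
      rw [this, norm_zero, mul_zero]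
      positivity
    have es : (1 / 2 + (t : ℂ) * I : ℂ) = ((1 / 2 : ℝ) : ℂ) + (t : ℂ) * I := by push_cast; ring
    set s : ℂ := 1 / 2 + (t : ℂ) * I with hs
    set s' : ℂ := s + z with hs'
    have hss : ‖s' - s‖ ≤ e := by
      have e1 : s' - s = z := by rw [hs']; ring
      rw [e1]
      exact hze
    have hss' : ‖s - s'‖ ≤ e := by rwa [norm_sub_rev]
    have hd0 : ‖s - (5 / 2 + t * I)‖ = 2 := by
      have e1 : s - (5 / 2 + t * I) = ((-2 : ℝ) : ℂ) := by rw [hs]; push_cast; ring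
      rw [e1, Complex.norm_real, Real.norm_eq_abs]
      norm_num
    have hd1 : ‖s - (5 / 2 + t * I)‖ ≤ 17 / 8 := by rw [hd0]; norm_num
    have hd2 : ‖s' - (5 / 2 + t * I)‖ ≤ 17 / 8 := by
      have e1 : s' - (5 / 2 + t * I) = (s - (5 / 2 + t * I)) + z := by rw [hs']; ring
      rw [e1]
      refine (norm_add_le _ _).trans ?_
      rw [hd0]
      linarith
    have hcmp := hZc s s' hd1 hd2
    have hcc : ∀ ρ ∈ Z, ‖s - ρ‖ ≤ ‖s' - ρ‖ *
        Real.exp (if 3 / 8 ≤ ρ.re then Pn (2 * e) (2 * e) (rad θ T0 t) (Pt.yy t ρ) else 16 * e) := by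
      intro ρ hρ
      obtain ⟨hρ0, hρ1⟩ := (hZ ρ).1 hρ
      obtain ⟨hρ2, hρ3⟩ := Pt.pos h hρ0 hρ1
      have htri : ‖s - ρ‖ ≤ ‖s' - ρ‖ + ‖z‖ := by
        have e1 : s - ρ = (s' - ρ) - z := by rw [hs']; ring
        rw [e1]
        exact norm_sub_le _ _
      split_ifs with h1
      · have h2 := hfar ρ ⟨hρ0, h1⟩ hρ3
        have hy : Pt.yy t ρ ≤ ‖s - ρ‖ := by
          rw [es]
          exact Pt.yy_dist le_rfl ρ
        have hBz : ‖z‖ ≤ ‖s' - ρ‖ := by linarith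
        have hBy : Pt.yy t ρ ≤ 2 * ‖s' - ρ‖ := by linarith
        unfold Pn
        rw [abs_of_nonneg (Pt.yy_nonneg t ρ)]
        split_ifs with h3 h4
        · have e1 : (1 : ℝ) + 2 * e / (2 * e) = 2 := by
            rw [div_self h2e.ne']; norm_num
          rw [e1, Real.exp_log (by norm_num)]
          linarith
        · have hy0 : 0 < Pt.yy t ρ := lt_of_le_of_lt hr0.le (not_le.1 h3)
          have h5 := log_one_add_le_sqrt (u := 2 * e / Pt.yy t ρ) (by positivity)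
          have h6 : 1 + 2 * e / Pt.yy t ρ ≤ Real.exp (Real.sqrt (2 * e / Pt.yy t ρ)) := by
            rwa [← Real.log_le_iff_le_exp (by positivity)]
          refine le_trans ?_ (mul_le_mul_of_nonneg_left h6 (norm_nonneg _))
          have h7 : e ≤ ‖s' - ρ‖ * (2 * e / Pt.yy t ρ) := by
            rw [mul_div_assoc', le_div_iff₀ hy0]
            nlinarith
          rw [mul_add, mul_one]
          linarith
        · exfalso
          apply h4
          have := (Pt.yy_le (τ := t) (ρ := ρ) (r := 1)).2 ⟨hρ3, by linarith⟩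
          rwa [abs_of_nonneg (Pt.yy_nonneg t ρ)] at this
      · have h3 : 1 / 16 ≤ ‖s' - ρ‖ := by
          have h4 := Pt.re_dist (1 / 2) t ρ
          rw [← es] at h4
          linarith [not_le.1 h1]
        refine Pt.far_cmp (d := e) ?_ ?_ (norm_nonneg _)
        · linarith
        · nlinarith
    have hR := Pt.ratio (fun ρ hρ => ((hZ ρ).1 hρ).1) hcmp h0 hcc
    have hcost := Pt.cost h hZ hZm hθ0 hθ1 hC hT0 hS (l := 2 * e) (β := 2 * e) (k := 16 * e) h2e.le h2e hk hM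
    have hs1 : D.P - 1 / 2 ≤ ‖s - D.P‖ := by
      rw [es]
      exact Pt.dist_P (by linarith)
    have hfin := Pt.L_fz (Pt.two_close hs1 (hss.trans (by linarith))) (by linarith) h0 hR (Real.exp_pos _).le
    refine hfin.trans ?_
    have hE : Real.exp (C1 * Lg t * ‖s - s'‖ + ∑ ρ ∈ Z, (D.mu ρ : ℝ) *
        (if 3 / 8 ≤ ρ.re then Pn (2 * e) (2 * e) (rad θ T0 t) (Pt.yy t ρ) else 16 * e)) ≤
        Real.exp (η * Lg t + M) := by
      rw [Real.exp_le_exp]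
      have q0 : M * Real.log (1 + 2 * e / (2 * e)) ≤ M := by
        have e1 : (1 : ℝ) + 2 * e / (2 * e) = 2 := by
          rw [div_self h2e.ne']; norm_num
        rw [e1]
        have : Real.log 2 ≤ 1 := by
          have := Real.log_two_lt_d9
          linarith
        exact mul_le_of_le_one_right hM0 this
      have q1 : C1 * Lg t * ‖s - s'‖ ≤ C1 * Lg t * (2 * e) := by
        exact mul_le_mul_of_nonneg_left (hss'.trans (by linarith)) (by positivity)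
      have q2 : 5 * C * Real.sqrt (2 * e) * Lg t ≤ η / 4 * Lg t :=
        mul_le_mul_of_nonneg_right he4 (by linarith)
      have q3 : C1 * Lg t * (2 * e) + 16 * e * (C1 * Lg t) = 18 * e * C1 * Lg t := by ring
      have q4 := mul_le_mul_of_nonneg_right he3 (by linarith : 0 ≤ Lg t)
      have q5 : 0 ≤ η * Lg t := by positivity
      linarith
    calc 2 ^ D.p * Real.exp (C1 * Lg t * ‖s - s'‖ + ∑ ρ ∈ Z, (D.mu ρ : ℝ) *
        (if 3 / 8 ≤ ρ.re then Pn (2 * e) (2 * e) (rad θ T0 t) (Pt.yy t ρ) else 16 * e)) ≤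
        2 ^ D.p * Real.exp (η * Lg t + M) := mul_le_mul_of_nonneg_left hE hp2.le
      _ ≤ 2 ^ D.p * (1 + K1 * K2) * Real.exp (η * Lg t + M) := by
          refine mul_le_mul_of_nonneg_right ?_ (Real.exp_pos _).le
          refine le_mul_of_one_le_right hp2.le ?_
          have : 0 ≤ K1 * K2 := by positivity
          linarith
  · intro b t τ M hb hbe hM
    obtain ⟨hr0, hr1, -⟩ := Pt.near_all (l := e) hθ0 hθ1 hC hT0 hS he.le hb hM
    obtain ⟨Z, hZ, hZm, hZc, -⟩ := hz τ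
    have hLτ := Pt.one_lt_Lg τ
    have hLt := Pt.one_lt_Lg t
    have es : (1 / 2 + e + (τ : ℂ) * I : ℂ) = ((1 / 2 + e : ℝ) : ℂ) + (τ : ℂ) * I := by push_cast; ring
    have es' : (1 / 2 + b + τ * I : ℂ) = ((1 / 2 + b : ℝ) : ℂ) + (τ : ℂ) * I := by push_cast; ring
    set s : ℂ := 1 / 2 + e + τ * I with hs
    set s' : ℂ := 1 / 2 + b + τ * I with hs'
    have hs0 : D.Zs s ≠ 0 := h.zero s (by rw [es]; simp; linarith)
    have hs'0 : D.Zs s' ≠ 0 := h.zero s' (by rw [es']; simp; linarith)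
    have hss : ‖s' - s‖ ≤ e := by
      have e1 : s' - s = ((b - e : ℝ) : ℂ) := by rw [hs, hs']; push_cast; ring
      rw [e1, Complex.norm_real, Real.norm_eq_abs, abs_le]
      constructor <;> linarith
    have hd1 : ‖s - (5 / 2 + τ * I)‖ ≤ 17 / 8 := by
      have e1 : s - (5 / 2 + τ * I) = ((e - 2 : ℝ) : ℂ) := by rw [hs]; push_cast; ring
      rw [e1, Complex.norm_real, Real.norm_eq_abs, abs_le]
      constructor <;> linarith
    have hd2 : ‖s' - (5 / 2 + τ * I)‖ ≤ 17 / 8 := by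
      have e1 : s' - (5 / 2 + τ * I) = ((b - 2 : ℝ) : ℂ) := by rw [hs']; push_cast; ring
      rw [e1, Complex.norm_real, Real.norm_eq_abs, abs_le]
      constructor <;> linarith
    have hcmp := hZc s s' hd1 hd2
    have hcc : ∀ ρ ∈ Z, ‖s - ρ‖ ≤ ‖s' - ρ‖ *
        Real.exp (if 3 / 8 ≤ ρ.re then Pn e b (rad θ T0 τ) (Pt.yy τ ρ) else 16 * e) := by
      intro ρ hρ
      obtain ⟨hρ0, hρ1⟩ := (hZ ρ).1 hρ
      obtain ⟨hρ2, hρ3⟩ := Pt.pos h hρ0 hρ1
      have htri : ‖s - ρ‖ ≤ ‖s' - ρ‖ + e := by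
        have := norm_add_le (s' - ρ) (s - s')
        have e1 : s' - ρ + (s - s') = s - ρ := by ring
        rw [e1, norm_sub_rev s s'] at this
        linarith
      have hy : Pt.yy τ ρ ≤ ‖s' - ρ‖ := by
        rw [es']
        exact Pt.yy_dist (by linarith) ρ
      have hbB : b ≤ ‖s' - ρ‖ := by
        have h4 := Pt.re_dist (1 / 2 + b) τ ρ
        rw [← es'] at h4
        linarith
      split_ifs with h1
      · refine Pt.cmp_Pn htri hb ?_ he.le ?_ (norm_nonneg _) hr0.le (Pt.yy_nonneg τ ρ) ?_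
        · rw [mul_div_assoc', le_div_iff₀ hb, mul_comm]
          exact mul_le_mul_of_nonneg_right hbB he.le
        · intro hry
          have hy0 : 0 < Pt.yy τ ρ := lt_of_le_of_lt hr0.le hry
          rw [mul_div_assoc', le_div_iff₀ hy0, mul_comm]
          exact mul_le_mul_of_nonneg_right hy he.le
        · have := (Pt.yy_le (τ := τ) (ρ := ρ) (r := 1)).2 ⟨hρ3, by linarith⟩
          rwa [abs_of_nonneg (Pt.yy_nonneg τ ρ)] at this
      · have h3 : 1 / 8 ≤ ‖s' - ρ‖ := by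
          have h4 := Pt.re_dist (1 / 2 + b) τ ρ
          rw [← es'] at h4
          linarith [not_le.1 h1]
        refine Pt.far_cmp (d := 2 * e) ?_ ?_ (norm_nonneg _)
        · linarith
        · nlinarith
    have hR := Pt.ratio (fun ρ hρ => ((hZ ρ).1 hρ).1) hcmp hs'0 hcc
    have hcost := Pt.cost h hZ hZm hθ0 hθ1 hC hT0 hS (l := e) (β := b) (k := 16 * e) he.le hb hk hM
    have hs1 : D.P - (1 / 2 + e) ≤ ‖s - D.P‖ := by
      rw [es]
      exact Pt.dist_P (by linarith)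
    have hfin := Pt.fz_fz (Pt.two_close hs1 (hss.trans (by linarith))) hs0 hs'0 hR (Real.exp_pos _).le
    have hfe : ‖D.fz s‖ ≤ K2 * Real.exp (η / 2 * Lg τ) := by
      have h1 := (hl2 s (by rw [es]; simp)).2
      have h2 : s.im = τ := by rw [es]; simp
      rwa [h2] at h1
    have hM0 : 0 ≤ M := by
      have := hM ∅ (by simp)
      simpa using this
    have hE : Real.exp (C1 * Lg τ * ‖s - s'‖ + ∑ ρ ∈ Z, (D.mu ρ : ℝ) *
        (if 3 / 8 ≤ ρ.re then Pn e b (rad θ T0 τ) (Pt.yy τ ρ) else 16 * e)) ≤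
        Real.exp (η / 2 * Lg τ + M * Real.log (1 + 1 / b)) := by
      rw [Real.exp_le_exp]
      have q0 : M * Real.log (1 + e / b) ≤ M * Real.log (1 + 1 / b) := by
        refine mul_le_mul_of_nonneg_left (Real.log_le_log (by positivity) ?_) hM0
        have : e / b ≤ 1 / b := div_le_div_of_nonneg_right (by linarith) hb.le
        linarith
      have q1 : C1 * Lg τ * ‖s - s'‖ ≤ C1 * Lg τ * (2 * e) := by
        rw [norm_sub_rev]
        exact mul_le_mul_of_nonneg_left (hss.trans (by linarith)) (by positivity)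
      have q2 : 5 * C * Real.sqrt e * Lg τ ≤ η / 4 * Lg τ :=
        mul_le_mul_of_nonneg_right he5 (by linarith)
      have q3 : C1 * Lg τ * (2 * e) + 16 * e * (C1 * Lg τ) = 18 * e * C1 * Lg τ := by ring
      have q4 := mul_le_mul_of_nonneg_right he3 (by linarith : 0 ≤ Lg τ)
      linarith
    have h1 := hc1 t
    calc ‖D.L (1 / 2 + t * I)‖ * ‖D.fz s'‖ ≤ (K1 * Real.exp (η * Lg t)) *
        (2 ^ D.p * Real.exp (η / 2 * Lg τ + M * Real.log (1 + 1 / b)) * (K2 * Real.exp (η / 2 * Lg τ))) := by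
          refine mul_le_mul h1 (hfin.trans ?_) (norm_nonneg _) (by positivity)
          exact mul_le_mul (mul_le_mul_of_nonneg_left hE hp2.le) hfe (norm_nonneg _) (by positivity)
      _ = 2 ^ D.p * (K1 * K2) * (Real.exp (η * Lg t) * (Real.exp (η / 2 * Lg τ + M * Real.log (1 + 1 / b)) *
          Real.exp (η / 2 * Lg τ))) := by ring
      _ = 2 ^ D.p * (K1 * K2) * Real.exp (η * Lg t + η * Lg τ + M * Real.log (1 + 1 / b)) := by
          rw [← Real.exp_add, ← Real.exp_add]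
          congr 2
          ring
      _ ≤ 2 ^ D.p * (1 + K1 * K2) * Real.exp (η * Lg t + η * Lg τ + M * Real.log (1 + 1 / b)) := by
          refine mul_le_mul_of_nonneg_right (mul_le_mul_of_nonneg_left ?_ hp2.le) (Real.exp_pos _).le
          linarith

end Pool.Agent.N967.H
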