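import Mathlib
import Pool.Agent.N967.H.Stm

set_option autoImplicit false

/-!
# The pointwise bound for `1 - F`, with all near zeros (task BD6/pw; port of `G/Pw` by helper769, by helper849)
-/

namespace Pool.Agent.N967.H

open Complex MeasureTheory
open Pool.Agent.Y23 (Lg)
open Pool.Agent.N967 (rad)

namespace Pw

open Set

lemma Lg_shift (t v : ℝ) : Lg (t + v) ≤ Lg t + Real.log (1 + |v|) := by
  unfold Lg
  rw [← Real.log_mul (by positivity) (by positivity)]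
  refine Real.log_le_log (by positivity) ?_
  have := abs_add_le t v
  nlinarith [abs_nonneg t, abs_nonneg v, mul_nonneg (abs_nonneg t) (abs_nonneg v)]

lemma Lg_near {t m : ℝ} (h : |t - m| ≤ 2) : Lg t ≤ Lg m + 2 := by
  have h1 := Lg_shift m (t - m)
  rw [add_sub_cancel] at h1
  have h2 : Real.log (1 + |t - m|) ≤ |t - m| := by
    have := Real.log_le_sub_one_of_pos (show 0 < 1 + |t - m| by positivity)
    linarith
  linarith

lemma one_sub_sq (z : ℂ) : ‖1 - z‖ ^ 2 ≤ 2 + 2 * ‖z‖ ^ 2 := by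
  have h1 : ‖1 - z‖ ≤ 1 + ‖z‖ := by
    have := norm_sub_le (1 : ℂ) z
    rwa [norm_one] at this
  have h2 : ‖1 - z‖ ^ 2 ≤ (1 + ‖z‖) ^ 2 := pow_le_pow_left₀ (norm_nonneg _) h1 2
  nlinarith [sq_nonneg (1 - ‖z‖)]

lemma enlarge {a c E X : ℝ} (hc : 0 ≤ c) (hE : 0 ≤ E) (hX : 0 ≤ X) : a * E * X ≤ (a + c) * E * X := by
  have h := mul_nonneg (mul_nonneg hc hE) hX
  have e : (a + c) * E * X = a * E * X + c * E * X := by ring
  rw [e]
  linarith

/-- the smallest distance to the points of `Z` -/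
lemma exists_d (Z : Finset ℂ) (s0 : ℂ) (e r : ℝ) (he : 0 < e) (hr : 0 < r) (hre : 4 * r ≤ e)
    (hZ : ∀ s ∈ Z, 4 * r < ‖s0 - s‖) :
    ∃ d : ℝ, 0 < d ∧ d ≤ e ∧ 4 * r ≤ d ∧ (∀ s ∈ Z, d ≤ ‖s0 - s‖) ∧
      1 / d ^ 2 ≤ 1 / e ^ 2 + ∑ s ∈ Z, 1 / ‖s0 - s‖ ^ 2 := by
  classical
  rcases Z.eq_empty_or_nonempty with h | h
  · subst h
    exact ⟨e, he, le_rfl, hre, by simp, by simp⟩
  · obtain ⟨s1, hs1, hmin⟩ := Z.exists_min_image (fun s => ‖s0 - s‖) h
    have hpos : 0 < ‖s0 - s1‖ := by linarith [hZ s1 hs1]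
    have hnn : 0 ≤ ∑ s ∈ Z, 1 / ‖s0 - s‖ ^ 2 := Finset.sum_nonneg fun s _ => by positivity
    have hle : 1 / ‖s0 - s1‖ ^ 2 ≤ ∑ s ∈ Z, 1 / ‖s0 - s‖ ^ 2 :=
      Finset.single_le_sum (f := fun s : ℂ => 1 / ‖s0 - s‖ ^ 2) (fun s _ => by positivity) hs1
    rcases le_total e ‖s0 - s1‖ with h1 | h1
    · exact ⟨e, he, le_rfl, hre, fun s hs => h1.trans (hmin s hs), by linarith⟩
    · refine ⟨‖s0 - s1‖, hpos, h1, (hZ s1 hs1).le, fun s hs => hmin s hs, ?_⟩
      have : 0 ≤ 1 / e ^ 2 := by positivity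
      linarith

/-- the order of `Zs` is finite to the right of the imaginary axis, and positive at the zeros -/
lemma mu_pos' {D : Dat} (h : Rp D) {s : ℂ} (hs0 : 0 < s.re) (hs : D.Zs s = 0) : 1 ≤ D.mu s := by
  have hopen : IsOpen {z : ℂ | 0 < z.re} := isOpen_lt continuous_const Complex.continuous_re
  have hpre : IsPreconnected {z : ℂ | 0 < z.re} := (convex_halfSpace_re_gt 0).isPreconnected
  have han : AnalyticOnNhd ℂ D.Zs {z : ℂ | 0 < z.re} :=
    DifferentiableOn.analyticOnNhd (fun z hz => (h.base.diff z hz).differentiableWithinAt) hopen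
  have h0 : analyticOrderAt D.Zs s ≠ 0 := by
    rw [(han s hs0).analyticOrderAt_ne_zero]
    exact hs
  have h1 : analyticOrderAt D.Zs s ≠ ⊤ := by
    intro htop
    rw [analyticOrderAt_eq_top] at htop
    have h2 := han.eqOn_zero_of_preconnected_of_eventuallyEq_zero hpre hs0 htop
    have h3 : (1 : ℂ) ∈ {z : ℂ | 0 < z.re} := by
      show 0 < (1 : ℂ).re
      rw [Complex.one_re]
      exact one_pos
    exact h.zero 1 (by rw [Complex.one_re]; norm_num) (h2 h3)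
  unfold Dat.mu
  rw [Nat.one_le_iff_ne_zero]
  intro h2
  unfold analyticOrderNatAt at h2
  rw [ENat.toNat_eq_zero] at h2
  rcases h2 with h2 | h2
  · exact h0 h2
  · exact h1 h2

/-- the multiplicity of a near zero is positive -/
lemma mu_pos {D : Dat} (h : Rp D) {s : ℂ} (hs : D.Nz s) : 1 ≤ D.mu s :=
  mu_pos' h (by linarith [hs.2]) hs.1

/-- a near zero is not to the right of the line -/
lemma near_re {D : Dat} (h : Rp D) {s : ℂ} (hs : D.Nz s) : s.re ≤ 1 / 2 := by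
  by_contra hcon
  exact h.zero s (not_le.mp hcon) hs.1

/-- the near zeros at distance `≤ r` from the height `m` -/
lemma near_fin {D : Dat} (h : Rp D) (m r : ℝ) : ∃ Z : Finset ℂ, ∀ s, s ∈ Z ↔ D.Nz s ∧ |s.im - m| ≤ r := by
  have hfin : {s : ℂ | D.Nz s ∧ |s.im - m| ≤ r}.Finite := by
    refine (h.fin (|m| + r)).subset ?_
    rintro s ⟨hs1, hs2⟩
    refine ⟨hs1, ?_⟩
    have := abs_sub_abs_le_abs_sub s.im m
    linarith
  exact ⟨hfin.toFinset, fun s => by rw [Set.Finite.mem_toFinset]; rfl⟩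

/-- a bound for the number of zeros in all small boxes -/
lemma cnt_all {D : Dat} (h : Rp D) {θ C T0 : ℝ} (hθ : 0 < θ) (hθ1 : θ ≤ 1) (hC : 0 < C)
    (hT0 : Real.exp 1 ≤ T0) (hS : D.Slope θ C T0) {η : ℝ} (hη : 0 < η) :
    ∃ C' : ℝ, 0 ≤ C' ∧ ∀ τ : ℝ, ∃ M : ℝ, 0 ≤ M ∧ D.Cnt τ (rad θ T0 τ) M ∧
      M * Real.log 2 ≤ η * Lg τ + C' := by
  obtain ⟨C0, hC0, hcnt⟩ := h.cnt
  have hT0' : 0 < T0 := (Real.exp_pos 1).trans_le hT0
  have hl2 : 0 < Real.log 2 := Real.log_pos (by norm_num)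
  have hl2' : Real.log 2 ≤ 1 := by
    have := Real.log_two_lt_d9
    linarith
  set A : ℝ := C * θ * Real.log 2 with hA
  have hA0 : 0 < A := by positivity
  refine ⟨A * Real.exp (A / η) + C0 * T0, by positivity, fun τ => ?_⟩
  by_cases h : T0 ≤ Lg τ
  · have hX : Real.exp 1 ≤ Lg τ := hT0.trans h
    have hl : 1 ≤ Real.log (Lg τ) := by
      rw [Real.le_log_iff_exp_le (by linarith [Pool.Agent.Y23.one_le_Lg τ])]
      exact hX
    have hX0 : 0 < Lg τ := by linarith [Pool.Agent.Y23.one_le_Lg τ]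
    refine ⟨C * (θ / Real.log (Lg τ)) * Lg τ, by positivity, ?_, ?_⟩
    · rw [rad, if_pos h]
      refine hS τ h _ le_rfl ?_
      rw [div_le_one (by linarith)]
      linarith
    · have e : C * (θ / Real.log (Lg τ)) * Lg τ * Real.log 2 = A * Lg τ / Real.log (Lg τ) := by
        rw [hA]
        field_simp
      rw [e, div_le_iff₀ (by linarith)]
      have h0 : 0 ≤ C0 * T0 := by positivity
      rcases le_or_gt (A / η) (Real.log (Lg τ)) with h1 | h1
      · rw [div_le_iff₀ hη] at h1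
        have h2 : 0 ≤ A * Real.exp (A / η) := by positivity
        nlinarith
      · have h2 : Lg τ < Real.exp (A / η) := by
          rwa [← Real.log_lt_iff_lt_exp hX0]
        have h3 : A * Lg τ ≤ A * Real.exp (A / η) := mul_le_mul_of_nonneg_left h2.le hA0.le
        have h4 : 0 ≤ η * Lg τ := by positivity
        have h5 : (η * Lg τ + (A * Real.exp (A / η) + C0 * T0)) * 1 ≤
            (η * Lg τ + (A * Real.exp (A / η) + C0 * T0)) * Real.log (Lg τ) :=
          mul_le_mul_of_nonneg_left hl (by positivity)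
        linarith
  · refine ⟨C0 * T0, by positivity, ?_, ?_⟩
    · rw [rad, if_neg h]
      intro S hS'
      have h1 := hcnt τ S (fun s hs => ⟨(hS' s hs).1, (hS' s hs).2.2⟩)
      have h2 : C0 * Lg τ ≤ C0 * T0 := mul_le_mul_of_nonneg_left (not_le.mp h).le hC0.le
      linarith
    · have h1 : C0 * T0 * Real.log 2 ≤ C0 * T0 * 1 := mul_le_mul_of_nonneg_left hl2' (by positivity)
      have h2 : 0 ≤ η * Lg τ := by
        have := Pool.Agent.Y23.one_le_Lg τ
        positivity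
      have h3 : 0 ≤ A * Real.exp (A / η) := by positivity
      linarith

/-- a bound for the number of zeros in all small boxes, without the logarithm of `2` -/
lemma cnt_all' {D : Dat} (h : Rp D) {θ C T0 : ℝ} (hθ : 0 < θ) (hθ1 : θ ≤ 1) (hC : 0 < C)
    (hT0 : Real.exp 1 ≤ T0) (hS : D.Slope θ C T0) {η : ℝ} (hη : 0 < η) :
    ∃ C' : ℝ, 0 ≤ C' ∧ ∀ τ : ℝ, ∃ M : ℝ, 0 ≤ M ∧ D.Cnt τ (rad θ T0 τ) M ∧ M ≤ η * Lg τ + C' := by
  obtain ⟨C', hC', hc⟩ := cnt_all h hθ hθ1 hC hT0 hS (half_pos hη)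
  refine ⟨2 * C', by positivity, fun τ => ?_⟩
  obtain ⟨M, hM0, hM1, hM2⟩ := hc τ
  refine ⟨M, hM0, hM1, ?_⟩
  have h1 := Real.log_two_gt_d9
  have h2 : M * (1 / 2) ≤ M * Real.log 2 := mul_le_mul_of_nonneg_left (by linarith) hM0
  linarith

/-- the inverse is differentiable away from the zeros -/
lemma fz_diff {D : Dat} (h : Rp D) {s : ℂ} (hs : 0 < s.re) (h0 : D.Zs s ≠ 0) : DifferentiableAt ℂ D.fz s := by
  unfold Dat.fz
  exact DifferentiableAt.div (by fun_prop) (h.base.diff _ hs) h0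

/-- the pointwise bound -/
lemma pointwise {D : Dat} (h : Rp D) {e' K' η θ T0 C' : ℝ} (he' : 0 < e') (he8 : e' ≤ 1 / 8) (hK' : 0 < K')
    (hη : 0 < η) (hη1 : η ≤ 1) (_hC' : 0 ≤ C')
    (near : ∀ b v τ M : ℝ, 0 < b → b ≤ e' → |v| ≤ e' → D.Cnt τ (rad θ T0 τ) M →
      ‖D.L (1 / 2 + ((τ + v : ℝ) : ℂ) * I)‖ * ‖D.fz (1 / 2 + b + τ * I)‖ ≤
        K' * Real.exp (η * Lg τ + M * Real.log (1 + |v| / b)))
    (near2 : ∀ (t M : ℝ) (z : ℂ), ‖z‖ ≤ e' →
      (∀ s : ℂ, D.Nz s → |s.im - t| ≤ 1 → 2 * ‖z‖ ≤ ‖(1 / 2 + t * I : ℂ) - s‖) →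
      D.Cnt t (rad θ T0 t) M →
      ‖D.L (1 / 2 + t * I)‖ * ‖D.fz (1 / 2 + t * I + z)‖ ≤ K' * Real.exp (η * Lg t + M))
    (hcnt : ∀ τ : ℝ, ∃ M : ℝ, 0 ≤ M ∧ D.Cnt τ (rad θ T0 τ) M ∧ M ≤ η * Lg τ + C') :
    ∃ K2 : ℝ, 0 < K2 ∧ ∀ (b v M t m : ℝ) (Z : Finset ℂ), (∀ s, s ∈ Z ↔ D.Nz s ∧ |s.im - m| ≤ 2) →
      0 < b → b ≤ e' / 16 → |v| ≤ e' / 16 → m ≤ t + v → t + v ≤ m + 1 →
      D.Cnt (t + v) (rad θ T0 (t + v)) M →
      ‖1 - D.Fr b v t‖ ^ 2 ≤ K2 * Real.exp (6 * η * Lg m + 2 * M * Real.log (1 + |v| / b)) *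
        ((b + |v|) ^ 2 + ∑ s ∈ Z, (b + |v|) ^ 2 / ((b + |v|) ^ 2 + ‖(1 / 2 + t * I : ℂ) - s‖ ^ 2)) := by
  classical
  set K3 : ℝ := 2 + K' * Real.exp (4 + C') with hK3
  have hK30 : 0 < K3 := by positivity
  refine ⟨17 * (2 + 2 * K' ^ 2 * Real.exp 4) + 16 * K3 ^ 2 / e' ^ 2, by positivity, ?_⟩
  intro b v M t m Z hZ hb hbe hve hm1 hm2 hM
  set r : ℝ := b + |v| with hr
  have hv0 : 0 ≤ |v| := abs_nonneg v
  have hr0 : 0 < r := by linarith
  have hr8 : 4 * r ≤ e' / 2 := by linarith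
  have hM0 : 0 ≤ M := by
    have := hM ∅ (by simp)
    simpa using this
  have hL1 := Pool.Agent.Y23.one_le_Lg m
  have hlog : 0 ≤ Real.log (1 + |v| / b) := Real.log_nonneg (by
    have : 0 ≤ |v| / b := by positivity
    linarith)
  have hvle : |v| ≤ 1 / 64 := by linarith
  have htm : |t - m| ≤ 5 / 4 := by
    rw [abs_le] at hvle ⊢
    constructor <;> linarith
  have hE1 : 1 ≤ Real.exp (6 * η * Lg m + 2 * M * Real.log (1 + |v| / b)) := by
    apply Real.one_le_exp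
    positivity
  set s0 : ℂ := 1 / 2 + t * I with hs0
  have hs0re : s0.re = 1 / 2 := by simp [hs0]
  have hs0im : s0.im = t := by simp [hs0]
  set S : ℝ := ∑ s ∈ Z, r ^ 2 / (r ^ 2 + ‖s0 - s‖ ^ 2) with hS
  have hS0 : 0 ≤ S := Finset.sum_nonneg fun s _ => by positivity
  set E : ℝ := Real.exp (6 * η * Lg m + 2 * M * Real.log (1 + |v| / b)) with hE
  by_cases hcase : ∃ s ∈ Z, ‖s0 - s‖ ≤ 4 * r
  · -- Case 1
    obtain ⟨s, hsZ, hs⟩ := hcase
    have hF : ‖D.Fr b v t‖ ≤ K' * Real.exp (η * Lg (t + v) + M * Real.log (1 + |v| / b)) := by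
      have h1 := near b (-v) (t + v) M hb (by linarith) (by rw [abs_neg]; linarith) hM
      rw [abs_neg, show t + v + -v = t by ring] at h1
      rw [Dat.Fr, norm_mul]
      exact h1
    have hLg : Lg (t + v) ≤ Lg m + 2 := by
      apply Lg_near
      rw [abs_le]
      constructor <;> linarith
    have hF2 : ‖D.Fr b v t‖ ^ 2 ≤ K' ^ 2 * Real.exp 4 * E := by
      have h1 : ‖D.Fr b v t‖ ^ 2 ≤ (K' * Real.exp (η * Lg (t + v) + M * Real.log (1 + |v| / b))) ^ 2 :=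
        pow_le_pow_left₀ (norm_nonneg _) hF 2
      refine h1.trans ?_
      rw [mul_pow, ← Real.exp_nat_mul, mul_assoc, hE, ← Real.exp_add]
      refine mul_le_mul_of_nonneg_left ?_ (by positivity)
      rw [Real.exp_le_exp]
      push_cast
      have h2 : η * Lg (t + v) ≤ η * (Lg m + 2) := mul_le_mul_of_nonneg_left hLg hη.le
      have h3 : 0 ≤ η * Lg m := by positivity
      linarith
    have h1F : ‖1 - D.Fr b v t‖ ^ 2 ≤ 2 + 2 * ‖D.Fr b v t‖ ^ 2 := one_sub_sq _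
    have hSge : 1 / 17 ≤ S := by
      have h1 : r ^ 2 / (r ^ 2 + ‖s0 - s‖ ^ 2) ≤ S :=
        Finset.single_le_sum (f := fun s : ℂ => r ^ 2 / (r ^ 2 + ‖s0 - s‖ ^ 2))
          (fun s _ => by positivity) hsZ
      refine le_trans ?_ h1
      have h2 : ‖s0 - s‖ ^ 2 ≤ (4 * r) ^ 2 := pow_le_pow_left₀ (norm_nonneg _) hs 2
      have h3 : (4 * r) ^ 2 = 16 * r ^ 2 := by ring
      rw [div_le_div_iff₀ (by norm_num) (by positivity)]
      linarith
    have hD : 0 ≤ 2 + 2 * K' ^ 2 * Real.exp 4 := by positivity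
    have h17 : 1 ≤ 17 * (r ^ 2 + S) := by
      have := sq_nonneg r
      linarith
    calc ‖1 - D.Fr b v t‖ ^ 2 ≤ 2 + 2 * ‖D.Fr b v t‖ ^ 2 := h1F
      _ ≤ 2 * E + 2 * (K' ^ 2 * Real.exp 4 * E) := by linarith
      _ = (2 + 2 * K' ^ 2 * Real.exp 4) * E * 1 := by ring
      _ ≤ (2 + 2 * K' ^ 2 * Real.exp 4) * E * (17 * (r ^ 2 + S)) :=
          mul_le_mul_of_nonneg_left h17 (by positivity)
      _ = (17 * (2 + 2 * K' ^ 2 * Real.exp 4)) * E * (r ^ 2 + S) := by ring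
      _ ≤ (17 * (2 + 2 * K' ^ 2 * Real.exp 4) + 16 * K3 ^ 2 / e' ^ 2) * E * (r ^ 2 + S) := by
          exact enlarge (by positivity) (by positivity) (by positivity)
  · -- Case 2
    push Not at hcase
    obtain ⟨d, hd0, hde, hrd, hdZ, hdinv⟩ := exists_d Z s0 (e' / 2) r (by positivity) hr0 hr8 hcase
    have hd16 : d ≤ 1 / 16 := by linarith
    have hfar : ∀ s : ℂ, D.Nz s → d ≤ ‖s0 - s‖ := by
      intro s hs
      by_cases hsZ : s ∈ Z
      · exact hdZ s hsZ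
      · have h1 : 2 < |s.im - m| := by
          by_contra h
          exact hsZ ((hZ s).mpr ⟨hs, not_lt.mp h⟩)
        have h2 : |s.im - m| ≤ |t - s.im| + |t - m| := by
          have := abs_sub_le s.im t m
          rwa [abs_sub_comm s.im t] at this
        have h3 : |t - s.im| ≤ ‖s0 - s‖ := by
          have h4 := Complex.abs_im_le_norm (s0 - s)
          rwa [Complex.sub_im, hs0im] at h4
        linarith
    set f : ℂ → ℂ := fun z => 1 - D.L s0 * D.fz (s0 + z) with hf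
    have hZs : ∀ z : ℂ, ‖z‖ < d → D.Zs (s0 + z) ≠ 0 := by
      intro z hz h0
      have hre := (Complex.abs_re_le_norm z).trans_lt hz
      rw [abs_lt] at hre
      have hre1 : (s0 + z).re = 1 / 2 + z.re := by rw [Complex.add_re, hs0re]
      have h2 := hfar (s0 + z) ⟨h0, by rw [hre1]; linarith⟩
      rw [show s0 - (s0 + z) = -z by ring, norm_neg] at h2
      linarith
    have hfd : DifferentiableOn ℂ f (Metric.ball 0 (d / 2)) := by
      intro z hz
      rw [mem_ball_zero_iff] at hz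
      have hre := (Complex.abs_re_le_norm z).trans_lt hz
      rw [abs_lt] at hre
      have hre1 : (s0 + z).re = 1 / 2 + z.re := by rw [Complex.add_re, hs0re]
      have h1 : DifferentiableAt ℂ D.fz (s0 + z) :=
        fz_diff h (by rw [hre1]; linarith) (hZs z (by linarith))
      have h2 : DifferentiableAt ℂ (fun z => D.fz (s0 + z)) z :=
        h1.comp z ((differentiableAt_const s0).add differentiableAt_id)
      exact ((differentiableAt_const (1 : ℂ)).sub (h2.const_mul _)).differentiableWithinAt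
    have hne1 : s0 ≠ D.P := by
      intro hcon
      have h2 := congrArg Complex.re hcon
      rw [hs0re, Complex.ofReal_re] at h2
      have h3 := h.base.hP
      linarith
    have hzeta : D.Zs s0 ≠ 0 := by
      have := hZs 0 (by rwa [norm_zero])
      rwa [add_zero] at this
    have hf0 : f 0 = 0 := by
      rw [hf]
      simp only [add_zero]
      have h1 : s0 - D.P ≠ 0 := sub_ne_zero.mpr hne1
      unfold Dat.L Dat.fz
      field_simp
      ring
    set B : ℝ := K3 * Real.exp (2 * η * Lg m) with hB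
    have hexp1 : 1 ≤ Real.exp (2 * η * Lg m) := Real.one_le_exp (by positivity)
    have hbound : ∀ z : ℂ, ‖z‖ < d / 2 → ‖f z‖ ≤ B := by
      intro z hz
      obtain ⟨M', hM'0, hM'1, hM'2⟩ := hcnt t
      have h1 := near2 t M' z (by linarith) (fun s hs _ => by
        have h2 := hfar s hs
        linarith) hM'1
      have h3 : Lg t ≤ Lg m + 2 := Lg_near (by linarith)
      have h5 : Real.exp (η * Lg t + M') ≤ Real.exp (4 + C') * Real.exp (2 * η * Lg m) := by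
        rw [← Real.exp_add, Real.exp_le_exp]
        have h6 : η * Lg t ≤ η * (Lg m + 2) := mul_le_mul_of_nonneg_left h3 hη.le
        linarith
      have h7 : ‖f z‖ ≤ 1 + ‖D.L s0‖ * ‖D.fz (s0 + z)‖ := by
        rw [hf, ← norm_mul]
        have := norm_sub_le (1 : ℂ) (D.L s0 * D.fz (s0 + z))
        rwa [norm_one] at this
      have h8 : K' * Real.exp (η * Lg t + M') ≤
          K' * (Real.exp (4 + C') * Real.exp (2 * η * Lg m)) := mul_le_mul_of_nonneg_left h5 hK'.le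
      have h9 : (2 + K' * Real.exp (4 + C')) * Real.exp (2 * η * Lg m) =
          2 * Real.exp (2 * η * Lg m) + K' * (Real.exp (4 + C') * Real.exp (2 * η * Lg m)) := by ring
      rw [hB, hK3, h9]
      linarith
    have hw : ‖((b : ℂ) + (v : ℂ) * I)‖ ≤ r := by
      refine (norm_add_le _ _).trans ?_
      rw [norm_mul, Complex.norm_I, mul_one, Complex.norm_real, Complex.norm_real, Real.norm_eq_abs,
        Real.norm_eq_abs, abs_of_pos hb]
    have hwb : ((b : ℂ) + (v : ℂ) * I) ∈ Metric.ball (0 : ℂ) (d / 2) := by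
      rw [mem_ball_zero_iff]
      linarith
    have hsch := Complex.dist_le_div_mul_dist_of_mapsTo_ball (f := f) (R₁ := d / 2) (R₂ := B) hfd (by
      intro z hz
      rw [mem_ball_zero_iff] at hz
      rw [hf0, mem_closedBall_zero_iff]
      exact hbound z hz) hwb
    rw [hf0, dist_zero_right, dist_zero_right] at hsch
    have hfw : f ((b : ℂ) + (v : ℂ) * I) = 1 - D.Fr b v t := by
      rw [hf, Dat.Fr]
      simp only
      congr 3
      rw [hs0]
      push_cast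
      ring
    rw [hfw] at hsch
    have hB0 : 0 < B := by positivity
    have h1 : ‖1 - D.Fr b v t‖ ≤ 2 * B * r / d := by
      refine hsch.trans ?_
      have : B / (d / 2) * ‖((b : ℂ) + (v : ℂ) * I)‖ ≤ B / (d / 2) * r :=
        mul_le_mul_of_nonneg_left hw (by positivity)
      refine this.trans (le_of_eq ?_)
      field_simp
    have h2 : ‖1 - D.Fr b v t‖ ^ 2 ≤ 4 * B ^ 2 * (r ^ 2 * (1 / d ^ 2)) := by
      refine (pow_le_pow_left₀ (norm_nonneg _) h1 2).trans (le_of_eq ?_)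
      field_simp
      ring
    have h3 : r ^ 2 * (1 / d ^ 2) ≤ 4 / e' ^ 2 * (r ^ 2 + S) := by
      have h4 : ∑ s ∈ Z, 1 / ‖s0 - s‖ ^ 2 ≤ ∑ s ∈ Z, 2 / (r ^ 2 + ‖s0 - s‖ ^ 2) := by
        apply Finset.sum_le_sum
        intro s hs
        have h5 := hcase s hs
        have h6 : r ^ 2 ≤ ‖s0 - s‖ ^ 2 := pow_le_pow_left₀ hr0.le (by linarith) 2
        have h7 : 0 < ‖s0 - s‖ ^ 2 := lt_of_lt_of_le (by positivity) h6
        rw [div_le_div_iff₀ h7 (by positivity)]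
        linarith
      have h5 : r ^ 2 * ∑ s ∈ Z, 2 / (r ^ 2 + ‖s0 - s‖ ^ 2) = 2 * S := by
        rw [hS, Finset.mul_sum, Finset.mul_sum]
        apply Finset.sum_congr rfl
        intro s _
        ring
      have h6 : (2 : ℝ) ≤ 4 / e' ^ 2 := by
        rw [le_div_iff₀ (by positivity)]
        have h7 : e' ^ 2 ≤ (1 / 4) ^ 2 := pow_le_pow_left₀ he'.le (by linarith) 2
        norm_num at h7
        linarith
      calc r ^ 2 * (1 / d ^ 2) ≤ r ^ 2 * (1 / (e' / 2) ^ 2 + ∑ s ∈ Z, 2 / (r ^ 2 + ‖s0 - s‖ ^ 2)) :=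
            mul_le_mul_of_nonneg_left (hdinv.trans (by linarith)) (by positivity)
        _ = r ^ 2 * (4 / e' ^ 2) + r ^ 2 * ∑ s ∈ Z, 2 / (r ^ 2 + ‖s0 - s‖ ^ 2) := by
            rw [mul_add]
            congr 2
            field_simp
            ring
        _ = 4 / e' ^ 2 * r ^ 2 + 2 * S := by rw [h5]; ring
        _ ≤ 4 / e' ^ 2 * r ^ 2 + 4 / e' ^ 2 * S := by
            have := mul_le_mul_of_nonneg_right h6 hS0
            linarith
        _ = _ := by ring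
    have hBE : B ^ 2 ≤ K3 ^ 2 * E := by
      rw [hB, mul_pow, ← Real.exp_nat_mul, hE]
      refine mul_le_mul_of_nonneg_left ?_ (by positivity)
      rw [Real.exp_le_exp]
      push_cast
      have h4 : 0 ≤ η * Lg m := by positivity
      have h5 : 0 ≤ M * Real.log (1 + |v| / b) := by positivity
      linarith
    calc ‖1 - D.Fr b v t‖ ^ 2 ≤ 4 * B ^ 2 * (r ^ 2 * (1 / d ^ 2)) := h2
      _ ≤ 4 * B ^ 2 * (4 / e' ^ 2 * (r ^ 2 + S)) := mul_le_mul_of_nonneg_left h3 (by positivity)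
      _ ≤ 4 * (K3 ^ 2 * E) * (4 / e' ^ 2 * (r ^ 2 + S)) := by
          refine mul_le_mul_of_nonneg_right ?_ (by positivity)
          linarith
      _ = (16 * K3 ^ 2 / e' ^ 2) * E * (r ^ 2 + S) := by ring
      _ ≤ (17 * (2 + 2 * K' ^ 2 * Real.exp 4) + 16 * K3 ^ 2 / e' ^ 2) * E * (r ^ 2 + S) := by
          rw [add_comm (17 * (2 + 2 * K' ^ 2 * Real.exp 4))]
          exact enlarge (by positivity) (by positivity) (by positivity)

end Pw

theorem pw {D : Dat} (h : Rp D) : S_pw D := by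
  intro η θ C T0 hη hη1 hθ hθ1 hC hT0 hS
  obtain ⟨e1, K', he1, he4, hK', near, near2, -⟩ := h.pt η θ C T0 hη hη1 hθ hθ1 hC hT0 hS
  obtain ⟨C', hC', hcnt⟩ := Pw.cnt_all' h hθ hθ1 hC hT0 hS hη
  set e' : ℝ := min e1 (1 / 8) with he'
  have he'0 : 0 < e' := lt_min he1 (by norm_num)
  have hle1 : e' ≤ e1 := min_le_left _ _
  have he'8 : e' ≤ 1 / 8 := min_le_right _ _
  obtain ⟨K2, hK2, hpt⟩ := Pw.pointwise h he'0 he'8 hK' hη hη1 hC'
    (fun b v τ M hb hbe hv h1 => near b v τ M hb (hbe.trans hle1) (hv.trans hle1) h1)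
    (fun t M z hz h1 h2 => near2 t M z (hz.trans hle1) h1 h2) hcnt
  refine ⟨e' / 16, K2, by positivity, by linarith, hK2, ?_⟩
  intro b v M t m hb hbe hve hm1 hm2 hM Z hZ
  obtain ⟨Z', hZ'⟩ := Pw.near_fin h m 2
  refine (hpt b v M t m Z' hZ' hb hbe hve hm1 hm2 hM).trans ?_
  have hsub : Z' ⊆ Z := by
    intro s hs
    have h1 := (hZ' s).1 hs
    exact hZ s h1.1 (h1.2.trans (by norm_num))
  have h2 : ∑ s ∈ Z', (b + |v|) ^ 2 / ((b + |v|) ^ 2 + ‖(1 / 2 + t * I : ℂ) - s‖ ^ 2) ≤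
      ∑ s ∈ Z, (b + |v|) ^ 2 / ((b + |v|) ^ 2 + ‖(1 / 2 + t * I : ℂ) - s‖ ^ 2) :=
    Finset.sum_le_sum_of_subset_of_nonneg hsub fun s _ _ => by positivity
  refine mul_le_mul_of_nonneg_left (by linarith) (by positivity)

end Pool.Agent.N967.H
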