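import Mathlib
import Pool.Agent.N967.H.Stm

set_option autoImplicit false

/-!
# Zeros in short intervals
-/

open Pool.Agent.N967.G (KR KerB S_real S_opt S_kern S_kerL S_sh S_lf)

namespace Pool.Agent.N967.H

open Complex MeasureTheory Filter Topology
open Pool.Agent.Y23 (Lg one_le_Lg)

namespace Slp

/-- growth of `Lg` -/
theorem Lg_le {a t u : ℝ} (ha : 2 / 3 ≤ a) : Lg u ≤ 3 / 2 * Lg t * (1 + |a * (u - t)|) := by
  have hx0 := abs_nonneg (u - t)
  have h1 : Lg u ≤ Lg t + |u - t| := by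
    unfold Pool.Agent.Y23.Lg
    have h2 : (3 + |u|) ≤ (3 + |t|) * (1 + |u - t|) := by
      have h3 : |u| ≤ |t| + |u - t| := by
        have := abs_add_le t (u - t)
        rwa [add_sub_cancel] at this
      have := abs_nonneg t
      nlinarith
    have h3 : Real.log (3 + |u|) ≤ Real.log ((3 + |t|) * (1 + |u - t|)) :=
      Real.log_le_log (by positivity) h2
    rw [Real.log_mul (by positivity) (by positivity)] at h3
    have h4 := Real.log_le_sub_one_of_pos (show 0 < 1 + |u - t| by positivity)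
    linarith
  have hX := one_le_Lg t
  have h2 : |u - t| ≤ 3 / 2 * |a * (u - t)| := by
    rw [abs_mul, abs_of_nonneg (by linarith : (0 : ℝ) ≤ a)]
    nlinarith
  have h3 := abs_nonneg (a * (u - t))
  nlinarith

/-- the weight -/
noncomputable def w (a t u : ℝ) : ℝ := (1 + (a * (u - t)) ^ 2)⁻¹

theorem w_int {a : ℝ} (ha : 0 < a) (t : ℝ) : Integrable (w a t) :=
  (integrable_inv_one_add_sq.comp_mul_left' ha.ne').comp_sub_right t

theorem w_val {a : ℝ} (ha : 0 < a) (t : ℝ) : ∫ u, w a t u = Real.pi / a := by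
  unfold w
  rw [integral_sub_right_eq_self (fun x => (1 + (a * x) ^ 2)⁻¹) t,
    Measure.integral_comp_mul_left (fun x => (1 + x ^ 2)⁻¹) a, integral_univ_inv_one_add_sq,
    abs_of_pos (inv_pos.2 ha), smul_eq_mul]
  ring

theorem w_pos (a t u : ℝ) : 0 < w a t u := by unfold w; positivity

/-- `(1 + |x|)⁻³` -/
theorem cube_le (x : ℝ) : (1 + |x|) / (1 + |x|) ^ 4 ≤ (1 + x ^ 2)⁻¹ := by
  have h := abs_nonneg x
  rw [← sq_abs x, div_le_iff₀ (by positivity), inv_mul_eq_div, le_div_iff₀ (by positivity)]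
  nlinarith [mul_nonneg h h, mul_nonneg (mul_nonneg h h) h, mul_nonneg (mul_nonneg h h) (mul_nonneg h h)]

theorem four_le (x : ℝ) : 1 / (1 + |x|) ^ 4 ≤ (1 + x ^ 2)⁻¹ := by
  refine le_trans ?_ (cube_le x)
  have := abs_nonneg x
  exact div_le_div_of_nonneg_right (by linarith) (by positivity)

/-- the logarithmic derivative on the line `re s = 3` -/
theorem far_bd {D : Dat} (h : Ax D) : ∃ C : ℝ, 0 < C ∧ ∀ u : ℝ,
    ‖logDeriv D.Zs (((3 : ℝ) : ℂ) + u * I)‖ ≤ C := by
  obtain ⟨C, hC, hb⟩ := h.bd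
  refine ⟨D.p + 2 * C * C, by positivity, fun u => ?_⟩
  obtain ⟨s0, hs0⟩ : ∃ s0 : ℂ, s0 = ((3 : ℝ) : ℂ) + u * I := ⟨_, rfl⟩
  rw [← hs0]
  have hre : s0.re = 3 := by simp [hs0]
  have hP1 := h.base.hP1
  have hne1 : ∀ s : ℂ, 5 / 2 ≤ s.re → s - D.P ≠ 0 := by
    intro s hs e
    have h1 := congrArg Complex.re e
    rw [Complex.sub_re, Complex.ofReal_re, Complex.zero_re] at h1
    linarith
  have hball : ∀ s ∈ Metric.closedBall s0 (1 / 2), 5 / 2 ≤ s.re := by
    intro s hs
    rw [Metric.mem_closedBall, dist_eq_norm] at hs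
    have h1 := (Complex.abs_re_le_norm (s - s0)).trans hs
    rw [Complex.sub_re, hre] at h1
    have := abs_le.1 h1
    linarith [this.1]
  have hLd : ∀ s : ℂ, 5 / 2 ≤ s.re → DifferentiableAt ℂ D.L s := by
    intro s hs
    unfold Dat.L
    exact (h.base.diff s (by linarith)).div (by fun_prop) (pow_ne_zero _ (hne1 s hs))
  have hderiv : ‖deriv D.L s0‖ ≤ C / (1 / 2) := by
    refine Complex.norm_deriv_le_of_forall_mem_sphere_norm_le (by norm_num) ?_ ?_
    · refine DifferentiableOn.diffContOnCl fun s hs => ?_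
      exact (hLd s (hball s (Metric.closure_ball_subset_closedBall hs))).differentiableWithinAt
    · intro z hz
      exact (hb z (hball z (Metric.sphere_subset_closedBall hz))).1
  have hs5 : 5 / 2 ≤ s0.re := by rw [hre]; norm_num
  have h1 : logDeriv D.L s0 = logDeriv D.Zs s0 - D.p * (1 / (s0 - D.P)) := by
    have e1 : logDeriv D.L s0 = logDeriv D.Zs s0 - logDeriv (fun s : ℂ => (s - D.P) ^ D.p) s0 :=
      logDeriv_div (f := D.Zs) (g := fun s : ℂ => (s - D.P) ^ D.p) s0
        (h.zero s0 (by rw [hre]; norm_num)) (pow_ne_zero _ (hne1 s0 hs5))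
        (h.base.diff s0 (by rw [hre]; norm_num)) (by fun_prop)
    have e2 : logDeriv (fun s : ℂ => (s - D.P) ^ D.p) s0 =
        D.p * logDeriv (fun s : ℂ => s - D.P) s0 :=
      logDeriv_fun_pow (f := fun s : ℂ => s - D.P) (by fun_prop) D.p
    have e3 : logDeriv (fun s : ℂ => s - D.P) s0 = 1 / (s0 - D.P) := by
      rw [logDeriv_apply]
      simp
    rw [e1, e2, e3]
  have h2 : logDeriv D.Zs s0 = logDeriv D.L s0 + D.p * (1 / (s0 - D.P)) := by rw [h1]; ring
  rw [h2]
  have h3 : ‖logDeriv D.L s0‖ ≤ 2 * C * C := by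
    have h4 : logDeriv D.L s0 = deriv D.L s0 * D.fz s0 := by
      rw [logDeriv_apply]
      unfold Dat.L Dat.fz
      rw [div_eq_mul_inv, inv_div]
    rw [h4, norm_mul]
    have h5 := (hb s0 hs5).2
    calc ‖deriv D.L s0‖ * ‖D.fz s0‖ ≤ (C / (1 / 2)) * C :=
          mul_le_mul hderiv h5 (norm_nonneg _) (by positivity)
      _ = 2 * C * C := by ring
  have h4 : ‖(D.p : ℂ) * (1 / (s0 - D.P))‖ ≤ D.p := by
    rw [norm_mul, norm_div, norm_one, Complex.norm_natCast]
    have h5 : 1 ≤ ‖s0 - D.P‖ := by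
      have h6 := Complex.re_le_norm (s0 - D.P)
      rw [Complex.sub_re, hre, Complex.ofReal_re] at h6
      linarith
    have h6 : 1 / ‖s0 - D.P‖ ≤ 1 := by rw [div_le_one (by linarith)]; exact h5
    have h7 : (0 : ℝ) ≤ D.p := Nat.cast_nonneg _
    nlinarith
  calc ‖logDeriv D.L s0 + D.p * (1 / (s0 - D.P))‖ ≤
        ‖logDeriv D.L s0‖ + ‖(D.p : ℂ) * (1 / (s0 - D.P))‖ :=
        norm_add_le _ _
    _ ≤ D.p + 2 * C * C := by linarith

/-- real part of `1 / (s - ρ)` -/
theorem re_inv (z : ℂ) (m : ℕ) : ((m : ℂ) / z).re = m * (z.re / (z.re ^ 2 + z.im ^ 2)) := by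
  rw [Complex.div_re, Complex.natCast_re, Complex.natCast_im, Complex.normSq_apply]
  ring

end Slp

open Slp in
/-- at most `C r log t` zeros in an interval of radius `r ≥ 1 / log log t` -/
theorem slope {D : Dat} (h : Ax D) (hz : S_zn D) (hc : S_cnt D) (hk : S_kerL) (hs : S_sh) :
    S_slope D := by
  classical
  obtain ⟨C1, hC1, hzn⟩ := hz
  obtain ⟨C2, hC2, hcn⟩ := hc.2
  obtain ⟨k, c, C3, hkd, hc0, hC3, hkre, hkc, hkb⟩ := hk
  obtain ⟨C4, hC4, hfar⟩ := far_bd h
  obtain ⟨Cf, hCf⟩ : ∃ Cf : ℝ, Cf = 5 / (2 * c) * 6 * Real.pi * C3 * (C4 + 3 / 2 * C1) := ⟨_, rfl⟩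
  have hCf0 : 0 < Cf := by rw [hCf]; positivity
  refine ⟨4 * C2 + Cf, Real.exp 1, by positivity, le_rfl, ?_⟩
  intro t ht r hr hr1 S hS
  obtain ⟨X, hX⟩ : ∃ X : ℝ, X = Lg t := ⟨_, rfl⟩
  rw [← hX] at ht hr ⊢
  have he1 : (2 : ℝ) ≤ Real.exp 1 := by have := Real.exp_one_gt_d9; linarith
  have hX0 : 0 < X := by linarith
  have hlX : 1 ≤ Real.log X := by rw [Real.le_log_iff_exp_le hX0]; exact ht
  have hr0 : 0 < r := lt_of_lt_of_le (by positivity) hr
  obtain ⟨n, hn⟩ : ∃ n : ℝ, n = ∑ s ∈ S, (D.mu s : ℝ) := ⟨_, rfl⟩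
  have hn0 : 0 ≤ n := by rw [hn]; exact Finset.sum_nonneg fun _ _ => Nat.cast_nonneg _
  rw [← hn]
  have hrX : 0 < r * X := by positivity
  rcases le_or_gt (1 / 4) r with hr4 | hr4
  · -- large radius
    have h1 := hcn t S (fun s hs' => ⟨(hS s hs').1, (hS s hs').2.2.trans hr1⟩)
    rw [← hn, ← hX] at h1
    have h2 : C2 * X ≤ 4 * C2 * (r * X) := by nlinarith [mul_pos hC2 hX0]
    have h3 : 0 ≤ Cf * (r * X) := by positivity
    calc n ≤ C2 * X := h1
      _ ≤ (4 * C2 + Cf) * r * X := by linarith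
  · -- small radius
    obtain ⟨a, ha⟩ : ∃ a : ℝ, a = 1 / (6 * r) := ⟨_, rfl⟩
    have ha0 : 0 < a := by rw [ha]; positivity
    have ha23 : 2 / 3 ≤ a := by
      rw [ha, le_div_iff₀ (by positivity)]; linarith
    have har : a * r = 1 / 6 := by rw [ha]; field_simp
    have h5a : Real.exp (5 / 2 * a) ≤ X := by
      have h1 : 5 / 2 * a ≤ Real.log X := by
        have h2 : 1 / Real.log X ≤ r := hr
        rw [div_le_iff₀ (by linarith)] at h2
        have h3 : 5 / 2 * a = 5 / 12 * (1 / r) := by rw [ha]; field_simp; norm_num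
        rw [h3]
        have h4 : 1 / r ≤ Real.log X := by rw [div_le_iff₀ hr0]; linarith
        have h5 : 0 ≤ 1 / r := by positivity
        linarith
      rw [← Real.le_log_iff_exp_le hX0]
      exact h1
    obtain ⟨σ, hσ⟩ : ∃ σ : ℝ, σ = 1 / 2 + r := ⟨_, rfl⟩
    have hσ3 : σ ≤ 3 := by rw [hσ]; linarith
    -- the function
    obtain ⟨F, hF⟩ : ∃ F : ℂ → ℂ, F = logDeriv D.Zs := ⟨_, rfl⟩
    obtain ⟨H, hH⟩ : ∃ H : ℂ → ℂ, H = fun s => F s * k (a * ((s - σ - t * I) / I)) := ⟨_, rfl⟩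
    have hHs : ∀ s : ℂ, H s = F s * k (a * ((s - σ - t * I) / I)) := fun s => by rw [hH]
    have harg : ∀ s : ℂ, (a : ℂ) * ((s - σ - t * I) / I) =
        ((a * (s.im - t) : ℝ) : ℂ) + ((-(a * (s.re - σ)) : ℝ) : ℂ) * I := by
      intro s
      have h1 : (s - σ - t * I) / I = ((s.im : ℂ) - t) - ((s.re : ℂ) - σ) * I := by
        rw [div_eq_iff Complex.I_ne_zero]
        apply Complex.ext <;> simp
      rw [h1]
      push_cast
      ring
    have hargre : ∀ s : ℂ, ((a : ℂ) * ((s - σ - t * I) / I)).re = a * (s.im - t) := by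
      intro s; rw [harg s]; simp
    have hargim : ∀ s : ℂ, ((a : ℂ) * ((s - σ - t * I) / I)).im = -(a * (s.re - σ)) := by
      intro s; rw [harg s]; simp
    -- zeros
    have hre0 : ∀ ρ : ℂ, D.Zs ρ = 0 → ρ.re ≤ 1 / 2 := by
      intro ρ h0
      by_contra hcon
      exact h.zero ρ (not_le.1 hcon) h0
    -- local data
    have hloc : ∀ s : ℂ, σ ≤ s.re → s.re ≤ 3 →
        ‖F s‖ ≤ C1 * Lg s.im * (1 + 1 / r) ∧ -(C1 * Lg s.im) ≤ (F s).re ∧
          (s.re = σ → |s.im - t| ≤ r → n / (5 * r) - C1 * Lg s.im ≤ (F s).re) := by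
      intro s hs1 hs2
      obtain ⟨Z, hZ, hZn, _, hZF⟩ := hzn s.im
      have hne : D.Zs s ≠ 0 := h.zero s (by linarith)
      have hdist : ‖s - (5 / 2 + s.im * I)‖ ≤ 17 / 8 := by
        have e1 : s - (5 / 2 + s.im * I) = ((s.re - 5 / 2 : ℝ) : ℂ) := by
          apply Complex.ext <;> simp
        rw [e1, Complex.norm_real, Real.norm_eq_abs, abs_le]
        constructor <;> linarith
      have hb := hZF s hdist hne
      rw [← hF] at hb
      have hZre : ∀ ρ ∈ Z, r ≤ (s - ρ).re := by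
        intro ρ hρ
        have h1 := hre0 ρ ((hZ ρ).1 hρ).1
        rw [Complex.sub_re]; linarith
      have hZnorm : ∀ ρ ∈ Z, r ≤ ‖s - ρ‖ := fun ρ hρ =>
        (hZre ρ hρ).trans (Complex.re_le_norm _)
      obtain ⟨Sg, hSg⟩ : ∃ Sg : ℂ, Sg = ∑ ρ ∈ Z, (D.mu ρ : ℂ) / (s - ρ) := ⟨_, rfl⟩
      rw [← hSg] at hb
      have hLs := one_le_Lg s.im
      have hSgn : ‖Sg‖ ≤ C1 * Lg s.im * (1 / r) := by
        rw [hSg]
        refine (norm_sum_le _ _).trans ?_
        calc ∑ ρ ∈ Z, ‖(D.mu ρ : ℂ) / (s - ρ)‖ ≤ ∑ ρ ∈ Z, (D.mu ρ : ℝ) * (1 / r) := by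
              refine Finset.sum_le_sum fun ρ hρ => ?_
              rw [norm_div, Complex.norm_natCast, mul_one_div]
              exact div_le_div_of_nonneg_left (Nat.cast_nonneg _) hr0 (hZnorm ρ hρ)
          _ = (∑ ρ ∈ Z, (D.mu ρ : ℝ)) * (1 / r) := by rw [Finset.sum_mul]
          _ ≤ C1 * Lg s.im * (1 / r) := mul_le_mul_of_nonneg_right hZn (by positivity)
      have hterm : ∀ ρ ∈ Z, 0 ≤ ((D.mu ρ : ℂ) / (s - ρ)).re := by
        intro ρ hρ
        rw [re_inv]
        have h1 := hZre ρ hρ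
        have h2 : 0 ≤ (s - ρ).re := by linarith
        positivity
      have hSgre : 0 ≤ Sg.re := by
        rw [hSg, Complex.re_sum]
        exact Finset.sum_nonneg hterm
      have hdiff : Sg.re - C1 * Lg s.im ≤ (F s).re := by
        have h1 := (Complex.abs_re_le_norm (F s - Sg)).trans hb
        rw [Complex.sub_re] at h1
        have := abs_le.1 h1
        linarith [this.1]
      refine ⟨?_, by linarith, ?_⟩
      · calc ‖F s‖ = ‖(F s - Sg) + Sg‖ := by rw [sub_add_cancel]
          _ ≤ ‖F s - Sg‖ + ‖Sg‖ := norm_add_le _ _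
          _ ≤ C1 * Lg s.im * (1 + 1 / r) := by linarith
      · intro hsσ hst
        have hSZ : S ⊆ Z := by
          intro ρ hρ
          obtain ⟨h1, _, h2⟩ := hS ρ hρ
          rw [hZ]
          refine ⟨h1.1, ?_⟩
          have h1l : 3 / 8 ≤ ρ.re := h1.2
          have h1u : ρ.re ≤ 1 / 2 := hre0 ρ h1.1
          have h3 : |ρ.im - s.im| ≤ 1 / 2 := by
            have h4 := abs_sub_le ρ.im t s.im
            rw [abs_sub_comm t s.im] at h4
            linarith
          have h5 : ‖ρ - (5 / 2 + s.im * I)‖ ^ 2 = (5 / 2 - ρ.re) ^ 2 + (ρ.im - s.im) ^ 2 := by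
            rw [← Complex.normSq_eq_norm_sq, Complex.normSq_apply]
            have h51 : (ρ - (5 / 2 + s.im * I)).re = ρ.re - 5 / 2 := by simp
            have h52 : (ρ - (5 / 2 + s.im * I)).im = ρ.im - s.im := by simp
            rw [h51, h52]
            ring
          have h55 : (5 / 2 - ρ.re) ^ 2 ≤ (17 / 8) ^ 2 :=
            pow_le_pow_left₀ (by linarith) (by linarith) 2
          have h6 : (ρ.im - s.im) ^ 2 ≤ 1 / 4 := by
            rw [← sq_abs]
            have := abs_nonneg (ρ.im - s.im)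
            nlinarith
          have h7 : ‖ρ - (5 / 2 + s.im * I)‖ ^ 2 ≤ (35 / 16) ^ 2 := by
            rw [h5]
            norm_num at h55 ⊢
            linarith
          exact (pow_le_pow_iff_left₀ (norm_nonneg _) (by norm_num) (by norm_num)).1 h7
        have h1 : n / (5 * r) ≤ Sg.re := by
          rw [hSg, Complex.re_sum]
          refine le_trans ?_ (Finset.sum_le_sum_of_subset_of_nonneg hSZ fun ρ hρ _ => hterm ρ hρ)
          rw [hn, Finset.sum_div]
          refine Finset.sum_le_sum fun ρ hρ => ?_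
          obtain ⟨h2, h2l, h3⟩ := hS ρ hρ
          have h2u : ρ.re ≤ 1 / 2 := hre0 ρ h2.1
          rw [re_inv, div_eq_mul_one_div]
          refine mul_le_mul_of_nonneg_left ?_ (Nat.cast_nonneg _)
          have h4l : r ≤ (s - ρ).re := by rw [Complex.sub_re, hsσ, hσ]; linarith
          have h4u : (s - ρ).re ≤ 2 * r := by rw [Complex.sub_re, hsσ, hσ]; linarith
          have h5 : |(s - ρ).im| ≤ 2 * r := by
            rw [Complex.sub_im]
            have h6 := abs_sub_le s.im t ρ.im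
            rw [abs_sub_comm t ρ.im] at h6
            linarith
          have h6 : (s - ρ).im ^ 2 ≤ 4 * r ^ 2 := by
            rw [← sq_abs]
            have := abs_nonneg (s - ρ).im
            nlinarith
          have h7 : 0 < (s - ρ).re := by linarith
          rw [div_le_div_iff₀ (by positivity) (by positivity)]
          have h8 : 0 ≤ ((s - ρ).re - r) * (4 * r - (s - ρ).re) :=
            mul_nonneg (by linarith) (by linarith)
          linarith
        linarith
    -- bound for the kernel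
    have hkb' : ∀ s : ℂ, σ ≤ s.re → s.re ≤ 3 → ‖k (a * ((s - σ - t * I) / I))‖ ≤
        C3 * X / (1 + |a * (s.im - t)|) ^ 4 := by
      intro s hs1 hs2
      refine (hkb _).trans ?_
      rw [hargre, hargim, abs_neg, abs_of_nonneg (by
        have : 0 ≤ s.re - σ := by linarith
        positivity)]
      refine div_le_div_of_nonneg_right (mul_le_mul_of_nonneg_left ?_ hC3.le) (by positivity)
      refine le_trans (Real.exp_le_exp.2 ?_) h5a
      have : s.re - σ ≤ 5 / 2 := by linarith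
      nlinarith
    -- growth of `H`
    obtain ⟨B, hB⟩ : ∃ B : ℝ, B = C1 * (1 + 1 / r) * (C3 * X) * (3 / 2 * X) *
        (9 / 4 * (1 + |t|) ^ 2) := ⟨_, rfl⟩
    have hB0 : 0 ≤ B := by rw [hB]; positivity
    have hHw : ∀ s : ℂ, σ ≤ s.re → s.re ≤ 3 → ‖H s‖ ≤ C1 * (1 + 1 / r) * (C3 * X) *
        (3 / 2 * X) * ((1 + |a * (s.im - t)|) / (1 + |a * (s.im - t)|) ^ 4) := by
      intro s hs1 hs2
      have h1 := (hloc s hs1 hs2).1
      have h2 := hkb' s hs1 hs2
      have h3 : Lg s.im ≤ 3 / 2 * X * (1 + |a * (s.im - t)|) := by rw [hX]; exact Lg_le ha23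
      have h4 : 0 ≤ Lg s.im := by have := one_le_Lg s.im; linarith
      rw [hHs, norm_mul]
      calc ‖F s‖ * ‖k (a * ((s - σ - t * I) / I))‖
          ≤ (C1 * Lg s.im * (1 + 1 / r)) * (C3 * X / (1 + |a * (s.im - t)|) ^ 4) :=
            mul_le_mul h1 h2 (norm_nonneg _) (by positivity)
        _ ≤ (C1 * (3 / 2 * X * (1 + |a * (s.im - t)|)) * (1 + 1 / r)) *
            (C3 * X / (1 + |a * (s.im - t)|) ^ 4) := by gcongr
        _ = _ := by ring
    have hHB : ∀ s : ℂ, σ ≤ s.re → s.re ≤ 3 → ‖H s‖ ≤ B / (1 + |s.im|) ^ 2 := by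
      intro s hs1 hs2
      refine (hHw s hs1 hs2).trans ?_
      obtain ⟨y, hy⟩ : ∃ y : ℝ, y = |a * (s.im - t)| := ⟨_, rfl⟩
      rw [← hy]
      have hy0 : 0 ≤ y := by rw [hy]; exact abs_nonneg _
      have h1 : 1 + |s.im| ≤ 3 / 2 * (1 + |t|) * (1 + y) := by
        have h2 : |s.im| ≤ |t| + |s.im - t| := by
          have := abs_add_le t (s.im - t)
          rwa [add_sub_cancel] at this
        have h3 : |s.im - t| ≤ 3 / 2 * y := by
          rw [hy, abs_mul, abs_of_pos ha0]
          have := abs_nonneg (s.im - t)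
          nlinarith
        have := abs_nonneg t
        nlinarith
      have h2 : (1 + |s.im|) ^ 2 ≤ 9 / 4 * (1 + |t|) ^ 2 * (1 + y) ^ 2 := by
        calc (1 + |s.im|) ^ 2 ≤ (3 / 2 * (1 + |t|) * (1 + y)) ^ 2 :=
              pow_le_pow_left₀ (by positivity) h1 2
          _ = _ := by ring
      have h3 : (1 + y) / (1 + y) ^ 4 ≤ (9 / 4 * (1 + |t|) ^ 2) / (1 + |s.im|) ^ 2 := by
        rw [div_le_div_iff₀ (by positivity) (by positivity)]
        calc (1 + y) * (1 + |s.im|) ^ 2 ≤ (1 + y) * (9 / 4 * (1 + |t|) ^ 2 * (1 + y) ^ 2) :=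
              mul_le_mul_of_nonneg_left h2 (by positivity)
          _ = 9 / 4 * (1 + |t|) ^ 2 * ((1 + y) ^ 3 * 1) := by ring
          _ ≤ 9 / 4 * (1 + |t|) ^ 2 * ((1 + y) ^ 3 * (1 + y)) := by
              refine mul_le_mul_of_nonneg_left (mul_le_mul_of_nonneg_left (by linarith) ?_) ?_ <;>
                positivity
          _ = 9 / 4 * (1 + |t|) ^ 2 * (1 + y) ^ 4 := by ring
      rw [hB, mul_div_assoc]
      exact mul_le_mul_of_nonneg_left h3 (by positivity)
    -- differentiability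
    have hFd : ∀ s : ℂ, σ ≤ s.re → DifferentiableAt ℂ F s := by
      intro s hs1
      have hopen : IsOpen {s : ℂ | 0 < s.re} := isOpen_lt continuous_const Complex.continuous_re
      have hs0 : 0 < s.re := by linarith
      have hd : DifferentiableOn ℂ D.Zs {s : ℂ | 0 < s.re} := fun s hs =>
        (h.base.diff s hs).differentiableWithinAt
      have hd' : DifferentiableAt ℂ (deriv D.Zs) s :=
        (hd.deriv hopen).differentiableAt (hopen.mem_nhds hs0)
      rw [hF]
      exact hd'.div (h.base.diff s hs0) (h.zero s (by linarith))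
    have hHd : ∀ s : ℂ, σ ≤ s.re → s.re ≤ 3 → DifferentiableAt ℂ H s := by
      intro s hs1 _
      rw [hH]
      refine (hFd s hs1).mul ?_
      exact (hkd _).comp s (by fun_prop)
    -- the shift
    have hshift := hs H σ 3 B hσ3 hHd hHB
    -- the right line
    have hright : ‖∫ u : ℝ, H (((3 : ℝ) : ℂ) + u * I)‖ ≤ C4 * (C3 * X) * (Real.pi / a) := by
      rw [← w_val ha0 t, ← integral_const_mul]
      refine norm_integral_le_of_norm_le ((w_int ha0 t).const_mul _)
        (Filter.Eventually.of_forall fun u => ?_)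
      have hre3 : (((3 : ℝ) : ℂ) + u * I).re = 3 := by simp
      have him3 : (((3 : ℝ) : ℂ) + u * I).im = u := by simp
      have h1 := hkb' (((3 : ℝ) : ℂ) + u * I) (by rw [hre3]; exact hσ3) (by rw [hre3])
      rw [him3] at h1
      have h2 := hfar u
      rw [← hF] at h2
      rw [hHs, norm_mul]
      calc ‖F (((3 : ℝ) : ℂ) + u * I)‖ * ‖k (a * ((((3 : ℝ) : ℂ) + u * I - σ - t * I) / I))‖
          ≤ C4 * (C3 * X / (1 + |a * (u - t)|) ^ 4) :=
            mul_le_mul h2 h1 (norm_nonneg _) hC4.le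
        _ = C4 * (C3 * X) * (1 / (1 + |a * (u - t)|) ^ 4) := by ring
        _ ≤ C4 * (C3 * X) * w a t u := by
            unfold w
            exact mul_le_mul_of_nonneg_left (four_le _) (by positivity)
    -- the left line
    have hfre : ∀ u : ℝ, ((σ : ℂ) + u * I).re = σ := fun u => by simp
    have hfim : ∀ u : ℝ, ((σ : ℂ) + u * I).im = u := fun u => by simp
    have hcont : Continuous fun u : ℝ => H ((σ : ℂ) + u * I) := by
      rw [continuous_iff_continuousAt]
      intro u
      have h1 : ContinuousAt H ((σ : ℂ) + u * I) :=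
        (hHd _ (by rw [hfre]) (by rw [hfre]; exact hσ3)).continuousAt
      exact ContinuousAt.comp (f := fun u : ℝ => (σ : ℂ) + u * I) h1 (by fun_prop)
    have hint : Integrable fun u : ℝ => H ((σ : ℂ) + u * I) := by
      refine Integrable.mono' ((w_int ha0 t).const_mul (C1 * (1 + 1 / r) * (C3 * X) *
        (3 / 2 * X))) hcont.aestronglyMeasurable (Filter.Eventually.of_forall fun u => ?_)
      have h1 := hHw ((σ : ℂ) + u * I) (by rw [hfre]) (by rw [hfre]; exact hσ3)
      rw [hfim] at h1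
      refine h1.trans ?_
      unfold w
      exact mul_le_mul_of_nonneg_left (cube_le _) (by positivity)
    -- the lower bound for the real part
    obtain ⟨g, hg⟩ : ∃ g : ℝ → ℝ, g = fun u => (Set.Icc (t - r) (t + r)).indicator
      (fun _ => n / (5 * r) * c) u - C1 * (3 / 2 * X) * C3 * w a t u := ⟨_, rfl⟩
    have hgint : Integrable g := by
      rw [hg]
      refine Integrable.sub ?_ ((w_int ha0 t).const_mul _)
      rw [integrable_indicator_iff measurableSet_Icc]
      exact integrableOn_const (by rw [Real.volume_Icc]; exact ENNReal.ofReal_ne_top)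
    have hgval : ∫ u, g u = 2 * c / 5 * n - C1 * (3 / 2 * X) * C3 * (Real.pi / a) := by
      rw [hg, integral_sub (by
        rw [integrable_indicator_iff measurableSet_Icc]
        exact integrableOn_const (by rw [Real.volume_Icc]; exact ENNReal.ofReal_ne_top))
        ((w_int ha0 t).const_mul _), integral_const_mul, w_val ha0 t,
        integral_indicator measurableSet_Icc, setIntegral_const, Measure.real, Real.volume_Icc,
        ENNReal.toReal_ofReal (by linarith), smul_eq_mul]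
      congr 1
      field_simp
      ring
    have hlow : ∀ u : ℝ, g u ≤ (H ((σ : ℂ) + u * I)).re := by
      intro u
      obtain ⟨_, h2, h3⟩ := hloc ((σ : ℂ) + u * I) (by rw [hfre]) (by rw [hfre]; exact hσ3)
      rw [hfim] at h2 h3
      have harg2 : (a : ℂ) * (((σ : ℂ) + u * I - σ - t * I) / I) = ((a * (u - t) : ℝ) : ℂ) := by
        rw [harg, hfre, hfim]
        simp
      obtain ⟨Kv, hKv⟩ : ∃ Kv : ℝ, Kv = (k ((a * (u - t) : ℝ) : ℂ)).re := ⟨_, rfl⟩
      have hk1 := hkre (a * (u - t))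
      have hKv0 : 0 ≤ Kv := by rw [hKv]; exact hk1.1
      have hval : (H ((σ : ℂ) + u * I)).re = (F ((σ : ℂ) + u * I)).re * Kv := by
        rw [hHs, harg2, Complex.mul_re, hk1.2, mul_zero, sub_zero, ← hKv]
      rw [hval]
      have hKb : Kv ≤ C3 / (1 + |a * (u - t)|) ^ 4 := by
        have h4 := hkb ((a * (u - t) : ℝ) : ℂ)
        rw [Complex.ofReal_re, Complex.ofReal_im, abs_zero, Real.exp_zero, mul_one] at h4
        rw [hKv]
        exact (Complex.re_le_norm _).trans h4
      have hLK : C1 * Lg u * Kv ≤ C1 * (3 / 2 * X) * C3 * w a t u := by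
        have h4 : Lg u ≤ 3 / 2 * X * (1 + |a * (u - t)|) := by rw [hX]; exact Lg_le ha23
        have h5 : 0 ≤ Lg u := by have := one_le_Lg u; linarith
        calc C1 * Lg u * Kv ≤ C1 * (3 / 2 * X * (1 + |a * (u - t)|)) *
              (C3 / (1 + |a * (u - t)|) ^ 4) := by gcongr
          _ = C1 * (3 / 2 * X) * C3 * ((1 + |a * (u - t)|) / (1 + |a * (u - t)|) ^ 4) := by ring
          _ ≤ C1 * (3 / 2 * X) * C3 * w a t u := by
              unfold w
              exact mul_le_mul_of_nonneg_left (cube_le _) (by positivity)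
      rw [hg]
      show (Set.Icc (t - r) (t + r)).indicator (fun _ => n / (5 * r) * c) u -
        C1 * (3 / 2 * X) * C3 * w a t u ≤ (F ((σ : ℂ) + u * I)).re * Kv
      by_cases hu : u ∈ Set.Icc (t - r) (t + r)
      · rw [Set.indicator_of_mem hu]
        have hut : |u - t| ≤ r := by
          rw [abs_le]; constructor <;> linarith [hu.1, hu.2]
        have h4 := h3 (hfre u) hut
        have hcK : c ≤ Kv := by
          rw [hKv]
          refine hkc _ ?_
          rw [abs_mul, abs_of_pos ha0]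
          nlinarith
        have h5 : n / (5 * r) * c ≤ n / (5 * r) * Kv :=
          mul_le_mul_of_nonneg_left hcK (by positivity)
        have h6 := mul_le_mul_of_nonneg_right h4 hKv0
        rw [sub_mul] at h6
        linarith
      · rw [Set.indicator_of_notMem hu]
        have h6 := mul_le_mul_of_nonneg_right h2 hKv0
        rw [neg_mul] at h6
        linarith
    -- conclusion
    have hre_int : (∫ u : ℝ, H ((σ : ℂ) + u * I)).re = ∫ u : ℝ, (H ((σ : ℂ) + u * I)).re :=
      (integral_re hint).symm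
    have h1 : ∫ u, g u ≤ ∫ u : ℝ, (H ((σ : ℂ) + u * I)).re :=
      integral_mono hgint hint.re hlow
    rw [hgval, ← hre_int, hshift] at h1
    have h2 := (Complex.re_le_norm _).trans hright
    have h3 : 2 * c / 5 * n ≤ (C4 + 3 / 2 * C1) * (C3 * X) * (Real.pi / a) := by
      have e : (C4 + 3 / 2 * C1) * (C3 * X) * (Real.pi / a) =
        C4 * (C3 * X) * (Real.pi / a) + C1 * (3 / 2 * X) * C3 * (Real.pi / a) := by ring
      rw [e]
      linarith
    have h4 : n ≤ Cf * (r * X) := by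
      have e1 : Real.pi / a = 6 * Real.pi * r := by rw [ha]; field_simp
      rw [e1] at h3
      have h5 : n = 5 / (2 * c) * (2 * c / 5 * n) := by field_simp
      rw [h5]
      calc 5 / (2 * c) * (2 * c / 5 * n) ≤ 5 / (2 * c) *
            ((C4 + 3 / 2 * C1) * (C3 * X) * (6 * Real.pi * r)) :=
            mul_le_mul_of_nonneg_left h3 (by positivity)
        _ = Cf * (r * X) := by rw [hCf]; ring
    have h5 : 0 ≤ C2 * (r * X) := by positivity
    linarith

end Pool.Agent.N967.H
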