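import Mathlib
import Pool.Agent.N967.H.Main
import Pool.Agent.N967.H.Ax
import Pool.Agent.N967.H.Zn
import Pool.Agent.N967.G.Lf
import Pool.Agent.N967.H.Lind
import Pool.Agent.N967.H.Crit
import Pool.Agent.N967.H.Pt
import Pool.Agent.N967.H.Int
import Pool.Agent.N967.H.App
import Pool.Agent.N967.H.Cs
import Pool.Agent.N967.H.Pw
import Pool.Agent.N967.H.Mm
import Pool.Agent.N967.H.Blk
import Pool.Agent.N967.G.Real
import Pool.Agent.N967.H.PrT
import Pool.Agent.N967.H.Loc
import Pool.Agent.N967.H.PrO
import Pool.Agent.N967.H.Maj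
import Pool.Agent.N967.H.PrL
import Pool.Agent.N967.H.Prof
import Pool.Agent.N967.H.Lim
import Pool.Agent.N967.G.Opt
import Pool.Agent.N967.H.Grow
import Pool.Agent.N967.H.Jj
import Pool.Agent.N967.H.Low3
import Pool.Agent.N967.H.Up
import Pool.Agent.N967.H.Off
import Pool.Agent.N967.H.Slope
import Pool.Agent.N325.G.KerL
import Pool.Agent.N967.G.All

set_option autoImplicit false

/-!
# The distance on an arbitrary line: the theorem
-/

namespace Pool.Agent.N967.H

open Complex MeasureTheory Filter Topology
open Pool.Agent.N967.G (lf kerL sh real opt kern)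

theorem rp_all {D : Dat} (h : Ax D) : Rp D := by
  have hz := zn h lf
  have hc := cnt h hz
  have hl := lind h
  have hcr := crit h hz hl
  exact rp_of h hc (slope h hz hc kerL sh) hl hcr (pt h hz hl hcr)

theorem rp_asym {D : Dat} (R : Rp D) : S_int D ∧ S_sum D ∧ S_asym D := by
  have hi := int R
  have happ := app R shift
  have hcs := cs R
  have hpw := pw R
  have hmm := mm R
  have hnb := nearB R hpw
  have hfb := farB R
  have hprT := prT R happ hcs hmm hnb hfb real
  have hloc := loc hmm hnb hfb
  have hprO := prO R hcs hpw hloc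
  have hprL := prL R (maj R)
  have hprof := prof R happ hprT hprO hprL
  have hlim := lim R
  have hlow := low3 R (jj R (grow R shift hi) hi shift) hpol_facts
  have hsum := sum_conv R happ hprof hlim hlow Pool.Agent.N967.G.kern hi
  have hup := up R happ hprof hlim opt Pool.Agent.N967.G.kern hsum (combo R) ee mulDP hi
  exact ⟨hi, hsum, asym hup hlow hsum⟩

end Pool.Agent.N967.H
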