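import Pool.Agent.N967.H.Stm

/-!
# The exponent of the distance: lower bound from a zero to the left of the line
-/

set_option autoImplicit false

namespace Pool.Agent.N967.H

open Complex MeasureTheory Filter Topology

/-- polynomial growth in all half-planes -/
def Dat.Poly (D : Dat) : Prop := Differentiable ℂ D.Zs ∧ ∀ B : ℝ, ∃ (C : ℝ) (k : ℕ), 0 < C ∧
  ∀ s : ℂ, -B ≤ s.re → ‖D.Zs s‖ ≤ C * (1 + ‖s‖) ^ k

namespace ExpL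

/-- the weight -/
noncomputable def g (c0 : ℝ) (K : ℕ) (s : ℂ) : ℂ := ((c0 : ℂ) / (c0 + (s - 1 / 2))) ^ K

lemma den_re (c0 : ℝ) (s : ℂ) : ((c0 : ℂ) + (s - 1 / 2)).re = c0 + (s.re - 1 / 2) := by
  simp

lemma den_ge {B : ℝ} {s : ℂ} (h : 1 / 2 - B ≤ s.re) : 1 ≤ ‖((B + 1 : ℝ) : ℂ) + (s - 1 / 2)‖ := by
  have h1 := (le_abs_self _).trans (Complex.abs_re_le_norm (((B + 1 : ℝ) : ℂ) + (s - 1 / 2)))
  rw [den_re] at h1
  linarith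

lemma den_ne {B : ℝ} {s : ℂ} (h : 1 / 2 - B ≤ s.re) : ((B + 1 : ℝ) : ℂ) + (s - 1 / 2) ≠ 0 := by
  have := den_ge h
  intro h0
  rw [h0, norm_zero] at this
  linarith

lemma one_add_le {B : ℝ} (hB : 1 ≤ B) {s : ℂ} (h : 1 / 2 - B ≤ s.re) :
    1 + ‖s‖ ≤ (B + 4) * ‖((B + 1 : ℝ) : ℂ) + (s - 1 / 2)‖ := by
  have h1 := den_ge h
  set X := ((B + 1 : ℝ) : ℂ) + (s - 1 / 2) with hX
  have h2 : s = X - ((B + 1 / 2 : ℝ) : ℂ) := by
    rw [hX]; push_cast; ring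
  have h3 : ‖s‖ ≤ ‖X‖ + (B + 1 / 2) := by
    have h4 := norm_sub_le X ((B + 1 / 2 : ℝ) : ℂ)
    rw [← h2, Complex.norm_real, Real.norm_of_nonneg (by linarith)] at h4
    exact h4
  nlinarith

lemma g_bound {B : ℝ} (hB : 1 ≤ B) (K : ℕ) {s : ℂ} (h : 1 / 2 - B ≤ s.re) :
    ‖g (B + 1) K s‖ * (1 + ‖s‖) ^ K ≤ ((B + 1) * (B + 4)) ^ K := by
  unfold g
  rw [norm_pow, ← mul_pow, norm_div, Complex.norm_real, Real.norm_of_nonneg (by linarith)]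
  have h1 := den_ge h
  have h2 := one_add_le hB h
  have h3 : (B + 1) / ‖((B + 1 : ℝ) : ℂ) + (s - 1 / 2)‖ * (1 + ‖s‖) ≤ (B + 1) * (B + 4) := by
    rw [div_mul_eq_mul_div, div_le_iff₀ (by linarith), mul_assoc]
    exact mul_le_mul_of_nonneg_left h2 (by linarith)
  exact pow_le_pow_left₀ (by positivity) h3 K

lemma g_diff {B : ℝ} (K : ℕ) {s : ℂ} (h : 1 / 2 - B ≤ s.re) :
    DifferentiableAt ℂ (g (B + 1) K) s := by
  unfold g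
  refine DifferentiableAt.pow ?_ K
  refine DifferentiableAt.div (by fun_prop) (by fun_prop) (den_ne h)

lemma g_ne {B : ℝ} (hB : 1 ≤ B) (K : ℕ) {s : ℂ} (h : 1 / 2 - B ≤ s.re) :
    g (B + 1) K s ≠ 0 := by
  unfold g
  refine pow_ne_zero K (div_ne_zero ?_ (den_ne h))
  have : (B + 1 : ℝ) ≠ 0 := by linarith
  exact_mod_cast this

lemma DP_diff (N : ℕ) (a : ℕ → ℂ) : Differentiable ℂ (DP N a) := by
  unfold DP
  refine Differentiable.fun_sum fun n hn => ?_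
  have hn1 : 1 ≤ n := (Finset.mem_Icc.mp hn).1
  have hn0 : (n : ℂ) ≠ 0 := by
    have : n ≠ 0 := by omega
    exact_mod_cast this
  refine Differentiable.const_mul ?_ _
  intro s
  exact (differentiableAt_id.neg).const_cpow (Or.inl hn0)

/-- the function -/
noncomputable def F (D : Dat) (B : ℝ) (K N : ℕ) (a : ℕ → ℂ) (s : ℂ) : ℂ :=
  ((s - D.P) ^ D.p - D.Zs s * DP N a s) * g (B + 1) K s

lemma F_diff {D : Dat} (hd : Differentiable ℂ D.Zs) {B : ℝ} (K N : ℕ) (a : ℕ → ℂ) {s : ℂ}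
    (h : 1 / 2 - B ≤ s.re) : DifferentiableAt ℂ (F D B K N a) s := by
  unfold F
  have h1 := hd s
  have h2 := DP_diff N a s
  have h3 := g_diff (B := B) K h
  fun_prop

lemma norm_sub_P {D : Dat} (hP : 1 / 2 < D.P) (hP1 : D.P ≤ 1) (s : ℂ) : ‖s - D.P‖ ≤ 1 + ‖s‖ := by
  have h1 := norm_sub_le s (D.P : ℂ)
  rw [Complex.norm_real, Real.norm_of_nonneg (by linarith)] at h1
  linarith

lemma F_bound {D : Dat} (hP : 1 / 2 < D.P) (hP1 : D.P ≤ 1) {B C1 C2 : ℝ} {k1 k2 K : ℕ} (hB : 1 ≤ B)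
    (hC1 : 0 < C1) (hC2 : 0 < C2) (hZ : ∀ s : ℂ, -B ≤ s.re → ‖D.Zs s‖ ≤ C1 * (1 + ‖s‖) ^ k1)
    (hK : D.p + k1 + k2 + 2 ≤ K) {N : ℕ} {a : ℕ → ℂ} (hN : 1 ≤ N)
    (hA : ∀ s : ℂ, s.re ≤ 1 / 2 + 1 / 4 →
      ‖DP N a s‖ ≤ C2 * (1 + ‖s‖) ^ k2 * (N : ℝ) ^ (1 / 2 + 1 / 4 - s.re))
    {s : ℂ} (h1 : 1 / 2 - B ≤ s.re) (h2 : s.re ≤ 1 / 2) :
    ‖F D B K N a s‖ * (1 + ‖s‖) ^ 2 ≤
      ((B + 1) * (B + 4)) ^ K * (1 + C1 * C2) * (N : ℝ) ^ (B + 1 / 4) := by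
  have hN' : (1 : ℝ) ≤ N := by exact_mod_cast hN
  have hs : 1 ≤ 1 + ‖s‖ := by linarith [norm_nonneg s]
  obtain ⟨j, hj⟩ : ∃ j, K = j + 2 := ⟨K - 2, by omega⟩
  have e1 : ‖D.Zs s‖ ≤ C1 * (1 + ‖s‖) ^ k1 := hZ s (by linarith)
  have e2 := hA s (by linarith)
  have e3 : (N : ℝ) ^ (1 / 2 + 1 / 4 - s.re) ≤ (N : ℝ) ^ (B + 1 / 4) :=
    Real.rpow_le_rpow_of_exponent_le hN' (by linarith)
  have e4 : (1 : ℝ) ≤ (N : ℝ) ^ (B + 1 / 4) := Real.one_le_rpow hN' (by linarith)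
  have e5 : ‖(s - D.P) ^ D.p‖ ≤ (1 + ‖s‖) ^ j * (N : ℝ) ^ (B + 1 / 4) := by
    rw [norm_pow]
    calc ‖s - D.P‖ ^ D.p ≤ (1 + ‖s‖) ^ D.p :=
          pow_le_pow_left₀ (norm_nonneg _) (norm_sub_P hP hP1 s) _
      _ ≤ (1 + ‖s‖) ^ j := pow_le_pow_right₀ hs (by omega)
      _ ≤ (1 + ‖s‖) ^ j * (N : ℝ) ^ (B + 1 / 4) := le_mul_of_one_le_right (by positivity) e4
  have e6 : ‖D.Zs s * DP N a s‖ ≤ C1 * C2 * ((1 + ‖s‖) ^ j * (N : ℝ) ^ (B + 1 / 4)) := by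
    rw [norm_mul]
    calc ‖D.Zs s‖ * ‖DP N a s‖ ≤ (C1 * (1 + ‖s‖) ^ k1) *
          (C2 * (1 + ‖s‖) ^ k2 * (N : ℝ) ^ (B + 1 / 4)) := by
          apply mul_le_mul e1 (e2.trans _) (norm_nonneg _) (by positivity)
          gcongr
      _ = C1 * C2 * ((1 + ‖s‖) ^ (k1 + k2) * (N : ℝ) ^ (B + 1 / 4)) := by ring
      _ ≤ C1 * C2 * ((1 + ‖s‖) ^ j * (N : ℝ) ^ (B + 1 / 4)) := by
          have hpow : (1 + ‖s‖) ^ (k1 + k2) ≤ (1 + ‖s‖) ^ j := pow_le_pow_right₀ hs (by omega)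
          gcongr
  have e7 : ‖(s - D.P) ^ D.p - D.Zs s * DP N a s‖ ≤
      (1 + C1 * C2) * ((1 + ‖s‖) ^ j * (N : ℝ) ^ (B + 1 / 4)) := by
    refine (norm_sub_le _ _).trans ?_
    linarith
  have e8 := g_bound hB K h1
  unfold F
  rw [norm_mul]
  calc ‖(s - D.P) ^ D.p - D.Zs s * DP N a s‖ * ‖g (B + 1) K s‖ * (1 + ‖s‖) ^ 2
      ≤ (1 + C1 * C2) * ((1 + ‖s‖) ^ j * (N : ℝ) ^ (B + 1 / 4)) * ‖g (B + 1) K s‖ *
          (1 + ‖s‖) ^ 2 := by gcongr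
    _ = (1 + C1 * C2) * (N : ℝ) ^ (B + 1 / 4) * (‖g (B + 1) K s‖ * (1 + ‖s‖) ^ K) := by
        rw [hj, pow_add]; ring
    _ ≤ (1 + C1 * C2) * (N : ℝ) ^ (B + 1 / 4) * ((B + 1) * (B + 4)) ^ K := by gcongr
    _ = _ := by ring

lemma half_ne {D : Dat} (hP : 1 / 2 < D.P) (t : ℝ) : (1 / 2 + t * I : ℂ) - D.P ≠ 0 := by
  intro h
  have := congrArg Complex.re h
  simp at this
  linarith

lemma F_line {D : Dat} (hP : 1 / 2 < D.P) (hP1 : D.P ≤ 1) (hw : 1 / 2 ≤ D.w) {B : ℝ} {K : ℕ}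
    (hB : 1 ≤ B) (hK : D.p + 1 ≤ K) (N : ℕ) (a : ℕ → ℂ) (t : ℝ) :
    ‖F D B K N a (1 / 2 + t * I)‖ ^ 2 ≤
      (D.w ^ 2 + 1) * (((B + 1) * (B + 4)) ^ K) ^ 2 * D.ig N a t := by
  set s : ℂ := 1 / 2 + t * I with hs
  have hsre : s.re = 1 / 2 := by simp [hs]
  have hsim : s.im = t := by simp [hs]
  have h0 : s - D.P ≠ 0 := half_ne hP t
  have h1 : (s - D.P) ^ D.p - D.Zs s * DP N a s = (s - D.P) ^ D.p * (1 - D.L s * DP N a s) := by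
    unfold Dat.L
    have : (s - D.P) ^ D.p ≠ 0 := pow_ne_zero _ h0
    field_simp
  have hs1 : 1 ≤ 1 + ‖s‖ := by linarith [norm_nonneg s]
  have hwt : 0 < D.w ^ 2 + t ^ 2 := by positivity
  have h2 : ‖1 - D.L s * DP N a s‖ ^ 2 = (D.w ^ 2 + t ^ 2) * D.ig N a t := by
    unfold Dat.ig
    rw [← hs]
    field_simp
  have h3 : D.w ^ 2 + t ^ 2 ≤ (D.w ^ 2 + 1) * (1 + ‖s‖) ^ 2 := by
    have h4 : t ^ 2 ≤ (1 + ‖s‖) ^ 2 := by
      rw [← sq_abs t]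
      apply pow_le_pow_left₀ (abs_nonneg _)
      have := Complex.abs_im_le_norm s
      rw [hsim] at this
      linarith
    have h5 : (1 : ℝ) ≤ (1 + ‖s‖) ^ 2 := one_le_pow₀ hs1
    nlinarith [sq_nonneg D.w]
  have h4 : ‖(s - D.P) ^ D.p‖ * (1 + ‖s‖) ≤ (1 + ‖s‖) ^ K := by
    rw [norm_pow]
    calc ‖s - D.P‖ ^ D.p * (1 + ‖s‖) ≤ (1 + ‖s‖) ^ D.p * (1 + ‖s‖) := by
          gcongr
          exact norm_sub_P hP hP1 s
      _ = (1 + ‖s‖) ^ (D.p + 1) := by ring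
      _ ≤ (1 + ‖s‖) ^ K := pow_le_pow_right₀ hs1 hK
  have h5 := g_bound hB K (s := s) (by rw [hsre]; linarith)
  have h6 : ‖(s - D.P) ^ D.p‖ * (1 + ‖s‖) * ‖g (B + 1) K s‖ ≤ ((B + 1) * (B + 4)) ^ K := by
    calc _ ≤ (1 + ‖s‖) ^ K * ‖g (B + 1) K s‖ := by gcongr
      _ = ‖g (B + 1) K s‖ * (1 + ‖s‖) ^ K := by ring
      _ ≤ _ := h5
  have h7 : (‖(s - D.P) ^ D.p‖ * (1 + ‖s‖) * ‖g (B + 1) K s‖) ^ 2 ≤ (((B + 1) * (B + 4)) ^ K) ^ 2 :=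
    pow_le_pow_left₀ (by positivity) h6 2
  have hig : 0 ≤ D.ig N a t := by unfold Dat.ig; positivity
  unfold F
  rw [h1, norm_mul, norm_mul, mul_pow, mul_pow, h2]
  calc ‖(s - D.P) ^ D.p‖ ^ 2 * ((D.w ^ 2 + t ^ 2) * D.ig N a t) * ‖g (B + 1) K s‖ ^ 2
      ≤ ‖(s - D.P) ^ D.p‖ ^ 2 * (((D.w ^ 2 + 1) * (1 + ‖s‖) ^ 2) * D.ig N a t) *
          ‖g (B + 1) K s‖ ^ 2 := by gcongr
    _ = (D.w ^ 2 + 1) * ((‖(s - D.P) ^ D.p‖ * (1 + ‖s‖) * ‖g (B + 1) K s‖) ^ 2) * D.ig N a t := by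
        ring
    _ ≤ (D.w ^ 2 + 1) * ((((B + 1) * (B + 4)) ^ K) ^ 2) * D.ig N a t := by gcongr

lemma shift_norm (z ρ : ℂ) : 1 + |z.im| ≤ (1 + |ρ.im|) * (1 + ‖z + ρ‖) := by
  have h1 := Complex.abs_im_le_norm (z + ρ)
  rw [Complex.add_im] at h1
  have h2 : |z.im| ≤ |z.im + ρ.im| + |ρ.im| := by
    have := abs_sub_abs_le_abs_sub z.im (-ρ.im)
    rw [abs_neg, sub_neg_eq_add] at this
    linarith
  nlinarith [abs_nonneg ρ.im, norm_nonneg (z + ρ)]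

lemma dec {M y X : ℝ} (hM : X * (1 + |y|) ^ 2 ≤ M) (hX : 0 ≤ X) :
    X ≤ M * (1 + y ^ 2)⁻¹ ∧ X ≤ M * (1 + |y|) ^ (-(1 / 2 : ℝ)) := by
  have h0 : 0 ≤ M := le_trans (by positivity) hM
  have hy : (0 : ℝ) < 1 + |y| := by positivity
  have h1 : X ≤ M / (1 + |y|) ^ 2 := by
    rw [le_div_iff₀ (by positivity)]; exact hM
  constructor
  · refine h1.trans ?_
    rw [div_eq_mul_inv]
    apply mul_le_mul_of_nonneg_left _ h0
    apply inv_anti₀ (by positivity)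
    have : |y| ^ 2 = y ^ 2 := sq_abs y
    nlinarith [abs_nonneg y]
  · refine h1.trans ?_
    rw [div_eq_mul_inv]
    apply mul_le_mul_of_nonneg_left _ h0
    rw [← Real.rpow_natCast, ← Real.rpow_neg hy.le]
    apply Real.rpow_le_rpow_of_exponent_le (by linarith [abs_nonneg y])
    norm_num

/-- the second integral -/
lemma int_left {H : ℂ → ℂ} {a M : ℝ} (ha : a ≤ -1)
    (hH : ∀ y : ℝ, ‖H (a + y * I)‖ ≤ M * (1 + y ^ 2)⁻¹) :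
    ‖∫ y : ℝ, H (a + y * I) / (a + y * I)‖ ≤ M * Real.pi := by
  have h1 : ∫ y : ℝ, M * (1 + y ^ 2)⁻¹ = M * Real.pi := by
    rw [integral_const_mul, integral_univ_inv_one_add_sq]
  rw [← h1]
  refine norm_integral_le_of_norm_le (integrable_inv_one_add_sq.const_mul M)
    (Filter.Eventually.of_forall fun y => ?_)
  have h2 : 1 ≤ ‖(a : ℂ) + y * I‖ := by
    have := Complex.abs_re_le_norm ((a : ℂ) + y * I)
    have h3 : ((a : ℂ) + y * I).re = a := by simp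
    rw [h3, abs_of_nonpos (by linarith)] at this
    linarith
  rw [norm_div]
  exact (div_le_self (norm_nonneg _) h2).trans (hH y)

/-- the first integral -/
lemma int_right {H : ℂ → ℂ} {α q E : ℝ} {f : ℝ → ℝ} (_hα : 0 < α) (hq : 0 < q) (hq1 : q ≤ 1)
    (hq2 : q ≤ α ^ 2) (hf : Integrable f) (hE : ∫ y, f y = E)
    (hH : ∀ y : ℝ, ‖H (α + y * I)‖ ^ 2 ≤ f y) {m : ℝ} (hm : 0 < m)
    (h : m ≤ ‖∫ y : ℝ, H (α + y * I) / (α + y * I)‖) : m ^ 2 * q / Real.pi ≤ E := by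
  set lam : ℝ := Real.pi / (q * m) with hlam
  have hpi := Real.pi_pos
  have hl0 : 0 < lam := by positivity
  have h1 : ∀ y : ℝ, ‖H (α + y * I) / (α + y * I)‖ ≤
      lam / 2 * f y + 1 / (2 * lam) * (q⁻¹ * (1 + y ^ 2)⁻¹) := by
    intro y
    have h2 : ‖(α : ℂ) + y * I‖ ^ 2 = α ^ 2 + y ^ 2 := by
      rw [← Complex.normSq_eq_norm_sq, Complex.normSq_add_mul_I]
    have h3 : q * (1 + y ^ 2) ≤ ‖(α : ℂ) + y * I‖ ^ 2 := by
      rw [h2]; nlinarith [sq_nonneg y]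
    have h4 : 0 < ‖(α : ℂ) + y * I‖ := by
      have h40 : 0 < ‖(α : ℂ) + y * I‖ ^ 2 := lt_of_lt_of_le (by positivity) h3
      rcases (norm_nonneg ((α : ℂ) + y * I)).lt_or_eq with h41 | h41
      · exact h41
      · rw [← h41] at h40
        norm_num at h40
    have h5 : (‖(α : ℂ) + y * I‖⁻¹) ^ 2 ≤ q⁻¹ * (1 + y ^ 2)⁻¹ := by
      rw [inv_pow, ← mul_inv]
      exact inv_anti₀ (by positivity) h3
    rw [norm_div, div_eq_mul_inv]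
    have h6 := hH y
    set A := ‖H (α + y * I)‖
    set Bb := ‖(α : ℂ) + y * I‖⁻¹
    have h7 : A * Bb ≤ lam / 2 * A ^ 2 + 1 / (2 * lam) * Bb ^ 2 := by
      have h8 : 0 ≤ (lam * A - Bb) ^ 2 / (2 * lam) := by positivity
      have h9 : (lam * A - Bb) ^ 2 / (2 * lam) =
          lam / 2 * A ^ 2 + 1 / (2 * lam) * Bb ^ 2 - A * Bb := by
        field_simp
        ring
      linarith
    refine h7.trans ?_
    gcongr
  have h2 : ‖∫ y : ℝ, H (α + y * I) / (α + y * I)‖ ≤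
      lam / 2 * E + 1 / (2 * lam) * (q⁻¹ * Real.pi) := by
    have h3 : ∫ y : ℝ, (lam / 2 * f y + 1 / (2 * lam) * (q⁻¹ * (1 + y ^ 2)⁻¹)) =
        lam / 2 * E + 1 / (2 * lam) * (q⁻¹ * Real.pi) := by
      rw [integral_add (hf.const_mul _) ((integrable_inv_one_add_sq.const_mul _).const_mul _),
        integral_const_mul, integral_const_mul, integral_const_mul, hE,
        integral_univ_inv_one_add_sq]
    rw [← h3]
    exact norm_integral_le_of_norm_le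
      ((hf.const_mul _).add ((integrable_inv_one_add_sq.const_mul _).const_mul _))
      (Filter.Eventually.of_forall h1)
  have h3 : 1 / (2 * lam) * (q⁻¹ * Real.pi) = m / 2 := by
    rw [hlam]; field_simp
  rw [h3] at h2
  have h4 : m / 2 ≤ lam / 2 * E := by linarith
  rw [hlam] at h4
  rw [div_le_iff₀ hpi]
  have h5 : m * (q * m) ≤ Real.pi * E := by
    have h6 : Real.pi / (q * m) / 2 * E = Real.pi * E / (q * m) / 2 := by ring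
    rw [h6] at h4
    have h7 : m ≤ Real.pi * E / (q * m) := by linarith
    rwa [le_div_iff₀ (by positivity)] at h7
  nlinarith

/-- the function for the shift -/
noncomputable def Hh (D : Dat) (B : ℝ) (K N : ℕ) (a : ℕ → ℂ) (ρ : ℂ) (V : ℝ) (z : ℂ) : ℂ :=
  F D B K N a (z + ρ) * Complex.exp (V * z)

lemma H_norm (D : Dat) (B : ℝ) (K N : ℕ) (a : ℕ → ℂ) (ρ : ℂ) (V : ℝ) (z : ℂ) :
    ‖Hh D B K N a ρ V z‖ = ‖F D B K N a (z + ρ)‖ * Real.exp (V * z.re) := by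
  unfold Hh
  rw [norm_mul, Complex.norm_exp, Complex.re_ofReal_mul]

lemma H_zero (D : Dat) (B : ℝ) (K N : ℕ) (a : ℕ → ℂ) (ρ : ℂ) (V : ℝ) :
    Hh D B K N a ρ V 0 = F D B K N a ρ := by
  unfold Hh
  rw [zero_add, mul_zero, Complex.exp_zero, mul_one]

lemma H_diff {D : Dat} (hd : Differentiable ℂ D.Zs) {B : ℝ} (K N : ℕ) (a : ℕ → ℂ) {ρ : ℂ} (V : ℝ)
    {z : ℂ} (h : 1 / 2 - B ≤ z.re + ρ.re) : DifferentiableAt ℂ (Hh D B K N a ρ V) z := by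
  unfold Hh
  have h2 : DifferentiableAt ℂ (F D B K N a) (z + ρ) := by
    apply F_diff hd K N a
    rw [Complex.add_re]
    exact h
  have h3 : DifferentiableAt ℂ (fun z : ℂ => F D B K N a (z + ρ)) z :=
    h2.comp z (differentiableAt_id.add_const ρ)
  have h4 : DifferentiableAt ℂ (fun z : ℂ => Complex.exp (V * z)) z :=
    (differentiableAt_id.const_mul (V : ℂ)).cexp
  exact h3.mul h4

lemma core_left {D : Dat} {ρ : ℂ} {α B V M : ℝ} {K N : ℕ} {a : ℕ → ℂ} (hBα : α + 1 ≤ B)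
    (hα0 : 0 < α)
    (hFb : ∀ z : ℂ, α - B ≤ z.re → z.re ≤ α → ‖F D B K N a (z + ρ)‖ * (1 + |z.im|) ^ 2 ≤ M) :
    ‖∫ y : ℝ, Hh D B K N a ρ V (((α - B : ℝ) : ℂ) + y * I) / (((α - B : ℝ) : ℂ) + y * I)‖ ≤
      (M * Real.exp (V * (α - B))) * Real.pi := by
  apply int_left (by linarith)
  intro y
  have hre : (((α - B : ℝ) : ℂ) + y * I).re = α - B := by simp
  have him : (((α - B : ℝ) : ℂ) + y * I).im = y := by simp
  have h2 := (dec (hFb (((α - B : ℝ) : ℂ) + y * I) (by rw [hre]) (by rw [hre]; linarith))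
    (norm_nonneg _)).1
  rw [him] at h2
  rw [H_norm, hre]
  calc _ ≤ (M * (1 + y ^ 2)⁻¹) * Real.exp (V * (α - B)) :=
        mul_le_mul_of_nonneg_right h2 (Real.exp_pos _).le
    _ = _ := by ring

lemma core_shift {D : Dat} (hd : Differentiable ℂ D.Zs) (hs : Pool.Agent.N967.S_shift) {ρ : ℂ}
    {α B V M : ℝ} {K N : ℕ} {a : ℕ → ℂ} (hα : α = 1 / 2 - ρ.re) (hBα : α + 1 ≤ B)
    (hα0 : 0 < α) (hV0 : 0 ≤ V) (hMp : 0 < M)
    (hFb : ∀ z : ℂ, α - B ≤ z.re → z.re ≤ α → ‖F D B K N a (z + ρ)‖ * (1 + |z.im|) ^ 2 ≤ M) :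
    (∫ y : ℝ, Hh D B K N a ρ V (α + y * I) / (α + y * I)) -
      (∫ y : ℝ, Hh D B K N a ρ V (((α - B : ℝ) : ℂ) + y * I) / (((α - B : ℝ) : ℂ) + y * I)) =
      2 * Real.pi * F D B K N a ρ := by
  rw [← H_zero D B K N a ρ V]
  apply hs (Hh D B K N a ρ V) (α - B) α (M * Real.exp (V * α)) (by linarith) hα0
  · intro z hz1 hz2
    exact H_diff hd K N a V (by linarith)
  · intro z hz1 hz2
    have h2 := (dec (hFb z hz1 hz2) (norm_nonneg _)).2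
    rw [H_norm]
    have h3 : Real.exp (V * z.re) ≤ Real.exp (V * α) :=
      Real.exp_le_exp.2 (mul_le_mul_of_nonneg_left hz2 hV0)
    calc ‖F D B K N a (z + ρ)‖ * Real.exp (V * z.re)
        ≤ (M * (1 + |z.im|) ^ (-(1 / 2 : ℝ))) * Real.exp (V * α) :=
          mul_le_mul h2 h3 (Real.exp_pos _).le (by positivity)
      _ = _ := by ring

lemma core {D : Dat} (hd : Differentiable ℂ D.Zs) (hs : Pool.Agent.N967.S_shift) {ρ : ℂ}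
    {α B V M m q C4 : ℝ} {K N : ℕ} {a : ℕ → ℂ} (hα : α = 1 / 2 - ρ.re) (hBα : α + 1 ≤ B)
    (hα0 : 0 < α) (hV0 : 0 ≤ V) (hMp : 0 < M)
    (hFb : ∀ z : ℂ, α - B ≤ z.re → z.re ≤ α → ‖F D B K N a (z + ρ)‖ * (1 + |z.im|) ^ 2 ≤ M)
    (hsmall : (M * Real.exp (V * (α - B))) * Real.pi ≤ m) (hm0 : 0 < m)
    (hmF : Real.pi * ‖F D B K N a ρ‖ = m) (hq : 0 < q) (hq1 : q ≤ 1) (hq2 : q ≤ α ^ 2)
    (hC4 : ∀ t : ℝ, ‖F D B K N a (1 / 2 + t * I)‖ ^ 2 ≤ C4 * D.ig N a t)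
    (hi : Integrable (D.ig N a)) :
    m ^ 2 * q / Real.pi ≤ Real.exp (2 * (V * α)) * C4 * (2 * Real.pi * D.err N a) := by
  have hpi := Real.pi_pos
  have hshift := core_shift hd hs hα hBα hα0 hV0 hMp hFb
  have hleft := (core_left (V := V) hBα hα0 hFb).trans hsmall
  have hright : m ≤ ‖∫ y : ℝ, Hh D B K N a ρ V ((α : ℂ) + y * I) / ((α : ℂ) + y * I)‖ := by
    rw [sub_eq_iff_eq_add] at hshift
    rw [hshift]
    have h3 : ‖(2 * Real.pi * F D B K N a ρ : ℂ)‖ = 2 * m := by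
      rw [norm_mul, norm_mul, Complex.norm_real, Real.norm_of_nonneg hpi.le, ← hmF,
        Complex.norm_ofNat]
      ring
    have h4 := norm_sub_le_norm_add (2 * Real.pi * F D B K N a ρ : ℂ)
      (∫ y : ℝ, Hh D B K N a ρ V (((α - B : ℝ) : ℂ) + y * I) / (((α - B : ℝ) : ℂ) + y * I))
    rw [h3] at h4
    linarith
  have hint : Integrable (fun y : ℝ => Real.exp (2 * (V * α)) * C4 * D.ig N a (y + ρ.im)) :=
    (hi.comp_add_right ρ.im).const_mul _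
  have hintE : ∫ y : ℝ, Real.exp (2 * (V * α)) * C4 * D.ig N a (y + ρ.im) =
      Real.exp (2 * (V * α)) * C4 * (2 * Real.pi * D.err N a) := by
    rw [integral_const_mul]
    congr 1
    rw [integral_add_right_eq_self (fun y => D.ig N a y) ρ.im]
    unfold Dat.err
    field_simp
  refine int_right hα0 hq hq1 hq2 hint hintE ?_ hm0 hright
  intro y
  have h2 := hC4 (y + ρ.im)
  have h3 : (α : ℂ) + y * I + ρ = 1 / 2 + ((y + ρ.im : ℝ) : ℂ) * I := by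
    apply Complex.ext
    · simp [hα]
    · simp
  have h4 : ((α : ℂ) + y * I).re = α := by simp
  rw [H_norm, h3, h4, mul_pow]
  have h5 : Real.exp (V * α) ^ 2 = Real.exp (2 * (V * α)) := by
    rw [← Real.exp_nat_mul]; norm_num
  rw [h5]
  calc _ ≤ (C4 * D.ig N a (y + ρ.im)) * Real.exp (2 * (V * α)) :=
        mul_le_mul_of_nonneg_right h2 (Real.exp_pos _).le
    _ = _ := by ring

lemma F_shift {D : Dat} (hP : 1 / 2 < D.P) (hP1 : D.P ≤ 1) {B C1 C2 : ℝ} {k1 k2 K : ℕ} (hB : 1 ≤ B)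
    (hC1 : 0 < C1) (hC2 : 0 < C2) (hZ : ∀ s : ℂ, -B ≤ s.re → ‖D.Zs s‖ ≤ C1 * (1 + ‖s‖) ^ k1)
    (hK : D.p + k1 + k2 + 2 ≤ K) {N : ℕ} {a : ℕ → ℂ} (hN : 1 ≤ N)
    (hA : ∀ s : ℂ, s.re ≤ 1 / 2 + 1 / 4 →
      ‖DP N a s‖ ≤ C2 * (1 + ‖s‖) ^ k2 * (N : ℝ) ^ (1 / 2 + 1 / 4 - s.re)) {ρ : ℂ} {α C3 : ℝ}
    (hα : α = 1 / 2 - ρ.re) (hC3 : C3 = ((B + 1) * (B + 4)) ^ K * (1 + C1 * C2)) (z : ℂ)
    (hz1 : α - B ≤ z.re) (hz2 : z.re ≤ α) :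
    ‖F D B K N a (z + ρ)‖ * (1 + |z.im|) ^ 2 ≤
      (1 + |ρ.im|) ^ 2 * C3 * (N : ℝ) ^ (B + 1 / 4) := by
  have h2 := F_bound hP hP1 hB hC1 hC2 hZ hK hN hA (s := z + ρ)
    (by rw [Complex.add_re]; linarith) (by rw [Complex.add_re]; linarith)
  rw [← hC3] at h2
  have h3 := shift_norm z ρ
  have h4 : (1 + |z.im|) ^ 2 ≤ ((1 + |ρ.im|) * (1 + ‖z + ρ‖)) ^ 2 :=
    pow_le_pow_left₀ (by positivity) h3 2
  calc ‖F D B K N a (z + ρ)‖ * (1 + |z.im|) ^ 2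
      ≤ ‖F D B K N a (z + ρ)‖ * ((1 + |ρ.im|) * (1 + ‖z + ρ‖)) ^ 2 :=
        mul_le_mul_of_nonneg_left h4 (norm_nonneg _)
    _ = (1 + |ρ.im|) ^ 2 * (‖F D B K N a (z + ρ)‖ * (1 + ‖z + ρ‖) ^ 2) := by ring
    _ ≤ (1 + |ρ.im|) ^ 2 * (C3 * (N : ℝ) ^ (B + 1 / 4)) :=
        mul_le_mul_of_nonneg_left h2 (by positivity)
    _ = _ := by ring

lemma small {α B d m Q : ℝ} {N N0 : ℕ} (hN1 : (1 : ℝ) ≤ N) (hQ : 0 ≤ Q) (hm0 : 0 < m)
    (hN0 : Real.pi * Q / m ≤ N0) (hN : N0 ≤ N)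
    (hBd : 1 / 4 + α * (1 + d) + 1 ≤ B * d) :
    (Q * (N : ℝ) ^ (B + 1 / 4) * Real.exp ((1 + d) * Real.log N * (α - B))) * Real.pi ≤ m := by
  have hNp : (0 : ℝ) < N := by linarith
  have h2 : Real.exp ((1 + d) * Real.log N * (α - B)) = (N : ℝ) ^ ((1 + d) * (α - B)) := by
    rw [Real.rpow_def_of_pos hNp]
    congr 1
    ring
  rw [h2, mul_assoc Q, ← Real.rpow_add hNp]
  have h3 : B + 1 / 4 + (1 + d) * (α - B) ≤ -1 := by nlinarith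
  have h4 : (N : ℝ) ^ (B + 1 / 4 + (1 + d) * (α - B)) ≤ (N : ℝ)⁻¹ := by
    rw [← Real.rpow_neg_one]
    exact Real.rpow_le_rpow_of_exponent_le hN1 h3
  have h5 : Real.pi * Q / m ≤ N := by
    have : (N0 : ℝ) ≤ N := by exact_mod_cast hN
    linarith
  have h6 : 0 < Real.pi := Real.pi_pos
  calc Q * (N : ℝ) ^ (B + 1 / 4 + (1 + d) * (α - B)) * Real.pi
      ≤ Q * (N : ℝ)⁻¹ * Real.pi :=
        mul_le_mul_of_nonneg_right (mul_le_mul_of_nonneg_left h4 hQ) h6.le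
    _ = Real.pi * Q / N := by rw [div_eq_mul_inv]; ring
    _ ≤ m := by
        rw [div_le_iff₀ hNp]
        rw [div_le_iff₀ hm0] at h5
        linarith

lemma final {α ε d C4 m q Er c : ℝ} {N : ℕ} (hα0 : 0 < α) (hN1 : (1 : ℝ) ≤ N)
    (hd : d = ε / (2 * α)) (hC4 : 0 < C4)
    (hc : c ≤ m ^ 2 * q / Real.pi / (C4 * (2 * Real.pi)))
    (h : m ^ 2 * q / Real.pi ≤
      Real.exp (2 * ((1 + d) * Real.log N * α)) * C4 * (2 * Real.pi * Er)) :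
    c * (N : ℝ) ^ (-(2 * α) - ε) ≤ Er := by
  have hpi := Real.pi_pos
  have hNp : (0 : ℝ) < N := by linarith
  have hexp2 : Real.exp (2 * ((1 + d) * Real.log N * α)) = (N : ℝ) ^ (2 * α + ε) := by
    rw [Real.rpow_def_of_pos hNp]
    congr 1
    have : α * d = ε / 2 := by rw [hd]; field_simp
    calc 2 * ((1 + d) * Real.log N * α) = Real.log N * (2 * α + 2 * (α * d)) := by ring
      _ = _ := by rw [this]; ring
  rw [hexp2] at h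
  have h2 : (N : ℝ) ^ (-(2 * α) - ε) = ((N : ℝ) ^ (2 * α + ε))⁻¹ := by
    rw [← Real.rpow_neg hNp.le]; congr 1; ring
  have h3 : 0 < (N : ℝ) ^ (2 * α + ε) := Real.rpow_pos_of_pos hNp _
  rw [h2, ← div_eq_mul_inv, div_le_iff₀ h3]
  refine hc.trans ?_
  rw [div_le_iff₀ (by positivity)]
  calc m ^ 2 * q / Real.pi ≤ (N : ℝ) ^ (2 * α + ε) * C4 * (2 * Real.pi * Er) := h
    _ = _ := by ring

theorem main {D : Dat} (hb : Base D) (hp : D.Poly) (hg : S_grow D) (hi : S_int D)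
    (hs : Pool.Agent.N967.S_shift) {ρ : ℂ} (h0 : D.Zs ρ = 0) (h1 : ρ.re < 1 / 2) {ε : ℝ}
    (hε : 0 < ε) : ∃ (c : ℝ) (N0 : ℕ), 0 < c ∧ ∀ N : ℕ, N0 ≤ N → ∀ a : ℕ → ℂ,
      c * (N : ℝ) ^ (-(2 * (1 / 2 - ρ.re)) - ε) ≤ D.err N a := by
  have hpi := Real.pi_pos
  obtain ⟨α, hα⟩ : ∃ α : ℝ, α = 1 / 2 - ρ.re := ⟨_, rfl⟩
  rw [← hα]
  have hα0 : 0 < α := by linarith
  obtain ⟨d, hd⟩ : ∃ d : ℝ, d = ε / (2 * α) := ⟨_, rfl⟩
  have hd0 : 0 < d := by rw [hd]; positivity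
  obtain ⟨B, hB⟩ : ∃ B : ℝ, B = (1 / 4 + α * (1 + d) + 1) / d + α + 1 := ⟨_, rfl⟩
  have hq0 : 0 < (1 / 4 + α * (1 + d) + 1) / d := by positivity
  have hB1 : 1 ≤ B := by rw [hB]; linarith
  have hBα : α + 1 ≤ B := by rw [hB]; linarith
  have hBd : 1 / 4 + α * (1 + d) + 1 ≤ B * d := by
    have h2 : (1 / 4 + α * (1 + d) + 1) / d * d = 1 / 4 + α * (1 + d) + 1 := by field_simp
    have h3 : B * d = (1 / 4 + α * (1 + d) + 1) / d * d + (α + 1) * d := by rw [hB]; ring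
    rw [h3, h2]
    have : 0 < (α + 1) * d := by positivity
    linarith
  obtain ⟨C1, k1, hC1, hZ⟩ := hp.2 B
  obtain ⟨C2, k2, hC2, hA⟩ := hg (1 / 4) (by norm_num) (by norm_num)
  obtain ⟨K, hK⟩ : ∃ K : ℕ, K = D.p + k1 + k2 + 2 := ⟨_, rfl⟩
  have hBB : 0 < (B + 1) * (B + 4) := mul_pos (by linarith) (by linarith)
  obtain ⟨C3, hC3⟩ : ∃ C3 : ℝ, C3 = ((B + 1) * (B + 4)) ^ K * (1 + C1 * C2) := ⟨_, rfl⟩
  have hC3p : 0 < C3 := by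
    rw [hC3]
    exact mul_pos (pow_pos hBB K) (by positivity)
  have hρB : 1 / 2 - B ≤ ρ.re := by linarith
  have hFρ : ∀ (N : ℕ) (a : ℕ → ℂ), F D B K N a ρ = (ρ - D.P) ^ D.p * g (B + 1) K ρ := by
    intro N a
    unfold F
    rw [h0, zero_mul, sub_zero]
  obtain ⟨m, hm⟩ : ∃ m : ℝ, m = Real.pi * ‖(ρ - D.P) ^ D.p * g (B + 1) K ρ‖ := ⟨_, rfl⟩
  have hm0 : 0 < m := by
    have h2 : ρ - D.P ≠ 0 := by
      intro h
      have h3 := congrArg Complex.re h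
      have h4 := hb.hP
      simp at h3
      linarith
    have h3 : (ρ - D.P) ^ D.p * g (B + 1) K ρ ≠ 0 := mul_ne_zero (pow_ne_zero _ h2) (g_ne hB1 K hρB)
    rw [hm]
    exact mul_pos hpi (norm_pos_iff.2 h3)
  obtain ⟨C4, hC4⟩ : ∃ C4 : ℝ, C4 = (D.w ^ 2 + 1) * (((B + 1) * (B + 4)) ^ K) ^ 2 := ⟨_, rfl⟩
  have hC4p : 0 < C4 := by
    rw [hC4]
    exact mul_pos (by positivity) (pow_pos (pow_pos hBB K) 2)
  obtain ⟨q, hq⟩ : ∃ q : ℝ, q = min 1 (α ^ 2) := ⟨_, rfl⟩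
  have hqp : 0 < q := by rw [hq]; exact lt_min one_pos (by positivity)
  have hq1 : q ≤ 1 := by rw [hq]; exact min_le_left _ _
  have hq2 : q ≤ α ^ 2 := by rw [hq]; exact min_le_right _ _
  obtain ⟨c, hc⟩ : ∃ c : ℝ, c = min 1 (m ^ 2 * q / Real.pi / (C4 * (2 * Real.pi))) := ⟨_, rfl⟩
  have hcp : 0 < c := by rw [hc]; exact lt_min one_pos (by positivity)
  have hc1 : c ≤ 1 := by rw [hc]; exact min_le_left _ _
  have hc2 : c ≤ m ^ 2 * q / Real.pi / (C4 * (2 * Real.pi)) := by rw [hc]; exact min_le_right _ _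
  obtain ⟨N0, hN0⟩ := exists_nat_ge (Real.pi * ((1 + |ρ.im|) ^ 2 * C3) / m)
  refine ⟨c, N0 + 1, hcp, ?_⟩
  intro N hN a
  have hN1 : 1 ≤ N := by omega
  have hN1' : (1 : ℝ) ≤ N := by exact_mod_cast hN1
  rcases le_or_gt (D.err N a) 1 with hE | hE
  swap
  · refine le_trans ?_ hE.le
    have h2 : (N : ℝ) ^ (-(2 * α) - ε) ≤ 1 :=
      Real.rpow_le_one_of_one_le_of_nonpos hN1' (by linarith)
    calc c * (N : ℝ) ^ (-(2 * α) - ε) ≤ 1 * 1 :=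
          mul_le_mul hc1 h2 (Real.rpow_nonneg (by linarith) _) zero_le_one
      _ = 1 := one_mul 1
  have hlog : 0 ≤ Real.log N := Real.log_nonneg hN1'
  have hV0 : 0 ≤ (1 + d) * Real.log N := mul_nonneg (by linarith) hlog
  have hA' := hA N a hN1 hE
  have hQ : 0 ≤ (1 + |ρ.im|) ^ 2 * C3 := by positivity
  have hNr : 0 < (N : ℝ) ^ (B + 1 / 4) := Real.rpow_pos_of_pos (by linarith) _
  have hMp : 0 < (1 + |ρ.im|) ^ 2 * C3 * (N : ℝ) ^ (B + 1 / 4) := by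
    have : 0 < 1 + |ρ.im| := by positivity
    positivity
  have hfin := core (K := K) (C4 := C4) hp.1 hs hα hBα hα0 hV0 hMp
    (fun z hz1 hz2 => F_shift hb.hP hb.hP1 hB1 hC1 hC2 hZ hK.ge hN1 hA' hα hC3 z hz1 hz2)
    (small hN1' hQ hm0 hN0 (by omega) hBd) hm0 (by rw [hFρ, hm]) hqp hq1 hq2
    (fun t => by
      rw [hC4]
      exact F_line hb.hP hb.hP1 hb.hw hB1 (by omega) N a t) (hi N a)
  exact final hα0 hN1' hd hC4p hc2 hfin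

end ExpL

theorem expL {D : Dat} (hb : Base D) (hp : D.Poly) (hg : S_grow D) (hi : S_int D)
    (hs : Pool.Agent.N967.S_shift) {ρ : ℂ} (h0 : D.Zs ρ = 0) (h1 : ρ.re < 1 / 2) {ε : ℝ}
    (hε : 0 < ε) : ∃ (c : ℝ) (N0 : ℕ), 0 < c ∧ ∀ N : ℕ, N0 ≤ N → ∀ a : ℕ → ℂ,
      c * (N : ℝ) ^ (-(2 * (1 / 2 - ρ.re)) - ε) ≤ D.err N a :=
  ExpL.main hb hp hg hi hs h0 h1 hε

end Pool.Agent.N967.H
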