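import Mathlib
import Pool.Agent.N967.H.Stm
import Pool.Agent.N967.App
import Pool.Agent.N967.G.App

set_option autoImplicit false

/-!
# The distance on an arbitrary line: the upper bound for the exponent (helper82)
-/

namespace Pool.Agent.N967.H

open Complex MeasureTheory Filter Topology
open Pool.Agent.Y23 (Lg)
open Pool.Agent.N967.G (KR KerB)
open Pool.Agent.N967.G.App (dec ker_any half)

/-- no zeros and slow growth of the inverse to the right of `re s = 1/2 - h` -/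
def Dat.Ext (D : Dat) (h : ℝ) : Prop := ∀ δ η : ℝ, 0 < δ → 0 < η → ∃ C : ℝ, 0 < C ∧ ∀ s : ℂ,
  1 / 2 - h + δ ≤ s.re → DifferentiableAt ℂ D.Zs s ∧ D.Zs s ≠ 0 ∧ ‖D.fz s‖ ≤ C * Real.exp (η * Lg s.im)

namespace ExpU

lemma exp_Lg (η t : ℝ) : Real.exp (η * Lg t) = (3 + |t|) ^ η := by
  rw [Real.rpow_def_of_pos (by positivity), Lg, mul_comm]

/-- the scaled kernel -/
lemma kscale {κ₁ : ℂ → ℂ} (h : Ker κ₁) {e : ℝ} (he : 0 < e) (he1 : e < 1) : ∃ κ : ℂ → ℂ, Ker κ ∧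
    ∃ c C : ℝ, 0 < c ∧ 0 < C ∧ ∀ z : ℂ, 0 ≤ z.re →
      ‖κ z‖ ≤ C * Real.exp (-((1 - e) * z.re)) * Real.exp (-(c * |z.im| ^ (19 / 20 : ℝ))) := by
  obtain ⟨hd, h0, c, C, hc, hC, h1, h2⟩ := h
  have hnorm : ∀ z : ℂ, ‖Complex.exp (-((1 - e : ℝ) : ℂ) * z)‖ = Real.exp (-((1 - e) * z.re)) := by
    intro z
    rw [Complex.norm_exp]
    congr 1
    rw [← Complex.ofReal_neg, Complex.re_ofReal_mul]
    ring
  have hre : ∀ z : ℂ, ((e : ℂ) * z).re = e * z.re := fun z => Complex.re_ofReal_mul e z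
  have him : ∀ z : ℂ, c * |((e : ℂ) * z).im| ^ (19 / 20 : ℝ) =
      (c * e ^ (19 / 20 : ℝ)) * |z.im| ^ (19 / 20 : ℝ) := by
    intro z
    rw [Complex.im_ofReal_mul, abs_mul, abs_of_pos he, Real.mul_rpow he.le (abs_nonneg _)]
    ring
  have hb1 : ∀ z : ℂ, 0 ≤ z.re → ‖Complex.exp (-((1 - e : ℝ) : ℂ) * z) * κ₁ ((e : ℂ) * z)‖ ≤
      C * Real.exp (-((1 - e) * z.re)) *
        Real.exp (-((c * e ^ (19 / 20 : ℝ)) * |z.im| ^ (19 / 20 : ℝ))) := by
    intro z hz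
    rw [norm_mul, hnorm]
    have h3 := h1 ((e : ℂ) * z) (by rw [hre]; positivity)
    rw [him] at h3
    calc Real.exp (-((1 - e) * z.re)) * ‖κ₁ ((e : ℂ) * z)‖
        ≤ Real.exp (-((1 - e) * z.re)) *
          (C * Real.exp (-((c * e ^ (19 / 20 : ℝ)) * |z.im| ^ (19 / 20 : ℝ)))) := by gcongr
      _ = _ := by ring
  refine ⟨fun z => Complex.exp (-((1 - e : ℝ) : ℂ) * z) * κ₁ ((e : ℂ) * z), ⟨?_, ?_,
    c * e ^ (19 / 20 : ℝ), C, by positivity, hC, ?_, ?_⟩, c * e ^ (19 / 20 : ℝ), C, by positivity,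
    hC, hb1⟩
  · have h4 : Differentiable ℂ fun z : ℂ => Complex.exp (-((1 - e : ℝ) : ℂ) * z) := by fun_prop
    have h5 : Differentiable ℂ fun z : ℂ => (e : ℂ) * z := by fun_prop
    exact h4.mul (hd.comp h5)
  · simp [h0]
  · intro z hz
    refine (hb1 z hz).trans ?_
    have h3 : Real.exp (-((1 - e) * z.re)) ≤ 1 := by
      rw [Real.exp_le_one_iff]
      have : 0 ≤ (1 - e) * z.re := mul_nonneg (by linarith) hz
      linarith
    calc C * Real.exp (-((1 - e) * z.re)) *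
          Real.exp (-((c * e ^ (19 / 20 : ℝ)) * |z.im| ^ (19 / 20 : ℝ)))
        ≤ C * 1 * Real.exp (-((c * e ^ (19 / 20 : ℝ)) * |z.im| ^ (19 / 20 : ℝ))) := by gcongr
      _ = _ := by ring
  · intro z hz
    rw [norm_mul, hnorm]
    have h3 := h2 ((e : ℂ) * z) (by
      rw [hre]
      exact mul_nonpos_of_nonneg_of_nonpos he.le hz)
    rw [him, hre] at h3
    calc Real.exp (-((1 - e) * z.re)) * ‖κ₁ ((e : ℂ) * z)‖
        ≤ Real.exp (-((1 - e) * z.re)) * (C * Real.exp (-(e * z.re)) *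
          Real.exp (-((c * e ^ (19 / 20 : ℝ)) * |z.im| ^ (19 / 20 : ℝ)))) := by gcongr
      _ = C * (Real.exp (-((1 - e) * z.re)) * Real.exp (-(e * z.re))) *
          Real.exp (-((c * e ^ (19 / 20 : ℝ)) * |z.im| ^ (19 / 20 : ℝ))) := by ring
      _ = C * Real.exp (-z.re) *
          Real.exp (-((c * e ^ (19 / 20 : ℝ)) * |z.im| ^ (19 / 20 : ℝ))) := by
          rw [← Real.exp_add]
          congr 3
          ring

lemma int2 : Integrable (fun y : ℝ => 1 / (1 + |y|) ^ 2) := by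
  have h := integrable_one_add_norm (E := ℝ) (μ := volume) (r := 2) (by simp)
  refine h.congr (Eventually.of_forall fun y => ?_)
  change (1 + ‖y‖) ^ (-(2 : ℝ)) = 1 / (1 + |y|) ^ 2
  rw [Real.norm_eq_abs, Real.rpow_neg (by positivity), Real.rpow_two, one_div]

lemma int32 : Integrable (fun y : ℝ => (1 + |y|) ^ (-(3 / 2 : ℝ))) := by
  have h := integrable_one_add_norm (E := ℝ) (μ := volume) (r := 3 / 2) (by simp; norm_num)
  exact h

/-- the pointwise bound -/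
lemma ptw {D : Dat} (hP : 1 / 2 < D.P) (hcr : S_crit D) {h : ℝ} (hh : 0 < h)
    (hE : D.Ext h) {e : ℝ} (he : 0 < e) (he1 : e < 1) (heh : e ≤ h / 2) {κ : ℂ → ℂ} (hκ : Ker κ)
    {c C : ℝ} (hc : 0 < c) (hC : 0 < C) (hκ2 : ∀ z : ℂ, 0 ≤ z.re →
      ‖κ z‖ ≤ C * Real.exp (-((1 - e) * z.re)) * Real.exp (-(c * |z.im| ^ (19 / 20 : ℝ)))) :
    ∃ K : ℝ, 0 < K ∧ ∀ L : ℝ, 4 ≤ L → ∀ t : ℝ,
      ‖D.HR κ 1 L t‖ ≤ K * Real.exp (-((1 - e) * ((h - e) * L))) * (3 + |t|) ^ (1 / 4 : ℝ) := by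
  obtain ⟨C2, hC2, hE2⟩ := hE e (1 / 8) he (by norm_num)
  obtain ⟨C3, hC3, hL3⟩ := hcr (1 / 8) (by norm_num)
  obtain ⟨B3, hB3, hdec⟩ := dec hc 3
  set I2 : ℝ := ∫ y : ℝ, 1 / (1 + |y|) ^ 2 with hI2
  have hI20 : 0 ≤ I2 := integral_nonneg fun y => by positivity
  set K0 : ℝ := C * B3 * (1 + C3 * C2) / (2 * h) with hK0
  have hK00 : 0 < K0 := by positivity
  refine ⟨1 / (2 * Real.pi) * (K0 * I2) + 1, by positivity, fun L hL t => ?_⟩
  have hL0 : 0 < L := by linarith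
  set b : ℝ := (h - e) * L with hb
  have hbh : 2 * h ≤ b := by
    have : h / 2 ≤ h - e := by linarith
    calc 2 * h = (h / 2) * 4 := by ring
      _ ≤ (h - e) * L := by
          apply mul_le_mul this hL (by norm_num) (by linarith)
  have hb0 : 0 < b := by linarith
  set s : ℂ := 1 / 2 + t * I with hsd
  have hsre : s.re = 1 / 2 := by simp [hsd]
  have hsim : s.im = t := by simp [hsd]
  have hre : ∀ z : ℂ, (s - z / L).re = 1 / 2 - z.re / L := by
    intro z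
    rw [Complex.sub_re, hsre, Complex.div_ofReal_re]
  have him : ∀ z : ℂ, (s - z / L).im = t - z.im / L := by
    intro z
    rw [Complex.sub_im, hsim, Complex.div_ofReal_im]
  have hrange : ∀ z : ℂ, z.re ≤ b → 1 / 2 - h + e ≤ (s - z / L).re := by
    intro z hz
    rw [hre]
    have : z.re / L ≤ h - e := by
      rw [div_le_iff₀ hL0]; exact hz
    linarith
  have h3t : 1 ≤ 3 + |t| := by linarith [abs_nonneg t]
  have hfz : ∀ z : ℂ, z.re ≤ b →
      ‖D.fz (s - z / L)‖ ≤ C2 * ((3 + |t|) ^ (1 / 8 : ℝ) * (1 + |z.im|)) := by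
    intro z hz
    refine (hE2 _ (hrange z hz)).2.2.trans ?_
    rw [exp_Lg, him]
    have h4 : 3 + |t - z.im / L| ≤ (3 + |t|) * (1 + |z.im|) := by
      have h5 : |t - z.im / L| ≤ |t| + |z.im| := by
        refine (abs_sub _ _).trans ?_
        have : |z.im / L| ≤ |z.im| := by
          rw [abs_div, abs_of_pos hL0]
          exact div_le_self (abs_nonneg _) (by linarith)
        linarith
      nlinarith [abs_nonneg t, abs_nonneg z.im]
    have h6 : (1 : ℝ) ≤ 1 + |z.im| := by linarith [abs_nonneg z.im]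
    have h7 : (3 + |t - z.im / L|) ^ (1 / 8 : ℝ) ≤ (3 + |t|) ^ (1 / 8 : ℝ) * (1 + |z.im|) := by
      calc (3 + |t - z.im / L|) ^ (1 / 8 : ℝ) ≤ ((3 + |t|) * (1 + |z.im|)) ^ (1 / 8 : ℝ) :=
            Real.rpow_le_rpow (by positivity) h4 (by norm_num)
        _ = (3 + |t|) ^ (1 / 8 : ℝ) * (1 + |z.im|) ^ (1 / 8 : ℝ) :=
            Real.mul_rpow (by positivity) (by positivity)
        _ ≤ (3 + |t|) ^ (1 / 8 : ℝ) * (1 + |z.im|) := by
            gcongr
            calc (1 + |z.im|) ^ (1 / 8 : ℝ) ≤ (1 + |z.im|) ^ (1 : ℝ) :=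
                  Real.rpow_le_rpow_of_exponent_le h6 (by norm_num)
              _ = 1 + |z.im| := Real.rpow_one _
    gcongr
  have hLs : ‖D.L s‖ ≤ C3 * (3 + |t|) ^ (1 / 8 : ℝ) := by
    have := hL3 t
    rwa [exp_Lg] at this
  have hT : (3 + |t|) ^ (1 / 8 : ℝ) * (3 + |t|) ^ (1 / 8 : ℝ) = (3 + |t|) ^ (1 / 4 : ℝ) := by
    rw [← Real.rpow_add (by linarith)]; norm_num
  have hT1 : 1 ≤ (3 + |t|) ^ (1 / 4 : ℝ) := Real.one_le_rpow h3t (by norm_num)
  have hG : ∀ z : ℂ, z.re ≤ b → ‖1 - D.L s * D.fz (s - z / L)‖ ≤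
      (1 + C3 * C2) * (3 + |t|) ^ (1 / 4 : ℝ) * (1 + |z.im|) := by
    intro z hz
    have h6 : (1 : ℝ) ≤ 1 + |z.im| := by linarith [abs_nonneg z.im]
    calc ‖1 - D.L s * D.fz (s - z / L)‖ ≤ ‖(1 : ℂ)‖ + ‖D.L s * D.fz (s - z / L)‖ :=
          norm_sub_le _ _
      _ ≤ 1 + (C3 * (3 + |t|) ^ (1 / 8 : ℝ)) * (C2 * ((3 + |t|) ^ (1 / 8 : ℝ) * (1 + |z.im|))) := by
          rw [norm_one, norm_mul]
          gcongr
          exact hfz z hz
      _ = 1 * 1 + C3 * C2 * (3 + |t|) ^ (1 / 4 : ℝ) * (1 + |z.im|) := by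
          rw [← hT]; ring
      _ ≤ (3 + |t|) ^ (1 / 4 : ℝ) * (1 + |z.im|) +
          C3 * C2 * (3 + |t|) ^ (1 / 4 : ℝ) * (1 + |z.im|) := by
          gcongr
      _ = _ := by ring
  set F : ℂ → ℂ := fun z => κ z * (1 - D.L s * D.fz (s - z / L)) with hF
  -- differentiability
  have hdiff : ∀ z : ℂ, (-1 : ℝ) ≤ z.re → z.re ≤ b → DifferentiableAt ℂ F z := by
    intro z _ hz
    obtain ⟨d1, d2, -⟩ := hE2 _ (hrange z hz)
    have h4 : DifferentiableAt ℂ (fun z : ℂ => s - z / L) z := by fun_prop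
    have h5 : DifferentiableAt ℂ D.fz (s - z / L) := by
      unfold Dat.fz
      exact DifferentiableAt.div (by fun_prop) d1 d2
    have h6 : DifferentiableAt ℂ (fun z : ℂ => D.fz (s - z / L)) z :=
      DifferentiableAt.comp (g := D.fz) (f := fun z : ℂ => s - z / L) z h5 h4
    exact (hκ.1 z).mul ((differentiableAt_const _).sub ((differentiableAt_const _).mul h6))
  -- growth
  obtain ⟨B, hB, hkB⟩ := ker_any hκ 2 (b := 1) zero_le_one
  have hgr : ∀ z : ℂ, (-1 : ℝ) ≤ z.re → z.re ≤ b → ‖F z‖ ≤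
      (B * ((1 + C3 * C2) * (3 + |t|) ^ (1 / 4 : ℝ))) * (1 + |z.im|) ^ (-(1 / 2 : ℝ)) := by
    intro z hz1 hz
    have h4 := hkB z hz1
    have h5 := hG z hz
    have h6 : 0 < 1 + |z.im| := by positivity
    calc ‖F z‖ = ‖κ z‖ * ‖1 - D.L s * D.fz (s - z / L)‖ := norm_mul _ _
      _ ≤ (B / (1 + |z.im|) ^ 2) * ((1 + C3 * C2) * (3 + |t|) ^ (1 / 4 : ℝ) * (1 + |z.im|)) := by
          gcongr
      _ = (B * ((1 + C3 * C2) * (3 + |t|) ^ (1 / 4 : ℝ))) * (1 / (1 + |z.im|)) := by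
          field_simp
      _ ≤ _ := by
          gcongr
          exact half
  have hsh := Pool.Agent.N967.shift F (-1) b _ (by norm_num) hb0 hdiff hgr
  -- the value at zero
  have hs0 := hE2 s (by rw [hsre]; linarith)
  have hsP : s - D.P ≠ 0 := by
    intro h4
    have := congrArg Complex.re h4
    rw [Complex.sub_re, hsre, Complex.ofReal_re, Complex.zero_re] at this
    linarith
  have hF0 : F 0 = 0 := by
    simp only [hF, zero_div, sub_zero]
    have : D.L s * D.fz s = 1 := by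
      unfold Dat.L Dat.fz
      have h4 : (s - D.P) ^ D.p ≠ 0 := pow_ne_zero _ hsP
      have h5 := hs0.2.1
      field_simp
    rw [this, sub_self, mul_zero]
  rw [hF0, mul_zero] at hsh
  have hHR : D.HR κ 1 L t = -(1 / (2 * Real.pi)) *
      ∫ y : ℝ, F (((-1 : ℝ) : ℂ) + y * I) / (((-1 : ℝ) : ℂ) + y * I) := by
    rw [← integral_const_mul]
    unfold Dat.HR
    congr 1
    funext y
    unfold Pool.Agent.N967.G.KR Dat.Fr
    simp only [hF]
    have e1 : (1 / 2 : ℂ) + ((1 / L : ℝ) : ℂ) + ((t + -(y / L) : ℝ) : ℂ) * I =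
        s - (((-1 : ℝ) : ℂ) + y * I) / L := by
      rw [hsd]
      have : (L : ℂ) ≠ 0 := by exact_mod_cast hL0.ne'
      push_cast
      field_simp
      ring
    rw [e1]
    push_cast
    ring
  rw [hHR, ← sub_eq_zero.1 hsh]
  -- the bound on the right line
  have hbd : ∀ y : ℝ, ‖F ((b : ℂ) + y * I) / ((b : ℂ) + y * I)‖ ≤
      (K0 * Real.exp (-((1 - e) * b)) * (3 + |t|) ^ (1 / 4 : ℝ)) * (1 / (1 + |y|) ^ 2) := by
    intro y
    have hzre : ((b : ℂ) + y * I).re = b := by simp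
    have hzim : ((b : ℂ) + y * I).im = y := by simp
    have h4 := hκ2 ((b : ℂ) + y * I) (by rw [hzre]; exact hb0.le)
    rw [hzre, hzim] at h4
    have h5 := hG ((b : ℂ) + y * I) (by rw [hzre])
    rw [hzim] at h5
    have h6 : b ≤ ‖(b : ℂ) + y * I‖ := by
      have := Complex.abs_re_le_norm ((b : ℂ) + y * I)
      rw [hzre] at this
      exact (le_abs_self _).trans this
    have h7 := hdec |y| (abs_nonneg y)
    have h8 : 0 < 1 + |y| := by positivity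
    rw [norm_div, norm_mul]
    calc ‖κ ((b : ℂ) + y * I)‖ * ‖1 - D.L s * D.fz (s - ((b : ℂ) + y * I) / L)‖ / ‖(b : ℂ) + y * I‖
        ≤ (C * Real.exp (-((1 - e) * b)) * (B3 / (1 + |y|) ^ 3)) *
          ((1 + C3 * C2) * (3 + |t|) ^ (1 / 4 : ℝ) * (1 + |y|)) / (2 * h) := by
          gcongr
          · exact h4.trans (by gcongr)
          · exact hbh.trans h6
      _ = _ := by
          rw [hK0]
          field_simp
  have hint : Integrable (fun y : ℝ =>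
      (K0 * Real.exp (-((1 - e) * b)) * (3 + |t|) ^ (1 / 4 : ℝ)) * (1 / (1 + |y|) ^ 2)) :=
    int2.const_mul _
  have hn := norm_integral_le_of_norm_le hint (Eventually.of_forall hbd)
  rw [integral_const_mul, ← hI2] at hn
  rw [norm_mul, norm_neg, norm_div, norm_one, norm_mul, Complex.norm_real,
    Real.norm_of_nonneg Real.pi_pos.le, Complex.norm_ofNat]
  calc 1 / (2 * Real.pi) * ‖∫ y : ℝ, F ((b : ℂ) + y * I) / ((b : ℂ) + y * I)‖
      ≤ 1 / (2 * Real.pi) * ((K0 * Real.exp (-((1 - e) * b)) * (3 + |t|) ^ (1 / 4 : ℝ)) * I2) := by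
        gcongr
    _ = (1 / (2 * Real.pi) * (K0 * I2)) * Real.exp (-((1 - e) * b)) * (3 + |t|) ^ (1 / 4 : ℝ) := by
        ring
    _ ≤ (1 / (2 * Real.pi) * (K0 * I2) + 1) * Real.exp (-((1 - e) * b)) *
        (3 + |t|) ^ (1 / 4 : ℝ) := by
        gcongr
        linarith

lemma weight {w t : ℝ} (hw : 1 / 2 ≤ w) :
    ((3 + |t|) ^ (1 / 4 : ℝ)) ^ 2 / (w ^ 2 + t ^ 2) ≤ 24 * (1 + |t|) ^ (-(3 / 2 : ℝ)) := by
  have h1 : 0 < 1 + |t| := by positivity
  have e1 : ((3 + |t|) ^ (1 / 4 : ℝ)) ^ 2 = (3 + |t|) ^ (1 / 2 : ℝ) := by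
    rw [← Real.rpow_natCast, ← Real.rpow_mul (by positivity)]; norm_num
  have e2 : (3 + |t|) ^ (1 / 2 : ℝ) ≤ 3 * (1 + |t|) ^ (1 / 2 : ℝ) := by
    calc (3 + |t|) ^ (1 / 2 : ℝ) ≤ (3 * (1 + |t|)) ^ (1 / 2 : ℝ) :=
          Real.rpow_le_rpow (by positivity) (by linarith [abs_nonneg t]) (by norm_num)
      _ = 3 ^ (1 / 2 : ℝ) * (1 + |t|) ^ (1 / 2 : ℝ) := Real.mul_rpow (by norm_num) (by positivity)
      _ ≤ 3 * (1 + |t|) ^ (1 / 2 : ℝ) := by
          gcongr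
          calc (3 : ℝ) ^ (1 / 2 : ℝ) ≤ 3 ^ (1 : ℝ) :=
                Real.rpow_le_rpow_of_exponent_le (by norm_num) (by norm_num)
            _ = 3 := Real.rpow_one _
  have e3 : (1 + |t|) ^ 2 / 8 ≤ w ^ 2 + t ^ 2 := by
    have h2 : 1 / 4 ≤ w ^ 2 := by nlinarith
    have h3 : t ^ 2 = |t| ^ 2 := (sq_abs t).symm
    rw [h3]
    nlinarith [sq_nonneg (|t| - 1)]
  have e4 : (1 + |t|) ^ (1 / 2 : ℝ) = (1 + |t|) ^ (-(3 / 2 : ℝ)) * (1 + |t|) ^ 2 := by
    rw [← Real.rpow_natCast (1 + |t|) 2, ← Real.rpow_add h1]; norm_num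
  rw [e1]
  calc (3 + |t|) ^ (1 / 2 : ℝ) / (w ^ 2 + t ^ 2)
      ≤ (3 * (1 + |t|) ^ (1 / 2 : ℝ)) / ((1 + |t|) ^ 2 / 8) := by gcongr
    _ = 24 * (1 + |t|) ^ (-(3 / 2 : ℝ)) := by
        rw [e4]
        field_simp
        ring

end ExpU

open ExpU in
/-- the upper bound for the exponent, for the error and for the distance -/
theorem expU_dd {D : Dat} (R : Rp D) (hcr : S_crit D) (happ : S_app D) (hk : ∃ κ, Ker κ) {h : ℝ}
    (hh : 0 < h) (hE : D.Ext h) {ε : ℝ} (hε : 0 < ε) : ∃ C : ℝ, 0 < C ∧ ∀ N : ℕ, 2 ≤ N →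
      (∃ a : ℕ → ℂ, D.err N a ≤ C * (N : ℝ) ^ (-(2 * h) + ε)) ∧
        D.dd N ≤ C * (N : ℝ) ^ (-(2 * h) + ε) := by
  obtain ⟨κ₁, hκ₁⟩ := hk
  set e : ℝ := min (1 / 2) (min (h / 2) (ε / (2 * (1 + h)))) with he
  have he0 : 0 < e := by
    rw [he]
    refine lt_min (by norm_num) (lt_min (by linarith) (by positivity))
  have he1 : e ≤ 1 / 2 := min_le_left _ _
  have he2 : e ≤ h / 2 := (min_le_right _ _).trans (min_le_left _ _)
  have he3 : 2 * (1 + h) * e ≤ ε := by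
    have h1 : e ≤ ε / (2 * (1 + h)) := (min_le_right _ _).trans (min_le_right _ _)
    rw [le_div_iff₀ (by positivity)] at h1
    linarith
  obtain ⟨κ, hκ, c, C, hc, hC, hκ2⟩ := kscale hκ₁ he0 (by linarith)
  obtain ⟨K, hK, hpt⟩ := ptw R.base.hP hcr hh hE he0 (by linarith) he2 hκ hc hC hκ2
  set q : ℝ := 2 * ((1 - e) * (h - e)) with hq
  have hqe : 2 * h - ε ≤ q := by
    rw [hq]
    nlinarith [sq_nonneg e]
  set J : ℝ := ∫ t : ℝ, (1 + |t|) ^ (-(3 / 2 : ℝ)) with hJ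
  have hJ0 : 0 ≤ J := integral_nonneg fun t => by positivity
  set E0 : ℝ := 1 / (2 * Real.pi) * ∫ t : ℝ, 1 / (D.w ^ 2 + t ^ 2) with hE0
  have hE00 : 0 ≤ E0 := mul_nonneg (by positivity) (integral_nonneg fun t => by positivity)
  set x : ℝ := -(2 * h) + ε with hx
  set C1 : ℝ := 1 / (2 * Real.pi) * (K ^ 2 * 24 * J) with hC1
  have hC10 : 0 ≤ C1 := by positivity
  have hbdd : ∀ N : ℕ, BddBelow (Set.range fun a : ℕ → ℂ => D.err N a) := by
    intro N
    refine ⟨0, ?_⟩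
    rintro _ ⟨a, rfl⟩
    exact mul_nonneg (by positivity) (integral_nonneg fun t => by
      unfold Dat.ig; positivity)
  suffices hmain : ∀ N : ℕ, 2 ≤ N → ∃ a : ℕ → ℂ,
      D.err N a ≤ (C1 + E0 * Real.exp (4 * |x|) + 1) * (N : ℝ) ^ x by
    refine ⟨C1 + E0 * Real.exp (4 * |x|) + 1, by positivity, fun N hN => ?_⟩
    obtain ⟨a, ha⟩ := hmain N hN
    exact ⟨⟨a, ha⟩, (ciInf_le (hbdd N) a).trans ha⟩
  intro N hN
  have hN0 : (0 : ℝ) < N := by
    have : 0 < N := by omega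
    exact_mod_cast this
  have hN1 : (1 : ℝ) ≤ N := by
    have : 1 ≤ N := by omega
    exact_mod_cast this
  have hlog0 : 0 ≤ Real.log N := Real.log_nonneg hN1
  have hlog1 : Real.log N ≤ Real.log (N + 1) := Real.log_le_log hN0 (by linarith)
  have hNx : (N : ℝ) ^ x = Real.exp (Real.log N * x) := Real.rpow_def_of_pos hN0 x
  have hNx0 : 0 < (N : ℝ) ^ x := by positivity
  rcases lt_or_ge (Real.log (N + 1)) 4 with hsmall | hlarge
  · refine ⟨fun _ => 0, ?_⟩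
    have h1 : D.err N (fun _ => 0) = E0 := by
      unfold Dat.err Dat.ig DP
      rw [hE0]
      simp
    rw [h1]
    have h2 : Real.exp (-(4 * |x|)) ≤ (N : ℝ) ^ x := by
      rw [hNx, Real.exp_le_exp]
      have h3 : -(|x|) ≤ x := neg_abs_le x
      have h4 : 0 ≤ |x| := abs_nonneg x
      nlinarith
    calc E0 = E0 * Real.exp (4 * |x|) * Real.exp (-(4 * |x|)) := by
          rw [mul_assoc, ← Real.exp_add, add_neg_cancel, Real.exp_zero, mul_one]
      _ ≤ E0 * Real.exp (4 * |x|) * (N : ℝ) ^ x := by gcongr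
      _ ≤ (C1 + E0 * Real.exp (4 * |x|) + 1) * (N : ℝ) ^ x := by
          gcongr
          linarith
  · obtain ⟨a, ha⟩ := happ κ hκ (Real.log (N + 1)) hlarge N le_rfl
    refine ⟨a, ?_⟩
    set L : ℝ := Real.log (N + 1) with hL
    set E : ℝ := Real.exp (-((1 - e) * ((h - e) * L))) with hEd
    have hig : ∀ t : ℝ, D.ig N a t ≤ (K * E) ^ 2 * (24 * (1 + |t|) ^ (-(3 / 2 : ℝ))) := by
      intro t
      unfold Dat.ig
      rw [ha 1 one_pos t]
      have h1 := hpt L hlarge t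
      have h2 := weight (t := t) R.base.hw
      have h3 : 0 < D.w ^ 2 + t ^ 2 := by
        have := R.base.hw
        positivity
      calc ‖D.HR κ 1 L t‖ ^ 2 / (D.w ^ 2 + t ^ 2)
          ≤ (K * E * (3 + |t|) ^ (1 / 4 : ℝ)) ^ 2 / (D.w ^ 2 + t ^ 2) := by gcongr
        _ = (K * E) ^ 2 * (((3 + |t|) ^ (1 / 4 : ℝ)) ^ 2 / (D.w ^ 2 + t ^ 2)) := by ring
        _ ≤ _ := by gcongr
    have hint : Integrable (fun t : ℝ => (K * E) ^ 2 * (24 * (1 + |t|) ^ (-(3 / 2 : ℝ)))) :=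
      (int32.const_mul _).const_mul _
    have h4 : ∫ t : ℝ, D.ig N a t ≤ ∫ t : ℝ, (K * E) ^ 2 * (24 * (1 + |t|) ^ (-(3 / 2 : ℝ))) :=
      integral_mono_of_nonneg (Eventually.of_forall fun t => by
        change 0 ≤ D.ig N a t
        unfold Dat.ig
        positivity) hint (Eventually.of_forall hig)
    rw [integral_const_mul, integral_const_mul, ← hJ] at h4
    have hE2 : E ^ 2 ≤ (N : ℝ) ^ x := by
      have h5 : E ^ 2 = Real.exp (-(q * L)) := by
        rw [hEd, ← Real.exp_nat_mul]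
        congr 1
        rw [hq]
        push_cast
        ring
      rw [h5, hNx, Real.exp_le_exp]
      have h6 : 0 ≤ q := by
        rw [hq]
        have : 0 ≤ h - e := by linarith
        have : 0 ≤ 1 - e := by linarith
        positivity
      have h7 : q * Real.log N ≤ q * L := mul_le_mul_of_nonneg_left hlog1 h6
      have h8 : (2 * h - ε) * Real.log N ≤ q * Real.log N :=
        mul_le_mul_of_nonneg_right hqe hlog0
      rw [hx]
      linarith
    calc D.err N a = 1 / (2 * Real.pi) * ∫ t : ℝ, D.ig N a t := rfl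
      _ ≤ 1 / (2 * Real.pi) * ((K * E) ^ 2 * (24 * J)) := by gcongr
      _ = C1 * E ^ 2 := by rw [hC1]; ring
      _ ≤ C1 * (N : ℝ) ^ x := by gcongr
      _ ≤ (C1 + E0 * Real.exp (4 * |x|) + 1) * (N : ℝ) ^ x := by
          gcongr
          have : 0 ≤ E0 * Real.exp (4 * |x|) := by positivity
          linarith

/-- the upper bound for the exponent -/
theorem expU {D : Dat} (R : Rp D) (hcr : S_crit D) (happ : S_app D) (hk : ∃ κ, Ker κ) {h : ℝ}
    (hh : 0 < h) (hE : D.Ext h) {ε : ℝ} (hε : 0 < ε) : ∃ C : ℝ, 0 < C ∧ ∀ N : ℕ, 2 ≤ N →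
      ∃ a : ℕ → ℂ, D.err N a ≤ C * (N : ℝ) ^ (-(2 * h) + ε) := by
  obtain ⟨C, hC, hC1⟩ := expU_dd R hcr happ hk hh hE hε
  exact ⟨C, hC, fun N hN => (hC1 N hN).1⟩

end Pool.Agent.N967.H
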