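import Mathlib
import Pool.Agent.N967.H.Stm
import Pool.Agent.W182.KO.Strip
import Pool.Agent.H437R2.A1

set_option autoImplicit false

/-!
# The distance on an arbitrary line: the shifted L-function; the zeta function
-/

namespace Pool.Agent.N967.H

open Complex MeasureTheory Filter Topology
open Pool.Agent.Y23 (Lg)

/-- the function shifted so that the line `re s = θ` becomes `re s = 1 / 2` -/
noncomputable def shD (D0 : Pool.Agent.N967.G.Dat) (θ : ℝ) : Dat where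
  Zs s := D0.Zs (s + ((θ - 1 / 2 : ℝ) : ℂ))
  p := D0.p
  P := 3 / 2 - θ
  w := θ

namespace Inst

lemma sub_P (θ : ℝ) (s : ℂ) :
    s - ((3 / 2 - θ : ℝ) : ℂ) = s + ((θ - 1 / 2 : ℝ) : ℂ) - 1 := by
  push_cast
  ring

end Inst

theorem shD_L (D0 : Pool.Agent.N967.G.Dat) (θ : ℝ) (s : ℂ) :
    (shD D0 θ).L s = D0.L (s + ((θ - 1 / 2 : ℝ) : ℂ)) := by
  show D0.Zs (s + ((θ - 1 / 2 : ℝ) : ℂ)) / (s - ((3 / 2 - θ : ℝ) : ℂ)) ^ D0.p = _
  rw [Inst.sub_P]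
  rfl

theorem shD_fz (D0 : Pool.Agent.N967.G.Dat) (θ : ℝ) (s : ℂ) :
    (shD D0 θ).fz s = D0.fz (s + ((θ - 1 / 2 : ℝ) : ℂ)) := by
  show (s - ((3 / 2 - θ : ℝ) : ℂ)) ^ D0.p / D0.Zs (s + ((θ - 1 / 2 : ℝ) : ℂ)) = _
  rw [Inst.sub_P]
  rfl

namespace Inst

lemma sh_re (θ : ℝ) (s : ℂ) : (s + ((θ - 1 / 2 : ℝ) : ℂ)).re = s.re + (θ - 1 / 2) := by
  rw [Complex.add_re, Complex.ofReal_re]

lemma sh_norm {θ : ℝ} (h0 : 1 / 2 ≤ θ) (h1 : θ < 1) (s : ℂ) :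
    1 + ‖s + ((θ - 1 / 2 : ℝ) : ℂ)‖ ≤ 2 * (1 + ‖s‖) := by
  have h2 := norm_add_le s ((θ - 1 / 2 : ℝ) : ℂ)
  rw [Complex.norm_real, Real.norm_of_nonneg (by linarith)] at h2
  have := norm_nonneg s
  linarith

lemma sh_ser {b : ℕ → ℂ} {s : ℂ} {d : ℂ} (h : LSeriesSummable b (s + d)) :
    LSeriesSummable (fun n => b n * (n : ℂ) ^ (-d)) s ∧
      LSeries b (s + d) = LSeries (fun n => b n * (n : ℂ) ^ (-d)) s := by
  have e : LSeries.term b (s + d) = LSeries.term (fun n => b n * (n : ℂ) ^ (-d)) s := by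
    funext n
    rcases eq_or_ne n 0 with rfl | hn
    · simp
    · have hn' : (n : ℂ) ≠ 0 := by exact_mod_cast hn
      have h1 : (n : ℂ) ^ s ≠ 0 := by
        rw [Ne, Complex.cpow_eq_zero_iff]
        tauto
      have h2 : (n : ℂ) ^ d ≠ 0 := by
        rw [Ne, Complex.cpow_eq_zero_iff]
        tauto
      rw [LSeries.term_of_ne_zero hn, LSeries.term_of_ne_zero hn, Complex.cpow_add _ _ hn',
        Complex.cpow_neg]
      field_simp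
  constructor
  · unfold LSeriesSummable at h ⊢
    rw [← e]
    exact h
  · unfold LSeries
    rw [e]

end Inst

theorem base_sh {D0 : Pool.Agent.N967.G.Dat} (hb : Pool.Agent.N967.G.Base D0) {θ : ℝ}
    (h0 : 1 / 2 ≤ θ) (h1 : θ < 1) : Base (shD D0 θ) := by
  refine ⟨?_, ?_, h0, fun s hs => ?_, fun hp => ?_, ?_⟩
  · show 1 / 2 < 3 / 2 - θ
    linarith
  · show 3 / 2 - θ ≤ 1
    linarith
  · have h2 := hb.diff (s + ((θ - 1 / 2 : ℝ) : ℂ)) (by rw [Inst.sh_re]; linarith)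
    exact DifferentiableAt.comp (g := D0.Zs) (f := fun z => z + ((θ - 1 / 2 : ℝ) : ℂ)) s h2
      (by fun_prop)
  · show D0.Zs (((3 / 2 - θ : ℝ) : ℂ) + ((θ - 1 / 2 : ℝ) : ℂ)) ≠ 0
    have e : ((3 / 2 - θ : ℝ) : ℂ) + ((θ - 1 / 2 : ℝ) : ℂ) = 1 := by
      push_cast
      ring
    rw [e]
    exact hb.one hp
  · obtain ⟨C, k, hC, hg⟩ := hb.growth
    refine ⟨C * 2 ^ k, k, by positivity, fun s hs => ?_⟩
    have h2 := hg (s + ((θ - 1 / 2 : ℝ) : ℂ)) (by rw [Inst.sh_re]; linarith)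
    refine h2.trans ?_
    rw [mul_assoc, ← mul_pow]
    have h3 := Inst.sh_norm h0 h1 s
    gcongr

theorem ax_sh {D0 : Pool.Agent.N967.G.Dat} (hb : Pool.Agent.N967.G.Base D0)
    (hser : ∃ (b : ℕ → ℂ) (σ1 : ℝ), 1 ≤ σ1 ∧ ∀ s : ℂ, σ1 < s.re →
      LSeriesSummable b s ∧ D0.fz s = LSeries b s)
    (hbd : ∃ C : ℝ, 0 < C ∧ ∀ s : ℂ, 5 / 2 ≤ s.re → ‖D0.L s‖ ≤ C ∧ ‖D0.fz s‖ ≤ C) {θ : ℝ}
    (h0 : 1 / 2 ≤ θ) (h1 : θ < 1) (hz : ∀ s : ℂ, θ < s.re → D0.Zs s ≠ 0) : Ax (shD D0 θ) := by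
  refine ⟨base_sh hb h0 h1, fun s hs => ?_, ?_, ?_⟩
  · exact hz _ (by rw [Inst.sh_re]; linarith)
  · obtain ⟨b, σ1, hσ, hs⟩ := hser
    refine ⟨fun n => b n * (n : ℂ) ^ (-((θ - 1 / 2 : ℝ) : ℂ)), σ1, hσ, fun s hs1 => ?_⟩
    obtain ⟨h2, h3⟩ := hs (s + ((θ - 1 / 2 : ℝ) : ℂ)) (by rw [Inst.sh_re]; linarith)
    obtain ⟨h4, h5⟩ := Inst.sh_ser h2
    refine ⟨h4, ?_⟩
    rw [shD_fz, h3, h5]
  · obtain ⟨C, hC, hs⟩ := hbd
    refine ⟨C, hC, fun s hs1 => ?_⟩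
    rw [shD_fz, shD_L]
    exact hs _ (by rw [Inst.sh_re]; linarith)

/-! ### the zeta function -/

/-- the zeta function without its pole -/
noncomputable def zD : Pool.Agent.N967.G.Dat where
  Zs := riemannZeta₁
  p := 1

theorem zD_L {s : ℂ} (hs : s ≠ 1) : zD.L s = riemannZeta s := by
  show riemannZeta₁ s / (s - 1) ^ 1 = _
  rw [riemannZeta_eq_inv_sub_mul hs, pow_one, div_eq_inv_mul]

theorem zD_Zs {s : ℂ} (hs : s ≠ 1) : zD.Zs s = (s - 1) * riemannZeta s := by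
  show riemannZeta₁ s = _
  rw [riemannZeta_eq_inv_sub_mul hs, mul_inv_cancel_left₀ (sub_ne_zero.2 hs)]

theorem zD_one : zD.Zs 1 = 1 := riemannZeta₁_one

theorem zD_zero {s : ℂ} (hs : s ≠ 1) : zD.Zs s = 0 ↔ riemannZeta s = 0 := by
  rw [zD_Zs hs, mul_eq_zero]
  exact ⟨fun h => h.resolve_left (sub_ne_zero.2 hs), fun h => Or.inr h⟩

theorem zD_mu {s : ℂ} (hs : s ≠ 1) : zD.mu s = analyticOrderNatAt riemannZeta s := by
  show analyticOrderNatAt riemannZeta₁ s = _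
  have h1 : riemannZeta₁ =ᶠ[𝓝 s] (fun z => z - 1) * riemannZeta := by
    filter_upwards [isOpen_compl_singleton.mem_nhds hs] with z hz
    exact zD_Zs hz
  have h2 : AnalyticAt ℂ (fun z : ℂ => z - 1) s := by fun_prop
  have h3 : AnalyticAt ℂ riemannZeta s := by
    apply DifferentiableOn.analyticAt (s := {1}ᶜ) _ (isOpen_compl_singleton.mem_nhds hs)
    intro z hz
    exact (differentiableAt_riemannZeta hz).differentiableWithinAt
  unfold analyticOrderNatAt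
  rw [analyticOrderAt_congr h1, analyticOrderAt_mul h2 h3,
    (h2.analyticOrderAt_eq_zero).2 (sub_ne_zero.2 hs), zero_add]

theorem zD_fz {s : ℂ} (hs : 1 < s.re) :
    LSeriesSummable (fun n => ((ArithmeticFunction.moebius n : ℤ) : ℂ)) s ∧
      zD.fz s = LSeries (fun n => ((ArithmeticFunction.moebius n : ℤ) : ℂ)) s := by
  refine ⟨ArithmeticFunction.LSeriesSummable_moebius_iff.2 hs, ?_⟩
  have h1 := ArithmeticFunction.LSeries_zeta_mul_Lseries_moebius hs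
  rw [ArithmeticFunction.LSeries_zeta_eq_riemannZeta hs] at h1
  have hs1 : s ≠ 1 := by
    rintro rfl
    simp at hs
  show (s - 1) ^ 1 / zD.Zs s = _
  rw [zD_Zs hs1, pow_one]
  have h2 : s - 1 ≠ 0 := sub_ne_zero.2 hs1
  have h3 : riemannZeta s ≠ 0 := left_ne_zero_of_mul (by rw [h1]; exact one_ne_zero)
  rw [div_mul_eq_div_div, div_self h2, one_div]
  exact (eq_inv_of_mul_eq_one_right h1).symm

theorem zD_ser : ∃ (b : ℕ → ℂ) (σ1 : ℝ), 1 ≤ σ1 ∧ ∀ s : ℂ, σ1 < s.re →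
    LSeriesSummable b s ∧ zD.fz s = LSeries b s :=
  ⟨_, 1, le_refl _, fun _ hs => zD_fz hs⟩

namespace Inst

/-- bound in a half-plane -/
lemma bnd {b : ℕ → ℂ} {x : ℝ} (h : LSeriesSummable b (x : ℂ)) : ∃ C : ℝ, 0 < C ∧ ∀ s : ℂ, x ≤ s.re →
    ‖LSeries b s‖ ≤ C := by
  have h1 : Summable fun n => ‖LSeries.term b (x : ℂ) n‖ := h.norm
  refine ⟨∑' n, ‖LSeries.term b (x : ℂ) n‖ + 1, by positivity, fun s hs => ?_⟩
  have h2 : ∀ n, ‖LSeries.term b s n‖ ≤ ‖LSeries.term b (x : ℂ) n‖ := fun n =>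
    LSeries.norm_term_le_of_re_le_re b (by simpa using hs) n
  have h3 : ‖LSeries b s‖ ≤ ∑' n, ‖LSeries.term b (x : ℂ) n‖ :=
    tsum_of_norm_bounded h1.hasSum h2
  linarith

end Inst

theorem zD_bd : ∃ C : ℝ, 0 < C ∧ ∀ s : ℂ, 5 / 2 ≤ s.re → ‖zD.L s‖ ≤ C ∧ ‖zD.fz s‖ ≤ C := by
  obtain ⟨C1, hC1, h1⟩ := Inst.bnd (b := fun n => ((ArithmeticFunction.moebius n : ℤ) : ℂ))
    (x := 5 / 2) (ArithmeticFunction.LSeriesSummable_moebius_iff.2 (by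
      rw [Complex.ofReal_re]
      norm_num))
  obtain ⟨C2, hC2, h2⟩ := Inst.bnd (b := fun n => ((ArithmeticFunction.zeta n : ℕ) : ℂ))
    (x := 5 / 2) (ArithmeticFunction.LSeriesSummable_zeta_iff.2 (by
      rw [Complex.ofReal_re]
      norm_num))
  refine ⟨max C1 C2, lt_max_of_lt_left hC1, fun s hs => ?_⟩
  have hs1 : 1 < s.re := by linarith
  have hs2 : s ≠ 1 := by
    rintro rfl
    simp at hs1
  constructor
  · rw [zD_L hs2, ← ArithmeticFunction.LSeries_zeta_eq_riemannZeta hs1]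
    exact (h2 s hs).trans (le_max_right _ _)
  · rw [(zD_fz hs1).2]
    exact (h1 s hs).trans (le_max_left _ _)

/-- polynomial growth in every half-plane -/
theorem zD_poly : Differentiable ℂ zD.Zs ∧ ∀ B : ℝ, ∃ (C : ℝ) (k : ℕ), 0 < C ∧
    ∀ s : ℂ, -B ≤ s.re → ‖zD.Zs s‖ ≤ C * (1 + ‖s‖) ^ k := by
  refine ⟨differentiable_riemannZeta₁, fun B => ?_⟩
  obtain ⟨K1, B1, hK1, hb⟩ := Pool.Agent.W182.KO.zeta_refl_bound (c := 1 + |B|)
    (by linarith [abs_nonneg B])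
  refine ⟨3 + K1, B1 + 2, by linarith, fun s hs => ?_⟩
  show ‖riemannZeta₁ s‖ ≤ _
  have hn : (1 : ℝ) ≤ 1 + ‖s‖ := by linarith [norm_nonneg s]
  have hn0 : (0 : ℝ) ≤ 1 + ‖s‖ := by linarith
  rcases le_or_gt (1 / 2) s.re with h | h
  · have h1 := Pool.Agent.H437R2.z1_norm_le h
    refine h1.trans ?_
    have h2 : (‖s‖ + 1) ^ 2 ≤ (1 + ‖s‖) ^ (B1 + 2) := by
      rw [add_comm ‖s‖ 1]
      exact pow_le_pow_right₀ hn (by omega)
    exact mul_le_mul (by linarith) h2 (by positivity) (by linarith)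
  · have hs1 : s ≠ 1 := by
      rintro rfl
      norm_num at h
    have hB := le_abs_self B
    have h1 := hb (1 - s) (by simp; linarith) (by simp; linarith)
    rw [sub_sub_cancel] at h1
    have e := zD_Zs hs1
    change riemannZeta₁ s = _ at e
    rw [e, norm_mul]
    have h2 : ‖s - 1‖ ≤ 1 + ‖s‖ := by
      have := norm_sub_le s 1
      rw [norm_one] at this
      linarith
    have h3 : |(1 - s).im| ≤ ‖s‖ := by
      have := abs_im_le_norm s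
      simpa using this
    calc ‖s - 1‖ * ‖riemannZeta s‖ ≤ (1 + ‖s‖) * (K1 * (1 + |(1 - s).im|) ^ B1) := by
          gcongr
      _ ≤ (1 + ‖s‖) * (K1 * (1 + ‖s‖) ^ B1) := by gcongr
      _ = K1 * (1 + ‖s‖) ^ (B1 + 1) := by ring
      _ ≤ (3 + K1) * (1 + ‖s‖) ^ (B1 + 2) := by
          gcongr
          · linarith
          · omega

theorem zD_base : Pool.Agent.N967.G.Base zD := by
  refine ⟨fun s _ => zD_poly.1 s, fun _ => ?_, ?_⟩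
  · rw [zD_one]
    exact one_ne_zero
  · obtain ⟨C, k, hC, h⟩ := zD_poly.2 0
    exact ⟨C, k, hC, fun s hs => h s (by linarith)⟩

/-- `Ax` for the zeta function on the line `re s = θ` -/
theorem ax_zeta {θ : ℝ} (h0 : 1 / 2 ≤ θ) (h1 : θ < 1)
    (hz : ∀ s : ℂ, θ < s.re → s ≠ 1 → riemannZeta s ≠ 0) : Ax (shD zD θ) := by
  refine ax_sh zD_base zD_ser zD_bd h0 h1 fun s hs => ?_
  by_cases h : s = 1
  · rw [h, zD_one]
    exact one_ne_zero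
  · rw [Ne, zD_zero h]
    exact hz s hs h

/-- `Poly` for the shifted function -/
theorem poly_sh {D0 : Pool.Agent.N967.G.Dat}
    (hp : Differentiable ℂ D0.Zs ∧ ∀ B : ℝ, ∃ (C : ℝ) (k : ℕ), 0 < C ∧
      ∀ s : ℂ, -B ≤ s.re → ‖D0.Zs s‖ ≤ C * (1 + ‖s‖) ^ k) {θ : ℝ} (h0 : 1 / 2 ≤ θ) (h1 : θ < 1) :
    Differentiable ℂ (shD D0 θ).Zs ∧ ∀ B : ℝ, ∃ (C : ℝ) (k : ℕ), 0 < C ∧
      ∀ s : ℂ, -B ≤ s.re → ‖(shD D0 θ).Zs s‖ ≤ C * (1 + ‖s‖) ^ k := by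
  constructor
  · intro s
    exact DifferentiableAt.comp (g := D0.Zs) (f := fun z => z + ((θ - 1 / 2 : ℝ) : ℂ)) s (hp.1 _)
      (by fun_prop)
  · intro B
    obtain ⟨C, k, hC, hg⟩ := hp.2 B
    refine ⟨C * 2 ^ k, k, by positivity, fun s hs => ?_⟩
    have h2 := hg (s + ((θ - 1 / 2 : ℝ) : ℂ)) (by rw [Inst.sh_re]; linarith)
    refine h2.trans ?_
    rw [mul_assoc, ← mul_pow]
    have h3 := Inst.sh_norm h0 h1 s
    gcongr

/-- `Poly` for the shifted zeta function -/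
theorem poly_zeta {θ : ℝ} (h0 : 1 / 2 ≤ θ) (h1 : θ < 1) :
    Differentiable ℂ (shD zD θ).Zs ∧ ∀ B : ℝ, ∃ (C : ℝ) (k : ℕ), 0 < C ∧
      ∀ s : ℂ, -B ≤ s.re → ‖(shD zD θ).Zs s‖ ≤ C * (1 + ‖s‖) ^ k :=
  poly_sh zD_poly h0 h1

/-- the shifted multiplicity -/
theorem shD_mu (D0 : Pool.Agent.N967.G.Dat) (hd : Differentiable ℂ D0.Zs) (θ : ℝ) (s : ℂ) :
    (shD D0 θ).mu s = D0.mu (s + ((θ - 1 / 2 : ℝ) : ℂ)) := by
  show analyticOrderNatAt (fun z => D0.Zs (z + ((θ - 1 / 2 : ℝ) : ℂ))) s =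
    analyticOrderNatAt D0.Zs (s + ((θ - 1 / 2 : ℝ) : ℂ))
  obtain ⟨g, hg⟩ : ∃ g : ℂ → ℂ, g = fun z => z + ((θ - 1 / 2 : ℝ) : ℂ) := ⟨_, rfl⟩
  have h1 : AnalyticAt ℂ g s := by
    rw [hg]
    fun_prop
  have h2 : AnalyticAt ℂ D0.Zs (g s) := hd.analyticAt _
  have h3 : deriv g s ≠ 0 := by
    rw [hg, deriv_add_const, deriv_id'']
    exact one_ne_zero
  have h4 := analyticOrderAt_comp_of_deriv_ne_zero (f := D0.Zs) h1 h3
  have e1 : (fun z => D0.Zs (z + ((θ - 1 / 2 : ℝ) : ℂ))) = D0.Zs ∘ g := by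
    rw [hg]
    rfl
  have e2 : s + ((θ - 1 / 2 : ℝ) : ℂ) = g s := by rw [hg]
  rw [e1, e2]
  unfold analyticOrderNatAt
  rw [h4]

end Pool.Agent.N967.H
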