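import Mathlib
import Pool.Agent.N967.H.All
import Pool.Agent.N967.H.Inst
import Pool.Agent.N967.H.ExpU
import Pool.Agent.H313R3.TK.J

set_option autoImplicit false

/-!
# The distance on an arbitrary line: the zeta function
-/

namespace Pool.Agent.N967.H

open Complex MeasureTheory Filter Topology
open Pool.Agent.Y23 (Lg)

namespace Fin

/-- the integrand of the distance on the line `re s = θ` -/
noncomputable def integrand (θ : ℝ) (N : ℕ) (a : ℕ → ℂ) (t : ℝ) : ℝ :=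
  ‖1 - riemannZeta (θ + t * I) * ∑ n ∈ Finset.Icc 1 N, a n * (n : ℂ) ^ (-(θ + t * I : ℂ))‖ ^ 2 /
    ‖(θ + t * I : ℂ)‖ ^ 2

/-- the square of the distance -/
noncomputable def dist2 (θ : ℝ) (N : ℕ) : ENNReal :=
  ⨅ a : ℕ → ℂ, ENNReal.ofReal (1 / (2 * Real.pi)) * ∫⁻ t : ℝ, ENNReal.ofReal (integrand θ N a t)

/-- the zeros on the line -/
abbrev Zero (θ : ℝ) : Type := {ρ : ℂ // riemannZeta ρ = 0 ∧ ρ.re = θ}

/-- the multiplicity -/
noncomputable def mult (ρ : ℂ) : ℕ := analyticOrderNatAt riemannZeta ρ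

/-- the supremum of the real parts of the zeros -/
noncomputable def Theta : ℝ := sSup {x : ℝ | ∃ ρ : ℂ, riemannZeta ρ = 0 ∧ ρ.re = x}

variable {θ : ℝ}

lemma pt_eq (θ t : ℝ) : (1 / 2 + t * I : ℂ) + ((θ - 1 / 2 : ℝ) : ℂ) = θ + t * I := by
  push_cast
  ring

lemma pt_ne (h1 : θ < 1) (t : ℝ) : (θ + t * I : ℂ) ≠ 1 := by
  intro h
  have := congrArg Complex.re h
  simp at this
  linarith

lemma L_eq (h1 : θ < 1) (t : ℝ) : (shD zD θ).L (1 / 2 + t * I) = riemannZeta (θ + t * I) := by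
  rw [shD_L, pt_eq, zD_L (pt_ne h1 t)]

lemma norm_pt (θ t : ℝ) : ‖(θ + t * I : ℂ)‖ ^ 2 = θ ^ 2 + t ^ 2 := by
  rw [← Complex.normSq_eq_norm_sq, Complex.normSq_add_mul_I]

lemma cpow_pt (θ t : ℝ) {n : ℕ} (hn : n ≠ 0) :
    (n : ℂ) ^ (-(1 / 2 + t * I : ℂ)) = (n : ℂ) ^ ((θ - 1 / 2 : ℝ) : ℂ) * (n : ℂ) ^ (-(θ + t * I : ℂ)) := by
  rw [← Complex.cpow_add _ _ (by exact_mod_cast hn)]
  congr 1
  push_cast
  ring

lemma ig_eq (h1 : θ < 1) (N : ℕ) (a : ℕ → ℂ) :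
    (shD zD θ).ig N a = integrand θ N (fun n => a n * (n : ℂ) ^ ((θ - 1 / 2 : ℝ) : ℂ)) := by
  funext t
  unfold Dat.ig integrand DP
  rw [L_eq h1, norm_pt]
  have e : ∑ n ∈ Finset.Icc 1 N, a n * (n : ℂ) ^ (-(1 / 2 + t * I : ℂ)) =
      ∑ n ∈ Finset.Icc 1 N, a n * (n : ℂ) ^ ((θ - 1 / 2 : ℝ) : ℂ) * (n : ℂ) ^ (-(θ + t * I : ℂ)) := by
    refine Finset.sum_congr rfl fun n hn => ?_
    have hn0 : n ≠ 0 := by
      have := (Finset.mem_Icc.1 hn).1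
      omega
    rw [cpow_pt θ t hn0, mul_assoc]
  rw [e]
  rfl

lemma ig_eq' (h1 : θ < 1) (N : ℕ) (a : ℕ → ℂ) :
    integrand θ N a = (shD zD θ).ig N (fun n => a n * (n : ℂ) ^ (-((θ - 1 / 2 : ℝ) : ℂ))) := by
  rw [ig_eq h1]
  funext t
  unfold integrand
  have e : ∑ n ∈ Finset.Icc 1 N, a n * (n : ℂ) ^ (-(θ + t * I : ℂ)) =
      ∑ n ∈ Finset.Icc 1 N, a n * (n : ℂ) ^ (-((θ - 1 / 2 : ℝ) : ℂ)) * (n : ℂ) ^ ((θ - 1 / 2 : ℝ) : ℂ) *
        (n : ℂ) ^ (-(θ + t * I : ℂ)) := by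
    refine Finset.sum_congr rfl fun n hn => ?_
    have hn0 : (n : ℂ) ≠ 0 := by
      have := (Finset.mem_Icc.1 hn).1
      have h : n ≠ 0 := by omega
      exact_mod_cast h
    rw [mul_assoc (a n), ← Complex.cpow_add _ _ hn0, neg_add_cancel, Complex.cpow_zero, mul_one]
  rw [e]

lemma dist2_eq (h1 : θ < 1) (N : ℕ) : dist2 θ N = (shD zD θ).dE N := by
  unfold dist2 Dat.dE
  refine le_antisymm (le_iInf fun a => ?_) (le_iInf fun a => ?_)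
  · rw [ig_eq h1]
    exact iInf_le _ _
  · rw [ig_eq' h1]
    exact iInf_le _ _

lemma zs_iff {s : ℂ} (hs : s + ((θ - 1 / 2 : ℝ) : ℂ) ≠ 1) :
    (shD zD θ).Zs s = 0 ↔ riemannZeta (s + ((θ - 1 / 2 : ℝ) : ℂ)) = 0 := by
  show zD.Zs (s + ((θ - 1 / 2 : ℝ) : ℂ)) = 0 ↔ _
  exact zD_zero hs

lemma sub_ne (h1 : θ < 1) {s : ℂ} (hs : s.re = 1 / 2) : s + ((θ - 1 / 2 : ℝ) : ℂ) ≠ 1 := by
  intro h
  have := congrArg Complex.re h
  rw [Complex.add_re, Complex.ofReal_re, Complex.one_re, hs] at this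
  linarith

/-- the zeros on the two lines -/
noncomputable def eqv (h1 : θ < 1) : (shD zD θ).ZZ ≃ Zero θ where
  toFun s := ⟨(s : ℂ) + ((θ - 1 / 2 : ℝ) : ℂ), (zs_iff (sub_ne h1 s.2.2)).1 s.2.1, by
    rw [Complex.add_re, Complex.ofReal_re, s.2.2]; ring⟩
  invFun ρ := ⟨(ρ : ℂ) - ((θ - 1 / 2 : ℝ) : ℂ), by
    have h2 : ((ρ : ℂ) - ((θ - 1 / 2 : ℝ) : ℂ)).re = 1 / 2 := by
      rw [Complex.sub_re, Complex.ofReal_re, ρ.2.2]; ring
    refine ⟨(zs_iff (sub_ne h1 h2)).2 ?_, h2⟩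
    rw [sub_add_cancel]
    exact ρ.2.1⟩
  left_inv s := Subtype.ext (add_sub_cancel_right _ _)
  right_inv ρ := Subtype.ext (sub_add_cancel _ _)

lemma term_eq (h1 : θ < 1) (s : (shD zD θ).ZZ) :
    (((shD zD θ).mu s : ℕ) : ℝ) ^ 2 / (shD zD θ).wt s = (mult (eqv h1 s) : ℝ) ^ 2 / ‖((eqv h1 s : Zero θ) : ℂ)‖ ^ 2 := by
  have e : ((eqv h1 s : Zero θ) : ℂ) = (s : ℂ) + ((θ - 1 / 2 : ℝ) : ℂ) := rfl
  have e1 : (shD zD θ).mu s = mult (eqv h1 s) := by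
    rw [shD_mu zD zD_poly.1, zD_mu (sub_ne h1 s.2.2)]
    rfl
  have e2 : (shD zD θ).wt s = ‖((eqv h1 s : Zero θ) : ℂ)‖ ^ 2 := by
    rw [← Complex.normSq_eq_norm_sq, Complex.normSq_apply, (eqv h1 s).2.2, e, Complex.add_im, Complex.ofReal_im,
      add_zero]
    show θ ^ 2 + (s : ℂ).im ^ 2 = _
    ring
  rw [e1, e2]

lemma tsum_eq (h1 : θ < 1) : ∑' s : (shD zD θ).ZZ, (((shD zD θ).mu s : ℕ) : ℝ) ^ 2 / (shD zD θ).wt s =
    ∑' ρ : Zero θ, (mult ρ : ℝ) ^ 2 / ‖(ρ : ℂ)‖ ^ 2 := by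
  rw [← (eqv h1).tsum_eq]
  exact tsum_congr fun s => term_eq h1 s

lemma base_z (h0 : 1 / 2 ≤ θ) (h1 : θ < 1) : Base (shD zD θ) := base_sh zD_base h0 h1

/-- (1) -/
theorem off_z (h0 : 1 / 2 ≤ θ) (h1 : θ < 1) (h : ∃ ρ : ℂ, riemannZeta ρ = 0 ∧ θ < ρ.re) :
    ∃ c : ℝ, 0 < c ∧ ∀ N : ℕ, ENNReal.ofReal c ≤ dist2 θ N := by
  obtain ⟨ρ, h2, h3⟩ := h
  have hre : ρ.re < 1 := by
    by_contra hh
    exact riemannZeta_ne_zero_of_one_le_re (not_lt.1 hh) h2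
  have hne : ρ ≠ 1 := by
    rintro rfl
    rw [Complex.one_re] at hre
    exact lt_irrefl _ hre
  obtain ⟨c, hc, H⟩ := offE (off (base_z h0 h1) shift) (ρ := ρ - ((θ - 1 / 2 : ℝ) : ℂ))
    (by rw [Complex.sub_re, Complex.ofReal_re]; linarith)
    (by rw [zs_iff (by rw [sub_add_cancel]; exact hne), sub_add_cancel]; exact h2)
  exact ⟨c, hc, fun N => by rw [dist2_eq h1]; exact H N⟩

theorem ax_z (h0 : 1 / 2 ≤ θ) (h1 : θ < 1) (h : ∀ ρ : ℂ, riemannZeta ρ = 0 → ρ.re ≤ θ) : Ax (shD zD θ) :=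
  ax_zeta h0 h1 fun s hs _ h2 => absurd (h s h2) (not_le.2 hs)

/-- (2) -/
theorem asym_z (h0 : 1 / 2 ≤ θ) (h1 : θ < 1) (h : ∀ ρ : ℂ, riemannZeta ρ = 0 → ρ.re ≤ θ) :
    (∀ (N : ℕ) (a : ℕ → ℂ), Integrable (integrand θ N a)) ∧
    Summable (fun ρ : Zero θ => (mult ρ : ℝ) ^ 2 / ‖(ρ : ℂ)‖ ^ 2) ∧
    Tendsto (fun N : ℕ => dist2 θ N * ENNReal.ofReal (Real.log N)) atTop
      (𝓝 (ENNReal.ofReal (∑' ρ : Zero θ, (mult ρ : ℝ) ^ 2 / ‖(ρ : ℂ)‖ ^ 2))) := by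
  obtain ⟨hi, hs, ha⟩ := rp_asym (rp_all (ax_z h0 h1 h))
  refine ⟨fun N a => ?_, ?_, ?_⟩
  · rw [ig_eq' h1]
    exact hi N _
  · refine ((eqv h1).summable_iff.1 ?_)
    exact hs.congr fun s => term_eq h1 s
  · have h3 := asymE hi ha
    rw [tsum_eq h1] at h3
    exact h3.congr fun N => by rw [dist2_eq h1]

/-! ### the supremum of the real parts -/

lemma bdd : BddAbove {x : ℝ | ∃ ρ : ℂ, riemannZeta ρ = 0 ∧ ρ.re = x} := by
  refine ⟨1, ?_⟩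
  rintro x ⟨ρ, h, rfl⟩
  by_contra hh
  exact riemannZeta_ne_zero_of_one_le_re (not_le.1 hh).le h

lemma le_Theta {ρ : ℂ} (h : riemannZeta ρ = 0) : ρ.re ≤ Theta := le_csSup bdd ⟨ρ, h, rfl⟩

lemma half_le_Theta : 1 / 2 ≤ Theta := by
  obtain ⟨ρ, h, h2, _⟩ := H313.TK.exists_zero
  exact h2.trans (le_Theta h)

lemma exists_near {x : ℝ} (h : x < Theta) : ∃ ρ : ℂ, riemannZeta ρ = 0 ∧ x < ρ.re := by
  obtain ⟨ρ0, h0, _⟩ := H313.TK.exists_zero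
  obtain ⟨_, ⟨ρ, h1, rfl⟩, h2⟩ := exists_lt_of_lt_csSup (s := {x : ℝ | ∃ ρ : ℂ, riemannZeta ρ = 0 ∧ ρ.re = x})
    ⟨_, ρ0, h0, rfl⟩ h
  exact ⟨ρ, h1, h2⟩

lemma ax_Theta (h1 : Theta < 1) : Ax (shD zD Theta) := ax_z half_le_Theta h1 fun _ h => le_Theta h

/-- the hypothesis of the upper bound -/
theorem ext_z (hT : Theta < θ) (h1 : θ < 1) : (shD zD θ).Ext (θ - Theta) := by
  intro δ η hδ hη
  have h0 : 1 / 2 ≤ θ := half_le_Theta.trans hT.le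
  obtain ⟨C, hC, H⟩ := lind (ax_Theta (hT.trans h1)) δ η hδ hη
  refine ⟨C, hC, fun s hs => ?_⟩
  have e0 : (s + ((θ - 1 / 2 : ℝ) : ℂ)).re = s.re + (θ - 1 / 2) := by
    rw [Complex.add_re, Complex.ofReal_re]
  refine ⟨(poly_zeta h0 h1).1 s, ?_, ?_⟩
  · show zD.Zs (s + ((θ - 1 / 2 : ℝ) : ℂ)) ≠ 0
    by_cases h : s + ((θ - 1 / 2 : ℝ) : ℂ) = 1
    · rw [h, zD_one]
      exact one_ne_zero
    · rw [Ne, zD_zero h]
      intro h2
      have h3 := le_Theta h2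
      rw [e0] at h3
      linarith
  · have h4 := (H (s + ((θ - Theta : ℝ) : ℂ)) (by
      rw [Complex.add_re, Complex.ofReal_re]; linarith)).2
    rw [Complex.add_im, Complex.ofReal_im, add_zero] at h4
    have e5 : (shD zD θ).fz s = (shD zD Theta).fz (s + ((θ - Theta : ℝ) : ℂ)) := by
      rw [shD_fz, shD_fz]
      congr 1
      push_cast
      ring
    rw [e5]
    exact h4

lemma exists_ker : ∃ κ : ℂ → ℂ, Ker κ := by
  obtain ⟨κ, h, _⟩ := Pool.Agent.N967.G.kern (19 / 20) (by norm_num) (by norm_num)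
  exact ⟨κ, Pool.Agent.N967.G.Prof.ker_of_kerB le_rfl h⟩

/-- the upper bound for the exponent -/
theorem up_z (hT : Theta < θ) (h1 : θ < 1) {ε : ℝ} (hε : 0 < ε) : ∃ C : ℝ, 0 < C ∧ ∀ N : ℕ, 2 ≤ N →
    (shD zD θ).dd N ≤ C * (N : ℝ) ^ (-(2 * (θ - Theta)) + ε) := by
  have h0 : 1 / 2 ≤ θ := half_le_Theta.trans hT.le
  have A : Ax (shD zD θ) := ax_z h0 h1 fun ρ h => (le_Theta h).trans hT.le
  have R := rp_all A
  have hl := lind A
  have hz := zn A Pool.Agent.N967.G.lf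
  obtain ⟨C, hC, H⟩ := expU_dd R (crit A hz hl) (app R shift) exists_ker (sub_pos.2 hT) (ext_z hT h1) hε
  exact ⟨C, hC, fun N hN => (H N hN).2⟩

/-- the logarithm of a sequence between two powers -/
lemma expo {d : ℕ → ℝ} {h : ℝ} (hU : ∀ ε : ℝ, 0 < ε → ∃ C : ℝ, 0 < C ∧ ∀ N : ℕ, 2 ≤ N → d N ≤ C * (N : ℝ) ^ (-(2 * h) + ε))
    (hL : ∀ ε : ℝ, 0 < ε → ∃ (c : ℝ) (N0 : ℕ), 0 < c ∧ ∀ N : ℕ, N0 ≤ N → c * (N : ℝ) ^ (-(2 * h) - ε) ≤ d N) :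
    Tendsto (fun N : ℕ => Real.log (d N) / Real.log N) atTop (𝓝 (-(2 * h))) := by
  have hlog : Tendsto (fun N : ℕ => Real.log (N : ℝ)) atTop atTop :=
    Real.tendsto_log_atTop.comp tendsto_natCast_atTop_atTop
  rw [Metric.tendsto_atTop]
  intro ε hε
  obtain ⟨C, hC, H1⟩ := hU (ε / 4) (by positivity)
  obtain ⟨c, N0, hc, H2⟩ := hL (ε / 4) (by positivity)
  have hev : ∀ᶠ N : ℕ in atTop, (|Real.log C| + |Real.log c|) * 4 / ε + 1 ≤ Real.log (N : ℝ) := hlog.eventually_ge_atTop _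
  obtain ⟨N1, H3⟩ := eventually_atTop.1 hev
  refine ⟨max (max N0 N1) 2, fun N hN => ?_⟩
  have hN0 : N0 ≤ N := (le_max_left _ _).trans ((le_max_left _ _).trans hN)
  have hN1 : N1 ≤ N := (le_max_right _ _).trans ((le_max_left _ _).trans hN)
  have hN2 : 2 ≤ N := (le_max_right _ _).trans hN
  have hNpos : (0 : ℝ) < N := by positivity
  have a1 := H1 N hN2
  have a2 := H2 N hN0
  have a3 := H3 N hN1
  have hl1 : 0 < Real.log (N : ℝ) := Real.log_pos (by exact_mod_cast (by omega : 1 < N))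
  have hd : 0 < d N := lt_of_lt_of_le (by positivity) a2
  have hb : (|Real.log C| + |Real.log c|) ≤ ε / 4 * Real.log N := by
    have : (|Real.log C| + |Real.log c|) * 4 / ε ≤ Real.log (N : ℝ) := by linarith
    rw [div_le_iff₀ hε] at this
    linarith
  have hC' : Real.log C ≤ ε / 4 * Real.log N :=
    (le_abs_self _).trans ((le_add_of_nonneg_right (abs_nonneg _)).trans hb)
  have hc' : -(ε / 4 * Real.log N) ≤ Real.log c := by
    have h5 : -|Real.log c| ≤ Real.log c := neg_abs_le _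
    have h6 : |Real.log c| ≤ ε / 4 * Real.log N := (le_add_of_nonneg_left (abs_nonneg _)).trans hb
    linarith
  have b1 : Real.log (d N) ≤ Real.log C + (-(2 * h) + ε / 4) * Real.log N := by
    have := Real.log_le_log hd a1
    rwa [Real.log_mul hC.ne' (by positivity), Real.log_rpow hNpos] at this
  have b2 : Real.log c + (-(2 * h) - ε / 4) * Real.log N ≤ Real.log (d N) := by
    have := Real.log_le_log (by positivity) a2
    rwa [Real.log_mul hc.ne' (by positivity), Real.log_rpow hNpos] at this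
  rw [Real.dist_eq, abs_lt]
  constructor
  · rw [lt_sub_iff_add_lt, lt_div_iff₀ hl1]
    nlinarith
  · rw [sub_lt_iff_lt_add, div_lt_iff₀ hl1]
    nlinarith

end Fin

end Pool.Agent.N967.H
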