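import Mathlib
import Pool.Agent.N967.H.Fin

set_option autoImplicit false

/-!
# The distance on an arbitrary line: the zeta function, the final statements
-/

namespace Pool.Agent.N967.H.Fin

open Complex MeasureTheory Filter Topology

variable {θ : ℝ}

/-- the lower bound for the exponent, for one zero -/
def S_expL : Prop := ∀ D : Dat, Base D →
  (Differentiable ℂ D.Zs ∧ ∀ B : ℝ, ∃ (C : ℝ) (k : ℕ), 0 < C ∧ ∀ s : ℂ, -B ≤ s.re → ‖D.Zs s‖ ≤ C * (1 + ‖s‖) ^ k) →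
  S_grow D → S_int D → ∀ ρ : ℂ, D.Zs ρ = 0 → ρ.re < 1 / 2 → ∀ ε : ℝ, 0 < ε →
  ∃ (c : ℝ) (N0 : ℕ), 0 < c ∧ ∀ N : ℕ, N0 ≤ N → ∀ a : ℕ → ℂ, c * (N : ℝ) ^ (-(2 * (1 / 2 - ρ.re)) - ε) ≤ D.err N a

/-- the lower bound for the exponent -/
theorem low_z (hE : S_expL) (hT : Theta < θ) (h1 : θ < 1) {ε : ℝ} (hε : 0 < ε) :
    ∃ (c : ℝ) (N0 : ℕ), 0 < c ∧ ∀ N : ℕ, N0 ≤ N →
      c * (N : ℝ) ^ (-(2 * (θ - Theta)) - ε) ≤ (shD zD θ).dd N := by
  have h0 : 1 / 2 ≤ θ := half_le_Theta.trans hT.le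
  have A : Ax (shD zD θ) := ax_z h0 h1 fun ρ h => (le_Theta h).trans hT.le
  have R := rp_all A
  have hi := int R
  obtain ⟨ρ, h2, h3⟩ := exists_near (x := Theta - ε / 4) (by linarith)
  have h4 := le_Theta h2
  have hne : ρ ≠ 1 := by
    rintro rfl
    rw [Complex.one_re] at h4
    linarith
  have e0 : (ρ - ((θ - 1 / 2 : ℝ) : ℂ)).re = ρ.re - (θ - 1 / 2) := by
    rw [Complex.sub_re, Complex.ofReal_re]
  obtain ⟨c, N0, hc, H⟩ := hE (shD zD θ) (base_z h0 h1) (poly_zeta h0 h1) (grow R shift hi) hi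
    (ρ - ((θ - 1 / 2 : ℝ) : ℂ)) (by rw [zs_iff (by rw [sub_add_cancel]; exact hne), sub_add_cancel]; exact h2)
    (by rw [e0]; linarith) (ε / 2) (by positivity)
  refine ⟨c, max N0 1, hc, fun N hN => le_ciInf fun a => ?_⟩
  have hN0 : N0 ≤ N := (le_max_left _ _).trans hN
  have hN1 : 1 ≤ N := (le_max_right _ _).trans hN
  refine le_trans ?_ (H N hN0 a)
  refine mul_le_mul_of_nonneg_left ?_ hc.le
  refine Real.rpow_le_rpow_of_exponent_le (by exact_mod_cast hN1) ?_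
  rw [e0]
  linarith

lemma toReal_eq (h0 : 1 / 2 ≤ θ) (h1 : θ < 1) (h : ∀ ρ : ℂ, riemannZeta ρ = 0 → ρ.re ≤ θ) (N : ℕ) :
    (dist2 θ N).toReal = (shD zD θ).dd N := by
  rw [dist2_eq h1, dE_eq (int (rp_all (ax_z h0 h1 h))), ENNReal.toReal_ofReal (dd_nonneg _ _)]

/-- (3) the exponent -/
theorem expo_z (hE : S_expL) (hT : Theta < θ) (h1 : θ < 1) :
    Tendsto (fun N : ℕ => Real.log (dist2 θ N).toReal / Real.log N) atTop (𝓝 (-(2 * (θ - Theta)))) := by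
  have h0 : 1 / 2 ≤ θ := half_le_Theta.trans hT.le
  have h2 : ∀ ρ : ℂ, riemannZeta ρ = 0 → ρ.re ≤ θ := fun ρ h => (le_Theta h).trans hT.le
  simp only [toReal_eq h0 h1 h2]
  exact expo (fun ε hε => up_z hT h1 hε) (fun ε hε => low_z hE hT h1 hε)

/-- the equivalent conditions on a line -/
theorem iff_z (h0 : 1 / 2 ≤ θ) (h1 : θ < 1) :
    ((∀ ρ : ℂ, riemannZeta ρ = 0 → ρ.re ≤ θ) ↔ Tendsto (dist2 θ) atTop (𝓝 0)) ∧
    ((∀ ρ : ℂ, riemannZeta ρ = 0 → ρ.re ≤ θ) ↔ ∃ ℓ : ENNReal, ℓ ≠ ⊤ ∧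
      Tendsto (fun N : ℕ => dist2 θ N * ENNReal.ofReal (Real.log N)) atTop (𝓝 ℓ)) ∧
    ((∀ ρ : ℂ, riemannZeta ρ = 0 → ρ.re ≤ θ) ↔ ∀ ε : ℝ, 0 < ε → ∃ N : ℕ, dist2 θ N < ENNReal.ofReal ε) := by
  have key : (∀ ε : ℝ, 0 < ε → ∃ N : ℕ, dist2 θ N < ENNReal.ofReal ε) → ∀ ρ : ℂ, riemannZeta ρ = 0 → ρ.re ≤ θ := by
    intro h ρ hρ
    by_contra hh
    obtain ⟨c, hc, H⟩ := off_z h0 h1 ⟨ρ, hρ, not_le.1 hh⟩
    obtain ⟨N, hN⟩ := h c hc
    exact absurd (H N) (not_le.2 hN)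
  have hfw : (∀ ρ : ℂ, riemannZeta ρ = 0 → ρ.re ≤ θ) → Tendsto (dist2 θ) atTop (𝓝 0) := by
    intro h
    have h3 := zeroE (D := shD zD θ) ENNReal.ofReal_ne_top
      ((asym_z h0 h1 h).2.2.congr fun N => by rw [dist2_eq h1])
    exact h3.congr fun N => by rw [dist2_eq h1]
  have hz : Tendsto (dist2 θ) atTop (𝓝 0) → ∀ ε : ℝ, 0 < ε → ∃ N : ℕ, dist2 θ N < ENNReal.ofReal ε := by
    intro h ε hε
    exact (h.eventually (gt_mem_nhds (ENNReal.ofReal_pos.2 hε))).exists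
  refine ⟨⟨hfw, fun h => key (hz h)⟩, ⟨fun h => ⟨_, ENNReal.ofReal_ne_top, (asym_z h0 h1 h).2.2⟩, ?_⟩,
    ⟨fun h => hz (hfw h), key⟩⟩
  rintro ⟨ℓ, hℓ, ht⟩ ρ hρ
  by_contra hh
  obtain ⟨c, hc, H⟩ := off_z h0 h1 ⟨ρ, hρ, not_le.1 hh⟩
  refine no_limit (D := shD zD θ) hc (fun N => ?_) hℓ (ht.congr fun N => by rw [dist2_eq h1])
  rw [← dist2_eq h1]
  exact H N

lemma q1_iff : (∃ σ₀ : ℝ, 1 / 2 < σ₀ ∧ σ₀ < 1 ∧ ∀ s : ℂ, σ₀ ≤ s.re → riemannZeta s ≠ 0) ↔ Theta < 1 := by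
  constructor
  · rintro ⟨σ, _, h2, h3⟩
    refine lt_of_le_of_lt ?_ h2
    refine csSup_le ?_ ?_
    · obtain ⟨ρ, h, _⟩ := H313.TK.exists_zero
      exact ⟨_, ρ, h, rfl⟩
    · rintro x ⟨ρ, h, rfl⟩
      by_contra hh
      exact h3 ρ (not_le.1 hh).le h
  · intro h
    have h0 := half_le_Theta
    refine ⟨(1 + Theta) / 2, by linarith, by linarith, fun s hs h1 => ?_⟩
    have := le_Theta h1
    linarith

/-- the sum over the zeros on the line is positive iff there is one -/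
lemma sum_pos_iff (h0 : 1 / 2 ≤ θ) (hs : Summable (fun ρ : Zero θ => (mult ρ : ℝ) ^ 2 / ‖(ρ : ℂ)‖ ^ 2)) :
    (∃ ρ : ℂ, riemannZeta ρ = 0 ∧ ρ.re = θ) ↔ 0 < ∑' ρ : Zero θ, (mult ρ : ℝ) ^ 2 / ‖(ρ : ℂ)‖ ^ 2 := by
  have hnn : ∀ ρ : Zero θ, 0 ≤ (mult ρ : ℝ) ^ 2 / ‖(ρ : ℂ)‖ ^ 2 := fun ρ => by positivity
  constructor
  · rintro ⟨ρ, h, h2⟩
    refine hs.tsum_pos hnn ⟨ρ, h, h2⟩ ?_
    have hre : ρ.re < 1 := by
      by_contra hh
      exact riemannZeta_ne_zero_of_one_le_re (not_lt.1 hh) h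
    have hne : ρ ≠ 1 := by
      rintro rfl
      rw [Complex.one_re] at hre
      exact lt_irrefl _ hre
    have h3 : (ρ : ℂ) ≠ 0 := by
      rintro rfl
      rw [Complex.zero_re] at h2
      linarith
    have h4 : mult ρ ≠ 0 := by
      have h5 : (shD zD (1 / 2)).mu ρ = mult ρ := by
        rw [shD_mu zD zD_poly.1]
        have e : ρ + ((1 / 2 - 1 / 2 : ℝ) : ℂ) = ρ := by
          rw [sub_self, Complex.ofReal_zero, add_zero]
        rw [e, zD_mu hne]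
        rfl
      rw [← h5, shD_mu zD zD_poly.1]
      have e : ρ + ((1 / 2 - 1 / 2 : ℝ) : ℂ) = ρ := by
        rw [sub_self, Complex.ofReal_zero, add_zero]
      rw [e]
      have h6 : AnalyticAt ℂ zD.Zs ρ := zD_poly.1.analyticAt ρ
      have h7 : analyticOrderAt zD.Zs ρ ≠ ⊤ := by
        intro h8
        have h9 := (AnalyticOnNhd.eqOn_zero_of_preconnected_of_eventuallyEq_zero
          (fun z _ => zD_poly.1.analyticAt z) isPreconnected_univ (Set.mem_univ ρ)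
          (analyticOrderAt_eq_top.1 h8)) (Set.mem_univ 1)
        rw [zD_one] at h9
        exact one_ne_zero h9
      have h8 : analyticOrderAt zD.Zs ρ ≠ 0 := by
        rw [Ne, h6.analyticOrderAt_eq_zero, not_not]
        exact (zD_zero hne).2 h
      intro h9
      unfold Pool.Agent.N967.G.Dat.mu analyticOrderNatAt at h9
      rcases (ENat.toNat_eq_zero.1 h9) with h10 | h10
      · exact h8 h10
      · exact h7 h10
    have h5 : 0 < (mult ρ : ℝ) := by exact_mod_cast Nat.pos_of_ne_zero h4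
    have h6 : 0 < ‖ρ‖ := norm_pos_iff.2 h3
    show 0 < (mult ρ : ℝ) ^ 2 / ‖ρ‖ ^ 2
    positivity
  · intro h
    by_contra hh
    have : IsEmpty (Zero θ) := ⟨fun ρ => hh ⟨ρ, ρ.2⟩⟩
    rw [tsum_empty] at h
    exact lt_irrefl _ h

end Pool.Agent.N967.H.Fin
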