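import Mathlib
import Pool.Agent.N967.H.FinB
import Pool.Agent.N967.H.ExpL

set_option autoImplicit false

/-!
# The distance on an arbitrary line: the zeta function, the theorem
-/

namespace Pool.Agent.N967.H.Fin

open Complex MeasureTheory Filter Topology

theorem expL_all : S_expL := fun _ hb hp hg hi _ h0 h1 _ hε => expL hb hp hg hi shift h0 h1 hε

theorem final :
    (∀ θ : ℝ, 1 / 2 ≤ θ → θ < 1 →
      (¬ (∀ ρ : ℂ, riemannZeta ρ = 0 → ρ.re ≤ θ) → ∃ c : ℝ, 0 < c ∧ ∀ N : ℕ, ENNReal.ofReal c ≤ dist2 θ N) ∧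
      ((∀ ρ : ℂ, riemannZeta ρ = 0 → ρ.re ≤ θ) → (∀ (N : ℕ) (a : ℕ → ℂ), Integrable (integrand θ N a)) ∧
        Summable (fun ρ : Zero θ => (mult ρ : ℝ) ^ 2 / ‖(ρ : ℂ)‖ ^ 2) ∧
        Tendsto (fun N : ℕ => dist2 θ N * ENNReal.ofReal (Real.log N)) atTop
          (𝓝 (ENNReal.ofReal (∑' ρ : Zero θ, (mult ρ : ℝ) ^ 2 / ‖(ρ : ℂ)‖ ^ 2)))) ∧
      ((∀ ρ : ℂ, riemannZeta ρ = 0 → ρ.re ≤ θ) ↔ Tendsto (dist2 θ) atTop (𝓝 0)) ∧
      ((∀ ρ : ℂ, riemannZeta ρ = 0 → ρ.re ≤ θ) ↔ ∃ ℓ : ENNReal, ℓ ≠ ⊤ ∧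
        Tendsto (fun N : ℕ => dist2 θ N * ENNReal.ofReal (Real.log N)) atTop (𝓝 ℓ)) ∧
      ((∀ ρ : ℂ, riemannZeta ρ = 0 → ρ.re ≤ θ) ↔ ∀ ε : ℝ, 0 < ε → ∃ N : ℕ, dist2 θ N < ENNReal.ofReal ε) ∧
      (Theta < θ →
        Tendsto (fun N : ℕ => Real.log (dist2 θ N).toReal / Real.log N) atTop (𝓝 (-(2 * (θ - Theta)))))) ∧
    1 / 2 ≤ Theta ∧
    ((∃ σ₀ : ℝ, 1 / 2 < σ₀ ∧ σ₀ < 1 ∧ ∀ s : ℂ, σ₀ ≤ s.re → riemannZeta s ≠ 0) ↔ Theta < 1) ∧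
    ((∃ σ₀ : ℝ, 1 / 2 < σ₀ ∧ σ₀ < 1 ∧ ∀ s : ℂ, σ₀ ≤ s.re → riemannZeta s ≠ 0) ↔
      ∃ θ : ℝ, 1 / 2 ≤ θ ∧ θ < 1 ∧ Tendsto (dist2 θ) atTop (𝓝 0)) ∧
    ((∃ σ₀ : ℝ, 1 / 2 < σ₀ ∧ σ₀ < 1 ∧ ∀ s : ℂ, σ₀ ≤ s.re → riemannZeta s ≠ 0) ↔
      ∃ θ : ℝ, 1 / 2 ≤ θ ∧ θ < 1 ∧
      Tendsto (fun N : ℕ => dist2 θ N * ENNReal.ofReal (Real.log N)) atTop (𝓝 0)) ∧
    ((∃ σ₀ : ℝ, 1 / 2 < σ₀ ∧ σ₀ < 1 ∧ ∀ s : ℂ, σ₀ ≤ s.re → riemannZeta s ≠ 0) ↔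
      ∃ θ c : ℝ, 1 / 2 ≤ θ ∧ θ < 1 ∧ 0 < c ∧
      ∃ᶠ N : ℕ in atTop, dist2 θ N ≤ ENNReal.ofReal ((N : ℝ) ^ (-c))) ∧
    ((Theta < 1 ∧ ∃ ρ : ℂ, riemannZeta ρ = 0 ∧ ρ.re = Theta) ↔
      ∃ (θ : ℝ) (ℓ : ENNReal), 1 / 2 ≤ θ ∧ θ < 1 ∧ ℓ ≠ 0 ∧ ℓ ≠ ⊤ ∧
        Tendsto (fun N : ℕ => dist2 θ N * ENNReal.ofReal (Real.log N)) atTop (𝓝 ℓ)) := by
  have hrT : ∀ θ : ℝ, (∀ ρ : ℂ, riemannZeta ρ = 0 → ρ.re ≤ θ) → Theta ≤ θ := by
    intro θ h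
    obtain ⟨ρ0, h0, _⟩ := H313.TK.exists_zero
    refine csSup_le ⟨_, ρ0, h0, rfl⟩ ?_
    rintro x ⟨ρ, h2, rfl⟩
    exact h ρ h2
  have hT0 := half_le_Theta
  -- to the right of the supremum the limit is zero
  have hright : ∀ θ : ℝ, 1 / 2 ≤ θ → θ < 1 → Theta < θ →
      Tendsto (fun N : ℕ => dist2 θ N * ENNReal.ofReal (Real.log N)) atTop (𝓝 0) := by
    intro θ h0 h1 h
    have h2 := (asym_z h0 h1 fun ρ hρ => (le_Theta hρ).trans h.le).2.2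
    have h3 : IsEmpty (Zero θ) := ⟨fun ρ => by
      have := le_Theta ρ.2.1
      rw [ρ.2.2] at this
      linarith⟩
    rw [tsum_empty, ENNReal.ofReal_zero] at h2
    exact h2
  refine ⟨fun θ h0 h1 => ⟨fun h => ?_, asym_z h0 h1, (iff_z h0 h1).1, (iff_z h0 h1).2.1, (iff_z h0 h1).2.2,
    fun hT => expo_z expL_all hT h1⟩, hT0, q1_iff, ?_, ?_, ?_, ?_⟩
  · push Not at h
    exact off_z h0 h1 h
  · rw [q1_iff]
    constructor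
    · intro h
      exact ⟨Theta, hT0, h, (iff_z hT0 h).1.1 fun ρ hρ => le_Theta hρ⟩
    · rintro ⟨θ, h0, h1, h2⟩
      exact lt_of_le_of_lt (hrT θ ((iff_z h0 h1).1.2 h2)) h1
  · rw [q1_iff]
    constructor
    · intro h
      exact ⟨(1 + Theta) / 2, by linarith, by linarith, hright _ (by linarith) (by linarith) (by linarith)⟩
    · rintro ⟨θ, h0, h1, h2⟩
      exact lt_of_le_of_lt (hrT θ ((iff_z h0 h1).2.1.2 ⟨0, ENNReal.zero_ne_top, h2⟩)) h1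
  · rw [q1_iff]
    constructor
    · intro h
      set θ : ℝ := (1 + Theta) / 2 with hθ
      have hTθ : Theta < θ := by rw [hθ]; linarith
      have h0 : 1 / 2 ≤ θ := hT0.trans hTθ.le
      have h1 : θ < 1 := by rw [hθ]; linarith
      refine ⟨θ, θ - Theta, h0, h1, by linarith, ?_⟩
      have h2 := expo_z expL_all hTθ h1
      have h3 : ∀ᶠ N : ℕ in atTop, Real.log (dist2 θ N).toReal / Real.log N < -(θ - Theta) :=
        h2.eventually (gt_mem_nhds (by linarith))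
      obtain ⟨c, N0, hc, H⟩ := low_z expL_all hTθ h1 one_pos
      refine Eventually.frequently ?_
      filter_upwards [h3, eventually_ge_atTop (max N0 2)] with N h4 hN
      have hN0 : N0 ≤ N := (le_max_left _ _).trans hN
      have hN2 : 2 ≤ N := (le_max_right _ _).trans hN
      have hNpos : (0 : ℝ) < N := by positivity
      have hl1 : 0 < Real.log (N : ℝ) := Real.log_pos (by exact_mod_cast (by omega : 1 < N))
      have hnz : ∀ ρ : ℂ, riemannZeta ρ = 0 → ρ.re ≤ θ := fun ρ hρ => (le_Theta hρ).trans hTθ.le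
      have h5 : 0 < (dist2 θ N).toReal := by
        rw [toReal_eq h0 h1 hnz]
        exact lt_of_lt_of_le (by positivity) (H N hN0)
      have h6 : dist2 θ N ≠ ⊤ := by
        intro h7
        rw [h7, ENNReal.toReal_top] at h5
        exact lt_irrefl _ h5
      rw [div_lt_iff₀ hl1] at h4
      rw [← ENNReal.ofReal_toReal h6]
      refine ENNReal.ofReal_le_ofReal ?_
      rw [← Real.log_le_log_iff h5 (by positivity), Real.log_rpow hNpos]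
      linarith
    · rintro ⟨θ, c, h0, h1, hc, h2⟩
      refine lt_of_le_of_lt (hrT θ ((iff_z h0 h1).2.2.2 fun ε hε => ?_)) h1
      have h3 : Tendsto (fun N : ℕ => ENNReal.ofReal ((N : ℝ) ^ (-c))) atTop (𝓝 0) := by
        rw [← ENNReal.ofReal_zero]
        exact ENNReal.tendsto_ofReal ((tendsto_rpow_neg_atTop hc).comp tendsto_natCast_atTop_atTop)
      have h4 : ∀ᶠ N : ℕ in atTop, ENNReal.ofReal ((N : ℝ) ^ (-c)) < ENNReal.ofReal ε :=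
        h3.eventually (gt_mem_nhds (ENNReal.ofReal_pos.2 hε))
      obtain ⟨N, h5, h6⟩ := (h2.and_eventually h4).exists
      exact ⟨N, lt_of_le_of_lt h5 h6⟩
  · constructor
    · rintro ⟨h, hz⟩
      have h2 := asym_z hT0 h fun ρ hρ => le_Theta hρ
      refine ⟨Theta, _, hT0, h, ?_, ENNReal.ofReal_ne_top, h2.2.2⟩
      rw [Ne, ENNReal.ofReal_eq_zero, not_le]
      exact (sum_pos_iff hT0 h2.2.1).1 hz
    · rintro ⟨θ, ℓ, h0, h1, hℓ, hℓ2, ht⟩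
      have h2 : ∀ ρ : ℂ, riemannZeta ρ = 0 → ρ.re ≤ θ := (iff_z h0 h1).2.1.2 ⟨ℓ, hℓ2, ht⟩
      have h3 := hrT θ h2
      rcases h3.lt_or_eq with h4 | h4
      · exact absurd (tendsto_nhds_unique ht (hright θ h0 h1 h4)) hℓ
      · refine ⟨by rw [h4]; exact h1, ?_⟩
        have h5 := asym_z h0 h1 h2
        have h6 := tendsto_nhds_unique ht h5.2.2
        rw [h4, sum_pos_iff h0 h5.2.1]
        by_contra h7
        rw [ENNReal.ofReal_eq_zero.2 (not_lt.1 h7)] at h6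
        exact hℓ h6

end Pool.Agent.N967.H.Fin
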