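import Mathlib
import Pool.Agent.N967.H.Stm

set_option autoImplicit false

/-!
# Baez-Duarte's distance for general L-functions: the majorant of the ratio near a fixed height
(port of `Pool.Agent.N967.Maj`, helper803)
-/

open Pool.Agent.N967.G (KR KerB S_real S_opt S_kern S_kerL S_sh S_lf)

namespace Pool.Agent.N967.H

open Complex MeasureTheory
open Pool.Agent.Y23 (Lg)

namespace Maj

lemma log_bd {a : ℝ} (ha : 1 ≤ a) : 0 ≤ Real.log a ∧ Real.log a ≤ 2 * a ^ (9 / 10 : ℝ) ∧
    Real.log a ^ 2 ≤ 5 * a ^ (9 / 10 : ℝ) ∧ 1 ≤ a ^ (9 / 10 : ℝ) := by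
  have h0 : 0 ≤ Real.log a := Real.log_nonneg ha
  have h1 := Real.log_le_rpow_div (by linarith : (0 : ℝ) ≤ a) (by norm_num : (0 : ℝ) < 9 / 10)
  have h2 := Real.log_le_rpow_div (by linarith : (0 : ℝ) ≤ a) (by norm_num : (0 : ℝ) < 9 / 20)
  have h3 : 1 ≤ a ^ (9 / 10 : ℝ) := Real.one_le_rpow ha (by norm_num)
  have h4 : a ^ (9 / 20 : ℝ) * a ^ (9 / 20 : ℝ) = a ^ (9 / 10 : ℝ) := by
    rw [← Real.rpow_add (by linarith)]
    norm_num
  have h5 : 0 ≤ a ^ (9 / 20 : ℝ) := Real.rpow_nonneg (by linarith) _
  refine ⟨h0, ?_, ?_, h3⟩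
  · have e : a ^ (9 / 10 : ℝ) / (9 / 10) = 10 / 9 * a ^ (9 / 10 : ℝ) := by ring
    rw [e] at h1
    linarith
  · have e : a ^ (9 / 20 : ℝ) / (9 / 20) = 20 / 9 * a ^ (9 / 20 : ℝ) := by ring
    rw [e] at h2
    calc Real.log a ^ 2 ≤ (20 / 9 * a ^ (9 / 20 : ℝ)) ^ 2 := by gcongr
      _ = 400 / 81 * (a ^ (9 / 20 : ℝ) * a ^ (9 / 20 : ℝ)) := by ring
      _ ≤ 5 * a ^ (9 / 10 : ℝ) := by rw [h4]; linarith

end Maj

/-- **The majorant near a fixed height.** -/
theorem maj {D : Dat} (h : Rp D) : S_maj D := by
  intro γ X hX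
  obtain ⟨C1, T0, hC1, hT0, hslope⟩ := h.slope
  obtain ⟨e, K, he, he1, hK, near, -, far⟩ := h.pt 1 1 C1 T0 one_pos le_rfl one_pos le_rfl hC1 hT0 hslope
  obtain ⟨C0, hC0, hc0⟩ := h.cnt
  -- the number of zeros at distance at most `rad`
  have hM : ∀ τ : ℝ, D.Cnt τ (rad 1 T0 τ) (C0 * Lg τ) := by
    intro τ S hS
    have hr : rad 1 T0 τ ≤ 1 := by
      unfold rad
      split_ifs with h1
      · have h2 : 1 ≤ Real.log (Lg τ) := by
          rw [Real.le_log_iff_exp_le (by linarith [Pool.Agent.Y23.one_le_Lg τ])]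
          linarith
        rw [div_le_one (by linarith)]
        linarith
      · exact le_rfl
    exact hc0 τ S fun s hs => ⟨(hS s hs).1, (hS s hs).2.2.trans hr⟩
  set A : ℝ := Real.log (4 + |γ|) with hA
  have hA0 : 0 ≤ A := Real.log_nonneg (by linarith [abs_nonneg γ])
  set E : ℝ := -Real.log e with hE
  have hE0 : 0 ≤ E := by
    rw [hE]
    have := Real.log_nonpos he.le (by linarith)
    linarith
  set D1 : ℝ := 2 * A + 2 + C0 * (2 * A + A * E + 5 + 2 * E) with hD1
  have hD0 : 0 < D1 := by positivity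
  refine ⟨K + D1, 4 + 4 * X + 1 / e, by positivity, ?_, ?_⟩
  · have : 0 < 1 / e := by positivity
    linarith
  intro L x y hL hx
  have he' : 0 < 1 / e := by positivity
  have hL4 : 4 ≤ L := by linarith
  have hLX : 4 * X ≤ L := by linarith
  have hLe : 1 / e ≤ L := by linarith
  have hLp : 0 < L := by linarith
  have hb : 0 < 1 / L := by positivity
  have hbe : 1 / L ≤ e := by
    rw [div_le_iff₀ hLp]
    rw [div_le_iff₀ he] at hLe
    linarith
  obtain ⟨u0, u1, u2, u3⟩ := Maj.log_bd (a := 1 + |y|) (by linarith [abs_nonneg y])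
  set P : ℝ := (1 + |y|) ^ (9 / 10 : ℝ) with hP
  set u : ℝ := Real.log (1 + |y|) with hu
  set τ : ℝ := γ + x / L + -(y / L) with hτ
  have hxL : |x / L| ≤ 1 / 4 := by
    rw [abs_div, abs_of_pos hLp, div_le_iff₀ hLp]
    linarith
  have hyL : |y / L| = |y| / L := by rw [abs_div, abs_of_pos hLp]
  have goal1 : ‖D.Fr (1 / L) (-(y / L)) (γ + x / L)‖ ≤ K * Real.exp (D1 * P) := by
    unfold Dat.Fr
    rw [norm_mul]
    by_cases hy : |y| ≤ e * L
    · -- the near bound
      have hyL1 : |y / L| ≤ e := by
        rw [hyL, div_le_iff₀ hLp]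
        exact hy
      have n1 := near (1 / L) (y / L) τ (C0 * Lg τ) hb hbe hyL1 (hM τ)
      have e1 : τ + y / L = γ + x / L := by rw [hτ]; ring
      rw [e1] at n1
      refine n1.trans ?_
      have e2 : |y / L| / (1 / L) = |y| := by
        rw [hyL]
        field_simp
      rw [e2, one_mul]
      refine mul_le_mul_of_nonneg_left (Real.exp_le_exp.2 ?_) hK.le
      have l1 : Lg τ ≤ A := by
        unfold Lg
        rw [hA]
        refine Real.log_le_log (by positivity) ?_
        have h1 : |τ| ≤ |γ| + |x / L| + |y / L| := by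
          rw [hτ]
          have := abs_add_le (γ + x / L) (-(y / L))
          have := abs_add_le γ (x / L)
          rw [abs_neg] at *
          linarith
        linarith
      have l0 : 0 ≤ Lg τ := by linarith [Pool.Agent.Y23.one_le_Lg τ]
      calc Lg τ + C0 * Lg τ * Real.log (1 + |y|) ≤ A + C0 * A * u := by
            gcongr
        _ ≤ A * P + C0 * A * (2 * P) := by
            gcongr
            nlinarith
        _ ≤ D1 * P := by
            rw [hD1]
            have : 0 ≤ P := by linarith
            have h1 : 0 ≤ (A + 2) * P := by positivity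
            have h2 : 0 ≤ C0 * (A * E + 5 + 2 * E) * P := by positivity
            nlinarith
    · -- the far bound
      push Not at hy
      have f1 := far (1 / L) (γ + x / L) τ (C0 * Lg τ) hb hbe (hM τ)
      refine f1.trans ?_
      rw [one_mul, one_mul, one_div_one_div]
      refine mul_le_mul_of_nonneg_left (Real.exp_le_exp.2 ?_) hK.le
      have l1 : Lg (γ + x / L) ≤ A := by
        unfold Lg
        rw [hA]
        refine Real.log_le_log (by positivity) ?_
        have := abs_add_le γ (x / L)
        linarith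
      have l2 : Lg τ ≤ A + u := by
        unfold Lg
        rw [hA, hu, ← Real.log_mul (by positivity) (by positivity)]
        refine Real.log_le_log (by positivity) ?_
        have h1 : |τ| ≤ |γ| + |x / L| + |y / L| := by
          rw [hτ]
          have := abs_add_le (γ + x / L) (-(y / L))
          have := abs_add_le γ (x / L)
          rw [abs_neg] at *
          linarith
        have h2 : |y / L| ≤ |y| := by
          rw [hyL, div_le_iff₀ hLp]
          nlinarith [abs_nonneg y]
        nlinarith [abs_nonneg y, abs_nonneg γ, mul_nonneg (abs_nonneg y) (abs_nonneg γ)]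
      have l3 : Real.log (1 + L) ≤ u + E := by
        have : 1 + L ≤ (1 + |y|) / e := by
          rw [le_div_iff₀ he]
          nlinarith
        calc Real.log (1 + L) ≤ Real.log ((1 + |y|) / e) := Real.log_le_log (by linarith) this
          _ = u + E := by
            rw [Real.log_div (by positivity) he.ne', hu, hE]
            ring
      have l0 : 0 ≤ Lg τ := by linarith [Pool.Agent.Y23.one_le_Lg τ]
      have l4 : 0 ≤ Real.log (1 + L) := Real.log_nonneg (by linarith)
      calc Lg (γ + x / L) + Lg τ + C0 * Lg τ * Real.log (1 + L)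
          ≤ A + (A + u) + C0 * (A + u) * (u + E) := by gcongr
        _ = 2 * A + u + C0 * (A * u + A * E + u ^ 2 + E * u) := by ring
        _ ≤ 2 * A * P + 2 * P + C0 * (A * (2 * P) + A * E * P + 5 * P + E * (2 * P)) := by
            have h1 : 2 * A ≤ 2 * A * P := by nlinarith
            have h2 : A * E ≤ A * E * P := by
              have : 0 ≤ A * E := by positivity
              nlinarith
            gcongr
        _ = D1 * P := by rw [hD1]; ring
  refine goal1.trans ?_
  have hP0 : 0 ≤ P := by linarith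
  have h1 : Real.exp (D1 * P) ≤ Real.exp ((K + D1) * P) := Real.exp_le_exp.2 (by nlinarith)
  have h2 : 0 < Real.exp ((K + D1) * P) := Real.exp_pos _
  calc K * Real.exp (D1 * P) ≤ K * Real.exp ((K + D1) * P) := by gcongr
    _ ≤ (K + D1) * Real.exp ((K + D1) * P) := by
      have : 0 ≤ D1 * Real.exp ((K + D1) * P) := by positivity
      nlinarith

end Pool.Agent.N967.H
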